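import Mathlib

section

set_option autoImplicit false

namespace Pool.Agent.MP_f14165_co
open Set Finset

/-- `b` is an open axis-parallel box whose sides are the two entries of `s`, in either order. -/
def IsBox (b : Set (ℝ × ℝ)) (s : ℝ × ℝ) : Prop :=
  ∃ x y : ℝ, b = Set.Ioo x (x + s.1) ×ˢ Set.Ioo y (y + s.2) ∨
    b = Set.Ioo x (x + s.2) ×ˢ Set.Ioo y (y + s.1)

def FitsL : Set (ℝ × ℝ) → List (ℝ × ℝ) → Prop
  | _, [] => True
  | U, s :: S => ∃ b, IsBox b s ∧ b ⊆ U ∧ FitsL (U \ b) S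

theorem FitsL.mono {S : List (ℝ × ℝ)} : ∀ {U V : Set (ℝ × ℝ)}, U ⊆ V → FitsL U S → FitsL V S := by
  induction S with
  | nil => intro U V _ _; trivial
  | cons s S ih =>
    rintro U V h ⟨b, hb, hbU, hS⟩
    exact ⟨b, hb, hbU.trans h, ih (Set.sdiff_subset_sdiff_left h) hS⟩

theorem FitsL.perm {S T : List (ℝ × ℝ)} (h : S.Perm T) :
    ∀ {U : Set (ℝ × ℝ)}, FitsL U S → FitsL U T := by
  induction h with
  | nil => intro U h; exact h
  | cons x _ ih =>
    rintro U ⟨b, hb, hbU, hS⟩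
    exact ⟨b, hb, hbU, ih hS⟩
  | swap x y l =>
    rintro U ⟨b, hb, hbU, c, hc, hcU, hS⟩
    refine ⟨c, hc, hcU.trans Set.sdiff_subset, b, hb, ?_, ?_⟩
    · intro z hz
      exact ⟨hbU hz, fun hzc => (hcU hzc).2 hz⟩
    · rw [Set.sdiff_sdiff_comm]; exact hS
  | trans _ _ ih1 ih2 => intro U h; exact ih2 (ih1 h)

def Fits (U : Set (ℝ × ℝ)) (M : Multiset (ℝ × ℝ)) : Prop :=
  ∃ l : List (ℝ × ℝ), (l : Multiset (ℝ × ℝ)) = M ∧ FitsL U l

theorem fits_coe {U : Set (ℝ × ℝ)} {l : List (ℝ × ℝ)} :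
    Fits U (l : Multiset (ℝ × ℝ)) ↔ FitsL U l :=
  ⟨fun ⟨_, h, h'⟩ => h'.perm (Multiset.coe_eq_coe.1 h), fun h => ⟨l, rfl, h⟩⟩

theorem Fits.mono {U V : Set (ℝ × ℝ)} {M : Multiset (ℝ × ℝ)} (h : U ⊆ V) (hM : Fits U M) :
    Fits V M := by
  obtain ⟨l, hl, h'⟩ := hM
  exact ⟨l, hl, h'.mono h⟩

theorem fits_zero (U : Set (ℝ × ℝ)) : Fits U 0 := ⟨[], rfl, trivial⟩

theorem fits_cons {U : Set (ℝ × ℝ)} {s : ℝ × ℝ} {M : Multiset (ℝ × ℝ)} :
    Fits U (s ::ₘ M) ↔ ∃ b, IsBox b s ∧ b ⊆ U ∧ Fits (U \ b) M := by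
  induction M using Quotient.inductionOn with
  | h l =>
    simp only [Multiset.quot_mk_to_coe, Multiset.cons_coe, fits_coe]
    rfl

theorem fits_add {S T : Multiset (ℝ × ℝ)} : ∀ {U : Set (ℝ × ℝ)},
    Fits U (S + T) ↔ ∃ V, V ⊆ U ∧ Fits V S ∧ Fits (U \ V) T := by
  induction S using Multiset.induction_on with
  | empty =>
    intro U
    simp only [zero_add]
    exact ⟨fun h => ⟨∅, Set.empty_subset _, fits_zero _, by simpa using h⟩,
      fun ⟨V, _, _, h⟩ => h.mono Set.sdiff_subset⟩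
  | cons s S ih =>
    intro U
    rw [Multiset.cons_add, fits_cons]
    constructor
    · rintro ⟨b, hb, hbU, h⟩
      obtain ⟨V, hV, h1, h2⟩ := ih.1 h
      refine ⟨b ∪ V, Set.union_subset hbU (hV.trans Set.sdiff_subset), ?_, ?_⟩
      · rw [fits_cons]
        refine ⟨b, hb, Set.subset_union_left, h1.mono ?_⟩
        intro z hz
        exact ⟨Or.inr hz, (hV hz).2⟩
      · rw [← Set.sdiff_sdiff]; exact h2
    · rintro ⟨V, hV, h1, h2⟩
      rw [fits_cons] at h1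
      obtain ⟨b, hb, hbV, h1⟩ := h1
      refine ⟨b, hb, hbV.trans hV, ih.2 ⟨V \ b, Set.sdiff_subset_sdiff_left hV, h1, h2.mono ?_⟩⟩
      intro z hz
      exact ⟨⟨hz.1, fun h => hz.2 (hbV h)⟩, fun h => hz.2 h.1⟩

theorem IsBox.swap {b : Set (ℝ × ℝ)} {s : ℝ × ℝ} (h : IsBox b s) :
    IsBox (Prod.swap ⁻¹' b) s := by
  obtain ⟨x, y, h | h⟩ := h
  · refine ⟨y, x, Or.inr ?_⟩
    rw [h, Set.preimage_swap_prod]
  · refine ⟨y, x, Or.inl ?_⟩
    rw [h, Set.preimage_swap_prod]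

theorem Fits.swap {M : Multiset (ℝ × ℝ)} : ∀ {U : Set (ℝ × ℝ)}, Fits U M →
    Fits (Prod.swap ⁻¹' U) M := by
  induction M using Multiset.induction_on with
  | empty => intro U _; exact fits_zero _
  | cons s M ih =>
    intro U h
    rw [fits_cons] at h ⊢
    obtain ⟨b, hb, hbU, h⟩ := h
    exact ⟨_, hb.swap, Set.preimage_mono hbU, by simpa using ih h⟩

noncomputable def area (M : Multiset (ℝ × ℝ)) : ℝ := (M.map fun s => s.1 * s.2).sum

@[simp] theorem area_zero : area 0 = 0 := by simp [area]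
@[simp] theorem area_add (S T : Multiset (ℝ × ℝ)) : area (S + T) = area S + area T := by
  simp [area]
@[simp] theorem area_single (s : ℝ × ℝ) : area {s} = s.1 * s.2 := by simp [area]
@[simp] theorem area_cons (s : ℝ × ℝ) (M : Multiset (ℝ × ℝ)) :
    area (s ::ₘ M) = s.1 * s.2 + area M := by simp [area]
theorem area_sum {ι : Type} (s : Finset ι) (f : ι → Multiset (ℝ × ℝ)) :
    area (∑ i ∈ s, f i) = ∑ i ∈ s, area (f i) := by
  classical
  induction s using Finset.induction_on with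
  | empty => simp
  | insert a s ha ih => rw [Finset.sum_insert ha, Finset.sum_insert ha, area_add, ih]

/-- `T` is obtained from `S` by cutting boxes, with no loss of area. -/
def Step (S T : Multiset (ℝ × ℝ)) : Prop :=
  (∀ U, Fits U S → Fits U T) ∧ area T = area S

theorem Step.refl (S : Multiset (ℝ × ℝ)) : Step S S := ⟨fun _ h => h, rfl⟩

theorem Step.trans {S T R : Multiset (ℝ × ℝ)} (h1 : Step S T) (h2 : Step T R) : Step S R :=
  ⟨fun U h => h2.1 U (h1.1 U h), h2.2.trans h1.2⟩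

theorem Step.of_eq {S T : Multiset (ℝ × ℝ)} (h : S = T) : Step S T := h ▸ Step.refl S

theorem Step.add_right {S T : Multiset (ℝ × ℝ)} (h : Step S T) (R : Multiset (ℝ × ℝ)) :
    Step (S + R) (T + R) := by
  refine ⟨fun U hU => ?_, by simp [h.2]⟩
  obtain ⟨V, hV, h1, h2⟩ := fits_add.1 hU
  exact fits_add.2 ⟨V, hV, h.1 V h1, h2⟩

theorem Step.add_left {S T : Multiset (ℝ × ℝ)} (h : Step S T) (R : Multiset (ℝ × ℝ)) :
    Step (R + S) (R + T) := by
  rw [add_comm R S, add_comm R T]; exact h.add_right R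

theorem Step.add {S T S' T' : Multiset (ℝ × ℝ)} (h : Step S T) (h' : Step S' T') :
    Step (S + S') (T + T') := (h.add_right S').trans (h'.add_left T)

theorem Step.sum {ι : Type} (s : Finset ι) (f g : ι → Multiset (ℝ × ℝ))
    (h : ∀ i ∈ s, Step (f i) (g i)) : Step (∑ i ∈ s, f i) (∑ i ∈ s, g i) := by
  classical
  induction s using Finset.induction_on with
  | empty => simpa using Step.refl 0
  | insert a s ha ih =>
    rw [Finset.sum_insert ha, Finset.sum_insert ha]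
    exact (h a (Finset.mem_insert_self _ _)).add
      (ih fun i hi => h i (Finset.mem_insert_of_mem hi))

theorem step_single {a b : ℝ} {T : Multiset (ℝ × ℝ)}
    (h : ∀ x y : ℝ, Fits (Set.Ioo x (x + a) ×ˢ Set.Ioo y (y + b)) T) (ha : area T = a * b) :
    Step {(a, b)} T := by
  refine ⟨fun U hU => ?_, by simpa using ha⟩
  rw [← Multiset.cons_zero, fits_cons] at hU
  obtain ⟨c, ⟨x, y, hc | hc⟩, hcU, _⟩ := hU
  · exact (h x y).mono (hc ▸ hcU)
  · have := (h y x).swap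
    rw [Set.preimage_swap_prod] at this
    exact this.mono (hc ▸ hcU)

theorem step_rot (a b : ℝ) : Step {(a, b)} {(b, a)} := by
  refine step_single (fun x y => ?_) (by simp [mul_comm])
  rw [← Multiset.cons_zero, fits_cons]
  exact ⟨_, ⟨x, y, Or.inr rfl⟩, subset_rfl, fits_zero _⟩

theorem step_drop {Z : Multiset (ℝ × ℝ)} (h : area Z = 0) : Step Z 0 :=
  ⟨fun U _ => fits_zero U, by simp [h]⟩

theorem step_cut {L y w : ℝ} (h0 : 0 ≤ w) (h1 : w ≤ L) :
    Step {(L, y)} ({(w, y)} + {(L - w, y)}) := by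
  refine step_single (fun p q => ?_) (by simp; ring)
  rw [Multiset.singleton_add, fits_cons]
  refine ⟨_, ⟨p, q, Or.inl rfl⟩, ?_, ?_⟩
  · exact Set.prod_mono (Set.Ioo_subset_Ioo le_rfl (by simp; linarith)) subset_rfl
  · rw [← Multiset.cons_zero, fits_cons]
    refine ⟨_, ⟨p + w, q, Or.inl rfl⟩, ?_, fits_zero _⟩
    rintro ⟨z1, z2⟩ ⟨⟨h2, h3⟩, h4⟩
    simp only at h2 h3 h4
    refine ⟨⟨⟨by simp only; linarith, by simp only; linarith⟩, h4⟩, ?_⟩
    rintro ⟨⟨_, h6⟩, _⟩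
    simp only at h6
    linarith

theorem step_cutY {L y h : ℝ} (h0 : 0 ≤ h) (h1 : h ≤ y) :
    Step {(L, y)} ({(L, h)} + {(L, y - h)}) :=
  (step_rot L y).trans ((step_cut h0 h1).trans ((step_rot _ _).add (step_rot _ _)))

theorem fits_of_pairwise {ι : Type} (s : Finset ι) (b : ι → Set (ℝ × ℝ)) (d : ι → ℝ × ℝ) :
    ∀ U : Set (ℝ × ℝ), (∀ i ∈ s, IsBox (b i) (d i) ∧ b i ⊆ U) →
      (∀ i ∈ s, ∀ j ∈ s, i ≠ j → Disjoint (b i) (b j)) →
      Fits U (∑ i ∈ s, ({d i} : Multiset (ℝ × ℝ))) := by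
  classical
  induction s using Finset.induction_on with
  | empty => intro U _ _; simpa using fits_zero U
  | insert a s ha ih =>
    intro U h1 h2
    rw [Finset.sum_insert ha, Multiset.singleton_add, fits_cons]
    refine ⟨b a, (h1 a (Finset.mem_insert_self _ _)).1, (h1 a (Finset.mem_insert_self _ _)).2,
      ih _ (fun i hi => ⟨(h1 i (Finset.mem_insert_of_mem hi)).1, ?_⟩)
        (fun i hi j hj => h2 i (Finset.mem_insert_of_mem hi) j (Finset.mem_insert_of_mem hj))⟩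
    have hd := h2 i (Finset.mem_insert_of_mem hi) a (Finset.mem_insert_self _ _)
      (fun h => ha (h ▸ hi))
    exact Set.subset_sdiff.2 ⟨(h1 i (Finset.mem_insert_of_mem hi)).2, hd⟩

theorem pairwise_of_fits {ι : Type} (s : Finset ι) (d : ι → ℝ × ℝ) :
    ∀ U : Set (ℝ × ℝ), Fits U (∑ i ∈ s, ({d i} : Multiset (ℝ × ℝ))) →
      ∃ b : ι → Set (ℝ × ℝ), (∀ i ∈ s, IsBox (b i) (d i) ∧ b i ⊆ U) ∧
      (∀ i ∈ s, ∀ j ∈ s, i ≠ j → Disjoint (b i) (b j)) := by
  classical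
  induction s using Finset.induction_on with
  | empty => intro U _; exact ⟨fun _ => ∅, by simp, by simp⟩
  | insert a s ha ih =>
    intro U h
    rw [Finset.sum_insert ha, Multiset.singleton_add, fits_cons] at h
    obtain ⟨c, hc, hcU, h⟩ := h
    obtain ⟨b, hb1, hb2⟩ := ih _ h
    have hne : ∀ i ∈ s, Function.update b a c i = b i := fun i hi =>
      Function.update_of_ne (fun h : i = a => ha (h ▸ hi)) _ _
    refine ⟨Function.update b a c, fun i hi => ?_, fun i hi j hj hij => ?_⟩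
    · rcases Finset.mem_insert.1 hi with rfl | hi
      · simpa using ⟨hc, hcU⟩
      · rw [hne i hi]; exact ⟨(hb1 i hi).1, (hb1 i hi).2.trans Set.sdiff_subset⟩
    · rcases Finset.mem_insert.1 hi with rfl | hi' <;> rcases Finset.mem_insert.1 hj with rfl | hj'
      · exact absurd rfl hij
      · rw [hne j hj', Function.update_self]
        exact (Set.subset_sdiff.1 (hb1 j hj').2).2.symm
      · rw [hne i hi', Function.update_self]
        exact (Set.subset_sdiff.1 (hb1 i hi').2).2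
      · rw [hne i hi', hne j hj']; exact hb2 i hi' j hj' hij

theorem box_disj {x1 x2 y1 y2 x1' x2' y1' y2' : ℝ}
    (h : x2 ≤ x1' ∨ x2' ≤ x1 ∨ y2 ≤ y1' ∨ y2' ≤ y1) :
    Disjoint (Set.Ioo x1 x2 ×ˢ Set.Ioo y1 y2) (Set.Ioo x1' x2' ×ˢ Set.Ioo y1' y2') := by
  rw [Set.disjoint_left]
  rintro ⟨z1, z2⟩ ⟨⟨h1, h2⟩, h3, h4⟩ ⟨⟨h5, h6⟩, h7, h8⟩
  simp only at h1 h2 h3 h4 h5 h6 h7 h8
  rcases h with h | h | h | h <;> linarith

theorem mono_of_step {f : ℕ → ℝ} {n : ℕ} (h : ∀ i, i < n → f i ≤ f (i + 1)) :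
    ∀ {i j : ℕ}, i ≤ j → j ≤ n → f i ≤ f j := by
  intro i j hij hj
  induction j, hij using Nat.le_induction with
  | base => exact le_rfl
  | succ k hk ih => exact (ih (by omega)).trans (h k (by omega))

/-- The pinwheel array: `K + 1` columns and `J + 1` rows of cells and `K * J` gaps. -/
theorem step_array (X Y : ℕ → ℕ → ℝ) (K J : ℕ) (W H : ℝ)
    (hX0 : ∀ j, X 0 j = 0) (hXK : ∀ j, X (K + 1) j = W)
    (hY0 : ∀ i, Y i 0 = 0) (hYJ : ∀ i, Y i (J + 1) = H)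
    (hXi : ∀ j, j ≤ J → ∀ i, i < K + 1 → X i j ≤ X (i + 1) j)
    (hXj : ∀ i, i ≤ K + 1 → ∀ j, j < J → X i j ≤ X i (j + 1))
    (hYj : ∀ i, i ≤ K → ∀ j, j < J + 1 → Y i j ≤ Y i (j + 1))
    (hYi : ∀ j, j ≤ J + 1 → ∀ i, i < K → Y (i + 1) j ≤ Y i j) :
    Step {(W, H)}
      ((∑ i ∈ range (K + 1), ∑ j ∈ range (J + 1),
          ({(X (i + 1) j - X i j, Y i (j + 1) - Y i j)} : Multiset (ℝ × ℝ))) +
       (∑ i ∈ range K, ∑ j ∈ range J,
          ({(X (i + 1) (j + 1) - X (i + 1) j, Y i (j + 1) - Y (i + 1) (j + 1))} :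
            Multiset (ℝ × ℝ)))) := by
  have mX : ∀ {i j i' j' : ℕ}, i ≤ i' → j ≤ j' → i' ≤ K + 1 → j' ≤ J → X i j ≤ X i' j' := by
    intro i j i' j' h1 h2 h3 h4
    exact (mono_of_step (f := fun i => X i j) (hXi j (by omega)) h1 h3).trans
      (mono_of_step (f := fun j => X i' j) (hXj i' h3) h2 h4)
  have mY : ∀ {i j i' j' : ℕ}, i' ≤ i → j ≤ j' → i ≤ K → j' ≤ J + 1 → Y i j ≤ Y i' j' := by
    intro i j i' j' h1 h2 h3 h4
    have := mono_of_step (f := fun i => - Y i j') (n := K)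
      (fun i hi => neg_le_neg (hYi j' h4 i hi)) h1 h3
    exact (mono_of_step (f := fun j => Y i j) (hYj i h3) h2 h4).trans (by linarith)
  refine step_single (fun x y => ?_) ?_
  · rw [← Finset.sum_product' (f := fun i j =>
        ({(X (i + 1) j - X i j, Y i (j + 1) - Y i j)} : Multiset (ℝ × ℝ))),
      ← Finset.sum_product' (f := fun i j =>
        ({(X (i + 1) (j + 1) - X (i + 1) j, Y i (j + 1) - Y (i + 1) (j + 1))} :
            Multiset (ℝ × ℝ)))]
    have key := fits_of_pairwise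
      ((range (K + 1) ×ˢ range (J + 1)).disjSum (range K ×ˢ range J))
      (Sum.elim
        (fun p => Set.Ioo (x + X p.1 p.2) (x + X (p.1 + 1) p.2) ×ˢ
          Set.Ioo (y + Y p.1 p.2) (y + Y p.1 (p.2 + 1)))
        (fun p => Set.Ioo (x + X (p.1 + 1) p.2) (x + X (p.1 + 1) (p.2 + 1)) ×ˢ
          Set.Ioo (y + Y (p.1 + 1) (p.2 + 1)) (y + Y p.1 (p.2 + 1))))
      (Sum.elim
        (fun p => (X (p.1 + 1) p.2 - X p.1 p.2, Y p.1 (p.2 + 1) - Y p.1 p.2))
        (fun p => (X (p.1 + 1) (p.2 + 1) - X (p.1 + 1) p.2,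
          Y p.1 (p.2 + 1) - Y (p.1 + 1) (p.2 + 1))))
      (Set.Ioo x (x + W) ×ˢ Set.Ioo y (y + H)) ?_ ?_
    · rw [Finset.sum_disjSum] at key
      exact key
    · rintro (⟨i, j⟩ | ⟨i, j⟩) hp
      · simp only [Finset.inl_mem_disjSum, Finset.mem_product, Finset.mem_range] at hp
        refine ⟨⟨x + X i j, y + Y i j, Or.inl ?_⟩, ?_⟩
        · simp only [Sum.elim_inl]; congr 2 <;> ring
        · simp only [Sum.elim_inl]
          have a1 := mX (i := 0) (j := j) (i' := i) (j' := j) (by omega) le_rfl (by omega) (by omega)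
          have a2 := mX (i := i + 1) (j := j) (i' := K + 1) (j' := j) (by omega) le_rfl le_rfl
            (by omega)
          have a3 := mY (i := i) (j := 0) (i' := i) (j' := j) le_rfl (by omega) (by omega) (by omega)
          have a4 := mY (i := i) (j := j + 1) (i' := i) (j' := J + 1) le_rfl (by omega) (by omega)
            le_rfl
          rw [hX0] at a1; rw [hXK] at a2; rw [hY0] at a3; rw [hYJ] at a4
          exact Set.prod_mono (Set.Ioo_subset_Ioo (by linarith) (by linarith))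
            (Set.Ioo_subset_Ioo (by linarith) (by linarith))
      · simp only [Finset.inr_mem_disjSum, Finset.mem_product, Finset.mem_range] at hp
        refine ⟨⟨x + X (i + 1) j, y + Y (i + 1) (j + 1), Or.inl ?_⟩, ?_⟩
        · simp only [Sum.elim_inr]; congr 2 <;> ring
        · simp only [Sum.elim_inr]
          have a1 := mX (i := 0) (j := j) (i' := i + 1) (j' := j) (by omega) le_rfl (by omega)
            (by omega)
          have a2 := mX (i := i + 1) (j := j + 1) (i' := K + 1) (j' := j + 1) (by omega) le_rfl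
            le_rfl (by omega)
          have a3 := mY (i := i + 1) (j := 0) (i' := i + 1) (j' := j + 1) le_rfl (by omega)
            (by omega) (by omega)
          have a4 := mY (i := i) (j := j + 1) (i' := i) (j' := J + 1) le_rfl (by omega) (by omega)
            le_rfl
          rw [hX0] at a1; rw [hXK] at a2; rw [hY0] at a3; rw [hYJ] at a4
          exact Set.prod_mono (Set.Ioo_subset_Ioo (by linarith) (by linarith))
            (Set.Ioo_subset_Ioo (by linarith) (by linarith))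
    · have cg : ∀ i j i' j' : ℕ, i < K + 1 → j < J + 1 → i' < K → j' < J →
          Disjoint (Set.Ioo (x + X i j) (x + X (i + 1) j) ×ˢ
            Set.Ioo (y + Y i j) (y + Y i (j + 1)))
           (Set.Ioo (x + X (i' + 1) j') (x + X (i' + 1) (j' + 1)) ×ˢ
            Set.Ioo (y + Y (i' + 1) (j' + 1)) (y + Y i' (j' + 1))) := by
        intro i j i' j' h1 h2 h3 h4
        apply box_disj
        rcases le_or_gt i i' with hi | hi <;> rcases le_or_gt j j' with hj | hj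
        · exact Or.inl (by have := mX (i := i + 1) (j := j) (i' := i' + 1) (j' := j') (by omega) hj (by omega) (by omega); linarith)
        · exact Or.inr (Or.inr (Or.inr (by have := mY (i := i') (j := j' + 1) (i' := i) (j' := j) hi (by omega) (by omega) (by omega); linarith)))
        · exact Or.inr (Or.inr (Or.inl (by have := mY (i := i) (j := j + 1) (i' := i' + 1) (j' := j' + 1) (by omega) (by omega) (by omega) (by omega); linarith)))
        · exact Or.inr (Or.inl (by have := mX (i := i' + 1) (j := j' + 1) (i' := i) (j' := j) (by omega) (by omega) (by omega) (by omega); linarith))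
      have cc : ∀ i j i' j' : ℕ, i < K + 1 → j < J + 1 → i' < K + 1 → j' < J + 1 →
          (i < i' ∨ (i = i' ∧ j < j')) →
          Disjoint (Set.Ioo (x + X i j) (x + X (i + 1) j) ×ˢ
            Set.Ioo (y + Y i j) (y + Y i (j + 1)))
           (Set.Ioo (x + X i' j') (x + X (i' + 1) j') ×ˢ
            Set.Ioo (y + Y i' j') (y + Y i' (j' + 1))) := by
        intro i j i' j' h1 h2 h3 h4 h5
        apply box_disj
        rcases h5 with hi | ⟨rfl, hj⟩
        · rcases le_or_gt j j' with hj | hj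
          · exact Or.inl (by have := mX (i := i + 1) (j := j) (i' := i') (j' := j') (by omega) hj (by omega) (by omega); linarith)
          · exact Or.inr (Or.inr (Or.inr (by have := mY (i := i') (j := j' + 1) (i' := i) (j' := j) (by omega) (by omega) (by omega) (by omega); linarith)))
        · exact Or.inr (Or.inr (Or.inl (by have := mY (i := i) (j := j + 1) (i' := i) (j' := j') le_rfl (by omega) (by omega) (by omega); linarith)))
      have gg : ∀ i j i' j' : ℕ, i < K → j < J → i' < K → j' < J →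
          (j < j' ∨ (j = j' ∧ i < i')) →
          Disjoint (Set.Ioo (x + X (i + 1) j) (x + X (i + 1) (j + 1)) ×ˢ
            Set.Ioo (y + Y (i + 1) (j + 1)) (y + Y i (j + 1)))
           (Set.Ioo (x + X (i' + 1) j') (x + X (i' + 1) (j' + 1)) ×ˢ
            Set.Ioo (y + Y (i' + 1) (j' + 1)) (y + Y i' (j' + 1))) := by
        intro i j i' j' h1 h2 h3 h4 h5
        apply box_disj
        rcases h5 with hj | ⟨rfl, hi⟩
        · rcases le_or_gt i i' with hi | hi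
          · exact Or.inl (by have := mX (i := i + 1) (j := j + 1) (i' := i' + 1) (j' := j') (by omega) (by omega) (by omega) (by omega); linarith)
          · exact Or.inr (Or.inr (Or.inl (by have := mY (i := i) (j := j + 1) (i' := i' + 1) (j' := j' + 1) (by omega) (by omega) (by omega) (by omega); linarith)))
        · exact Or.inr (Or.inr (Or.inr (by have := mY (i := i') (j := j + 1) (i' := i + 1) (j' := j + 1) (by omega) le_rfl (by omega) (by omega); linarith)))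
      rintro (⟨i, j⟩ | ⟨i, j⟩) hp (⟨i', j'⟩ | ⟨i', j'⟩) hp' hne <;>
        simp only [Finset.inl_mem_disjSum, Finset.inr_mem_disjSum, Finset.mem_product,
          Finset.mem_range, Sum.elim_inl, Sum.elim_inr, ne_eq, Sum.inl.injEq, Sum.inr.injEq,
          Prod.mk.injEq] at hp hp' hne ⊢
      · by_cases h : i < i' ∨ (i = i' ∧ j < j')
        · exact cc _ _ _ _ hp.1 hp.2 hp'.1 hp'.2 h
        · exact (cc _ _ _ _ hp'.1 hp'.2 hp.1 hp.2 (by omega)).symm
      · exact cg _ _ _ _ hp.1 hp.2 hp'.1 hp'.2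
      · exact (cg _ _ _ _ hp'.1 hp'.2 hp.1 hp.2).symm
      · by_cases h : j < j' ∨ (j = j' ∧ i < i')
        · exact gg _ _ _ _ hp.1 hp.2 hp'.1 hp'.2 h
        · exact (gg _ _ _ _ hp'.1 hp'.2 hp.1 hp.2 (by omega)).symm
  · simp only [area_add, area_sum, area_single]
    have abel : ∀ (u D : ℕ → ℝ) (n : ℕ), ∑ j ∈ range (n + 1), u j * (D (j + 1) - D j) =
        u n * D (n + 1) - u 0 * D 0 - ∑ j ∈ range n, (u (j + 1) - u j) * D (j + 1) := by
      intro u D n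
      induction n with
      | zero => simp; ring
      | succ n ih => rw [Finset.sum_range_succ, ih, Finset.sum_range_succ]; ring
    have col : ∀ n : ℕ, (∑ i ∈ range (n + 1), ∑ j ∈ range (J + 1),
          (X (i + 1) j - X i j) * (Y i (j + 1) - Y i j)) +
        (∑ i ∈ range n, ∑ j ∈ range J,
          (X (i + 1) (j + 1) - X (i + 1) j) * (Y i (j + 1) - Y (i + 1) (j + 1))) =
        ∑ j ∈ range (J + 1), X (n + 1) j * (Y n (j + 1) - Y n j) := by
      intro n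
      induction n with
      | zero => simp [hX0]
      | succ n ih =>
        rw [Finset.sum_range_succ _ (n + 1), Finset.sum_range_succ (fun i => ∑ j ∈ range J,
          (X (i + 1) (j + 1) - X (i + 1) j) * (Y i (j + 1) - Y (i + 1) (j + 1))) n]
        have e1 := abel (X (n + 1)) (fun j => Y (n + 1) j - Y n j) J
        simp only [hY0, hYJ, sub_self, mul_zero] at e1
        have e2 : ∑ j ∈ range (J + 1), (X (n + 1 + 1) j - X (n + 1) j) *
            (Y (n + 1) (j + 1) - Y (n + 1) j) =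
            ∑ j ∈ range (J + 1), X (n + 1 + 1) j * (Y (n + 1) (j + 1) - Y (n + 1) j) -
            ∑ j ∈ range (J + 1), X (n + 1) j * (Y n (j + 1) - Y n j) -
            ∑ j ∈ range (J + 1), X (n + 1) j *
              (Y (n + 1) (j + 1) - Y n (j + 1) - (Y (n + 1) j - Y n j)) := by
          rw [← Finset.sum_sub_distrib, ← Finset.sum_sub_distrib]
          exact Finset.sum_congr rfl fun j _ => by ring
        have e3 : ∑ j ∈ range J, (X (n + 1) (j + 1) - X (n + 1) j) *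
            (Y n (j + 1) - Y (n + 1) (j + 1)) =
            - ∑ j ∈ range J, (X (n + 1) (j + 1) - X (n + 1) j) *
            (Y (n + 1) (j + 1) - Y n (j + 1)) := by
          rw [← Finset.sum_neg_distrib]
          exact Finset.sum_congr rfl fun j _ => by ring
        rw [e2, e3, e1]
        linarith
    rw [col K]
    simp only [hXK]
    rw [← Finset.mul_sum, Finset.sum_range_sub (fun j => Y K j), hY0, hYJ, sub_zero]

end Pool.Agent.MP_f14165_co

end

section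

set_option autoImplicit false

namespace Pool.Agent.MP_f14165_co
open Set Finset

noncomputable def item (j : ℕ) : ℝ × ℝ := (1 / (j : ℝ), 1 / ((j : ℝ) + 1))

abbrev E2 := EuclideanSpace ℝ (Fin 2)

noncomputable def toP : E2 ≃ₜ ℝ × ℝ :=
  (EuclideanSpace.equiv (Fin 2) ℝ).toHomeomorph.trans Homeomorph.finTwoArrow

theorem toP_apply (z : E2) : toP z = (z 0, z 1) := rfl

theorem exists_iso (p q a b : ℝ) : ∃ f : E2 ≃ᵢ E2,
    f '' {x : E2 | 0 ≤ x 0 ∧ x 0 ≤ a ∧ 0 ≤ x 1 ∧ x 1 ≤ b} =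
      toP ⁻¹' (Set.Icc p (p + a) ×ˢ Set.Icc q (q + b)) := by
  refine ⟨IsometryEquiv.addRight (!₂[p, q] : E2), ?_⟩
  ext z
  simp only [Set.mem_preimage, Set.mem_image, Set.mem_ofPred_eq, toP_apply, Set.mem_prod,
    Set.mem_Icc, IsometryEquiv.addRight_apply]
  constructor
  · rintro ⟨x, ⟨h1, h2, h3, h4⟩, rfl⟩
    simp only [PiLp.add_apply, Matrix.cons_val_zero, Matrix.cons_val_one]
    exact ⟨⟨by linarith, by linarith⟩, by linarith, by linarith⟩
  · rintro ⟨⟨h1, h2⟩, h3, h4⟩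
    refine ⟨z - (!₂[p, q] : E2), ?_, by simp⟩
    simp only [PiLp.sub_apply, Matrix.cons_val_zero, Matrix.cons_val_one]
    exact ⟨by linarith, by linarith, by linarith, by linarith⟩

theorem exists_iso' (p q a b : ℝ) : ∃ f : E2 ≃ᵢ E2,
    f '' {x : E2 | 0 ≤ x 0 ∧ x 0 ≤ a ∧ 0 ≤ x 1 ∧ x 1 ≤ b} =
      toP ⁻¹' (Set.Icc p (p + b) ×ˢ Set.Icc q (q + a)) := by
  obtain ⟨f, hf⟩ := exists_iso p q b a
  let s : E2 ≃ᵢ E2 :=
    (LinearIsometryEquiv.piLpCongrLeft 2 ℝ ℝ (Equiv.swap (0 : Fin 2) 1)).toIsometryEquiv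
  refine ⟨s.trans f, ?_⟩
  rw [← hf, show (⇑(s.trans f) : E2 → E2) = f ∘ s from rfl, Set.image_comp]
  congr 1
  have hs : ∀ z : E2, s z 0 = z 1 ∧ s z 1 = z 0 := fun z => ⟨rfl, rfl⟩
  ext z
  constructor
  · rintro ⟨x, ⟨h1, h2, h3, h4⟩, rfl⟩
    simp only [Set.mem_ofPred_eq, (hs x).1, (hs x).2]
    exact ⟨h3, h4, h1, h2⟩
  · rintro ⟨h1, h2, h3, h4⟩
    refine ⟨s.symm z, ?_, s.apply_symm_apply z⟩
    have e := hs (s.symm z)
    rw [s.apply_symm_apply] at e
    simp only [Set.mem_ofPred_eq, ← e.1, ← e.2]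
    exact ⟨h3, h4, h1, h2⟩

theorem closed_sub {p q a b R : ℝ} (ha : 0 < a) (hb : 0 < b)
    (h : Set.Ioo p (p + a) ×ˢ Set.Ioo q (q + b) ⊆ Set.Ioo 0 R ×ˢ Set.Ioo 0 R) :
    Set.Icc p (p + a) ×ˢ Set.Icc q (q + b) ⊆ Set.Icc 0 R ×ˢ Set.Icc 0 R := by
  have h2 : Set.Ioo p (p + a) ×ˢ Set.Ioo q (q + b) ⊆ Set.Icc 0 R ×ˢ Set.Icc 0 R :=
    h.trans (Set.prod_mono Set.Ioo_subset_Icc_self Set.Ioo_subset_Icc_self)
  have h3 := closure_minimal h2 (isClosed_Icc.prod isClosed_Icc)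
  rwa [closure_prod_eq, closure_Ioo (by linarith), closure_Ioo (by linarith)] at h3

theorem of_boxes (R : ℝ) (b : ℕ → Set (ℝ × ℝ))
    (h1 : ∀ n, IsBox (b n) (item (n + 1)) ∧ b n ⊆ Set.Ioo 0 R ×ˢ Set.Ioo 0 R)
    (h2 : ∀ n m, n ≠ m → Disjoint (b n) (b m)) :
    ∃ f : ℕ → (E2 ≃ᵢ E2),
      (∀ n : ℕ,
        f n '' {x : E2 | 0 ≤ x 0 ∧ x 0 ≤ 1 / ((n : ℝ) + 1) ∧ 0 ≤ x 1 ∧ x 1 ≤ 1 / ((n : ℝ) + 2)}
          ⊆ {x : E2 | 0 ≤ x 0 ∧ x 0 ≤ R ∧ 0 ≤ x 1 ∧ x 1 ≤ R}) ∧
      (∀ n m : ℕ, n ≠ m →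
        Disjoint
          (interior (f n '' {x : E2 |
            0 ≤ x 0 ∧ x 0 ≤ 1 / ((n : ℝ) + 1) ∧ 0 ≤ x 1 ∧ x 1 ≤ 1 / ((n : ℝ) + 2)}))
          (interior (f m '' {x : E2 |
            0 ≤ x 0 ∧ x 0 ≤ 1 / ((m : ℝ) + 1) ∧ 0 ≤ x 1 ∧ x 1 ≤ 1 / ((m : ℝ) + 2)}))) := by
  have key : ∀ n : ℕ, ∃ f : E2 ≃ᵢ E2,
      f '' {x : E2 | 0 ≤ x 0 ∧ x 0 ≤ 1 / ((n : ℝ) + 1) ∧ 0 ≤ x 1 ∧ x 1 ≤ 1 / ((n : ℝ) + 2)}
          ⊆ {x : E2 | 0 ≤ x 0 ∧ x 0 ≤ R ∧ 0 ≤ x 1 ∧ x 1 ≤ R} ∧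
      interior (f '' {x : E2 |
            0 ≤ x 0 ∧ x 0 ≤ 1 / ((n : ℝ) + 1) ∧ 0 ≤ x 1 ∧ x 1 ≤ 1 / ((n : ℝ) + 2)}) =
        toP ⁻¹' (b n) := by
    intro n
    have e1 : (item (n + 1)).1 = 1 / ((n : ℝ) + 1) := by simp [item]
    have e2 : (item (n + 1)).2 = 1 / ((n : ℝ) + 2) := by
      simp only [item]; push_cast; ring_nf
    have p1 : 0 < 1 / ((n : ℝ) + 1) := by positivity
    have p2 : 0 < 1 / ((n : ℝ) + 2) := by positivity
    obtain ⟨⟨p, q, h | h⟩, hs⟩ := h1 n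
    · rw [e1, e2] at h
      obtain ⟨f, hf⟩ := exists_iso p q (1 / ((n : ℝ) + 1)) (1 / ((n : ℝ) + 2))
      refine ⟨f, ?_, ?_⟩
      · rw [hf]
        intro z hz
        have := closed_sub p1 p2 (h ▸ hs) hz
        simp only [toP_apply, Set.mem_prod, Set.mem_Icc] at this
        exact ⟨this.1.1, this.1.2, this.2.1, this.2.2⟩
      · rw [hf, ← toP.preimage_interior, interior_prod_eq, interior_Icc, interior_Icc, h]
    · rw [e1, e2] at h
      obtain ⟨f, hf⟩ := exists_iso' p q (1 / ((n : ℝ) + 1)) (1 / ((n : ℝ) + 2))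
      refine ⟨f, ?_, ?_⟩
      · rw [hf]
        intro z hz
        have := closed_sub p2 p1 (h ▸ hs) hz
        simp only [toP_apply, Set.mem_prod, Set.mem_Icc] at this
        exact ⟨this.1.1, this.1.2, this.2.1, this.2.2⟩
      · rw [hf, ← toP.preimage_interior, interior_prod_eq, interior_Icc, interior_Icc, h]
  choose f hf using key
  refine ⟨f, fun n => (hf n).1, fun n m hnm => ?_⟩
  rw [(hf n).2, (hf m).2]
  exact (h2 n m hnm).preimage _

/-- The tail of the sequence goes into a thin strip, one column for each dyadic block. -/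
theorem tail_boxes (M : ℕ) (hM : 0 < M) : ∃ b : ℕ → Set (ℝ × ℝ),
    (∀ j, M ≤ j → IsBox (b j) (item j) ∧ b j ⊆ Set.Ioo 1 (1 + 2 / (M : ℝ)) ×ˢ Set.Ioo 0 1) ∧
    (∀ i j, M ≤ i → M ≤ j → i ≠ j → Disjoint (b i) (b j)) := by
  let k : ℕ → ℕ := fun j => Nat.log 2 (j / M)
  let s : ℕ → ℝ := fun k => 1 / ((2 : ℝ) ^ k * M)
  let x : ℕ → ℝ := fun k => 1 + 2 / (M : ℝ) - 2 * s k
  let y : ℕ → ℝ := fun j => (j : ℝ) * s (k j) - 1
  have hMr : (0 : ℝ) < M := by exact_mod_cast hM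
  have hk : ∀ j, M ≤ j → (2 : ℝ) ^ k j * M ≤ j ∧ (j : ℝ) + 1 ≤ 2 * ((2 : ℝ) ^ k j * M) := by
    intro j hj
    have h0 : j / M ≠ 0 := (Nat.div_pos hj hM).ne'
    have h1 : 2 ^ k j ≤ j / M := Nat.pow_log_le_self 2 h0
    have h2 : j / M < 2 ^ (k j + 1) := Nat.lt_pow_succ_log_self (by norm_num) _
    have h3 : 2 ^ k j * M ≤ j := (Nat.le_div_iff_mul_le hM).1 h1
    have h4 : j < 2 ^ (k j + 1) * M := (Nat.div_lt_iff_lt_mul hM).1 h2
    constructor
    · exact_mod_cast h3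
    · have : j + 1 ≤ 2 * (2 ^ k j * M) := by rw [pow_succ] at h4; nlinarith
      exact_mod_cast this
  have hs : ∀ k, 0 < s k := fun k => by positivity
  have hs1 : ∀ k, s k * ((2 : ℝ) ^ k * M) = 1 := fun k => by
    simp only [s]; field_simp
  have hs2 : ∀ k, s (k + 1) = s k / 2 := fun k => by
    simp only [s]; rw [pow_succ]; field_simp
  have hs3 : ∀ k l, k ≤ l → s l ≤ s k := fun k l h => by
    simp only [s]
    exact one_div_le_one_div_of_le (by positivity)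
      (mul_le_mul_of_nonneg_right (pow_le_pow_right₀ (by norm_num) h) hMr.le)
  have hw : ∀ j, M ≤ j → 1 / (j : ℝ) ≤ s (k j) ∧ 1 / ((j : ℝ) + 1) ≤ s (k j) := by
    intro j hj
    have := (hk j hj).1
    exact ⟨one_div_le_one_div_of_le (by positivity) this,
      one_div_le_one_div_of_le (by positivity) (by linarith)⟩
  refine ⟨fun j => Set.Ioo (x (k j)) (x (k j) + 1 / (j : ℝ)) ×ˢ
    Set.Ioo (y j) (y j + 1 / ((j : ℝ) + 1)), fun j hj => ⟨⟨_, _, Or.inl rfl⟩, ?_⟩, ?_⟩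
  · have a1 := hs3 0 (k j) (Nat.zero_le _)
    have a2 : s 0 = 1 / (M : ℝ) := by simp [s]
    have a3 : 2 / (M : ℝ) = 2 * (1 / (M : ℝ)) := by ring
    have a4 := hw j hj
    have a5 := hs (k j)
    have a6 := hs1 (k j)
    have a7 := hk j hj
    refine Set.prod_mono (Set.Ioo_subset_Ioo ?_ ?_) (Set.Ioo_subset_Ioo ?_ ?_)
    · simp only [x]; linarith
    · simp only [x]; linarith
    · simp only [y]; nlinarith
    · simp only [y]; nlinarith
  · have lt : ∀ i j, M ≤ i → M ≤ j → i < j →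
        Disjoint (Set.Ioo (x (k i)) (x (k i) + 1 / (i : ℝ)) ×ˢ
          Set.Ioo (y i) (y i + 1 / ((i : ℝ) + 1)))
        (Set.Ioo (x (k j)) (x (k j) + 1 / (j : ℝ)) ×ˢ
          Set.Ioo (y j) (y j + 1 / ((j : ℝ) + 1))) := by
      intro i j hi hj hij
      apply box_disj
      have hkk : k i ≤ k j := Nat.log_mono_right (Nat.div_le_div_right hij.le)
      rcases hkk.eq_or_lt with h | h
      · refine Or.inr (Or.inr (Or.inl ?_))
        have a4 := (hw i hi).2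
        have : (i : ℝ) + 1 ≤ j := by exact_mod_cast hij
        have a5 := hs (k i)
        simp only [y, ← h]
        nlinarith
      · refine Or.inl ?_
        have a4 := (hw i hi).1
        have a5 := hs3 (k i + 1) (k j) h
        rw [hs2] at a5
        simp only [x]
        linarith
    intro i j hi hj hij
    rcases lt_or_gt_of_ne hij with h | h
    · exact lt i j hi hj h
    · exact (lt j i hj hi h).symm

theorem final_of_finite
    (h : ∀ N : ℕ, Fits (Set.Ioo 0 1 ×ˢ Set.Ioo 0 1)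
      (∑ j ∈ Finset.Ico 1 N, ({item j} : Multiset (ℝ × ℝ)))) :
    ∀ ε : ℝ, 0 < ε →
      ∃ f : ℕ → (EuclideanSpace ℝ (Fin 2) ≃ᵢ EuclideanSpace ℝ (Fin 2)),
        (∀ n : ℕ,
          f n '' {x : EuclideanSpace ℝ (Fin 2) |
              0 ≤ x 0 ∧ x 0 ≤ 1 / ((n : ℝ) + 1) ∧ 0 ≤ x 1 ∧ x 1 ≤ 1 / ((n : ℝ) + 2)}
            ⊆ {x : EuclideanSpace ℝ (Fin 2) |
              0 ≤ x 0 ∧ x 0 ≤ Real.sqrt (1 + ε) ∧ 0 ≤ x 1 ∧ x 1 ≤ Real.sqrt (1 + ε)}) ∧
        (∀ n m : ℕ, n ≠ m →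
          Disjoint
            (interior (f n '' {x : EuclideanSpace ℝ (Fin 2) |
              0 ≤ x 0 ∧ x 0 ≤ 1 / ((n : ℝ) + 1) ∧ 0 ≤ x 1 ∧ x 1 ≤ 1 / ((n : ℝ) + 2)}))
            (interior (f m '' {x : EuclideanSpace ℝ (Fin 2) |
              0 ≤ x 0 ∧ x 0 ≤ 1 / ((m : ℝ) + 1) ∧ 0 ≤ x 1 ∧ x 1 ≤ 1 / ((m : ℝ) + 2)}))) := by
  intro ε hε
  have hR : 1 < Real.sqrt (1 + ε) := Real.lt_sqrt_of_sq_lt (by linarith)
  obtain ⟨M0, hM0⟩ := exists_nat_gt (2 / (Real.sqrt (1 + ε) - 1))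
  have hp : 0 < 2 / (Real.sqrt (1 + ε) - 1) := div_pos two_pos (by linarith)
  have hM : 0 < M0 := by
    have : (0 : ℝ) < M0 := hp.trans hM0
    exact_mod_cast this
  have hMr : (0 : ℝ) < M0 := by exact_mod_cast hM
  have hw : 1 + 2 / (M0 : ℝ) ≤ Real.sqrt (1 + ε) := by
    rw [div_lt_iff₀ (by linarith)] at hM0
    have : 2 / (M0 : ℝ) ≤ Real.sqrt (1 + ε) - 1 := by
      rw [div_le_iff₀ hMr]; linarith
    linarith
  obtain ⟨b, hb1, hb2⟩ := pairwise_of_fits _ _ _ (h M0)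
  obtain ⟨c, hc1, hc2⟩ := tail_boxes M0 hM
  have hbc : ∀ i j, i ∈ Finset.Ico 1 M0 → M0 ≤ j → Disjoint (b i) (c j) := fun i j hi hj =>
    (box_disj (Or.inl le_rfl)).mono (hb1 i hi).2 (hc1 j hj).2
  refine of_boxes _ (fun n => if n + 1 < M0 then b (n + 1) else c (n + 1)) (fun n => ?_)
    (fun n m hnm => ?_)
  · split_ifs with hn
    · have := hb1 (n + 1) (Finset.mem_Ico.2 ⟨by omega, hn⟩)
      exact ⟨this.1, this.2.trans (Set.prod_mono (Set.Ioo_subset_Ioo le_rfl hR.le)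
        (Set.Ioo_subset_Ioo le_rfl hR.le))⟩
    · have := hc1 (n + 1) (by omega)
      exact ⟨this.1, this.2.trans (Set.prod_mono (Set.Ioo_subset_Ioo zero_le_one hw)
        (Set.Ioo_subset_Ioo le_rfl hR.le))⟩
  · split_ifs with hn hm hm
    · exact hb2 _ (Finset.mem_Ico.2 ⟨by omega, hn⟩) _ (Finset.mem_Ico.2 ⟨by omega, hm⟩) (by omega)
    · exact hbc _ _ (Finset.mem_Ico.2 ⟨by omega, hn⟩) (by omega)
    · exact (hbc _ _ (Finset.mem_Ico.2 ⟨by omega, hm⟩) (by omega)).symm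
    · exact hc2 _ _ (by omega) (by omega) (by omega)

end Pool.Agent.MP_f14165_co

end

section

set_option autoImplicit false

namespace Pool.Agent.MP_f14165_co
open Finset

abbrev MS := Multiset (ℝ × ℝ)

noncomputable def sm (f : ℝ × ℝ → ℝ) (M : MS) : ℝ := (M.map f).sum

@[simp] theorem sm_zero (f : ℝ × ℝ → ℝ) : sm f 0 = 0 := by simp [sm]
@[simp] theorem sm_add (f : ℝ × ℝ → ℝ) (S T : MS) : sm f (S + T) = sm f S + sm f T := by
  simp [sm]
@[simp] theorem sm_single (f : ℝ × ℝ → ℝ) (s : ℝ × ℝ) : sm f {s} = f s := by simp [sm]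
@[simp] theorem sm_cons (f : ℝ × ℝ → ℝ) (s : ℝ × ℝ) (M : MS) : sm f (s ::ₘ M) = f s + sm f M := by
  simp [sm]
theorem sm_sum {ι : Type} (f : ℝ × ℝ → ℝ) (s : Finset ι) (g : ι → MS) :
    sm f (∑ i ∈ s, g i) = ∑ i ∈ s, sm f (g i) := by
  classical
  induction s using Finset.induction_on with
  | empty => simp
  | insert a s ha ih => rw [Finset.sum_insert ha, Finset.sum_insert ha, sm_add, ih]

theorem sm_le {f g : ℝ × ℝ → ℝ} {M : MS} (h : ∀ s ∈ M, f s ≤ g s) : sm f M ≤ sm g M :=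
  Multiset.sum_map_le_sum_map _ _ h

theorem sm_nonneg {f : ℝ × ℝ → ℝ} {M : MS} (h : ∀ s ∈ M, 0 ≤ f s) : 0 ≤ sm f M := by
  have := sm_le (f := fun _ => 0) (g := f) h
  simpa [sm] using this

theorem sm_eq_zero {f : ℝ × ℝ → ℝ} {M : MS} (h : ∀ s ∈ M, f s = 0) : sm f M = 0 := by
  have h1 := sm_le (f := f) (g := fun _ => 0) (fun s hs => (h s hs).le)
  have h2 := sm_nonneg (f := f) (fun s hs => (h s hs).ge)
  have : sm (fun _ => (0 : ℝ)) M = 0 := by simp [sm]
  linarith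

theorem sm_congr {f g : ℝ × ℝ → ℝ} {M : MS} (h : ∀ s ∈ M, f s = g s) : sm f M = sm g M :=
  le_antisymm (sm_le fun s hs => (h s hs).le) (sm_le fun s hs => (h s hs).ge)

theorem sm_addf (f g : ℝ × ℝ → ℝ) (M : MS) : sm (fun s => f s + g s) M = sm f M + sm g M := by
  simp [sm, Multiset.sum_map_add]

theorem sm_mul (c : ℝ) (f : ℝ × ℝ → ℝ) (M : MS) : sm (fun s => c * f s) M = c * sm f M := by
  simp [sm, Multiset.sum_map_mul_left]

theorem sm_fsum {ι : Type} (t : Finset ι) (f : ι → ℝ × ℝ → ℝ) (M : MS) :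
    sm (fun s => ∑ i ∈ t, f i s) M = ∑ i ∈ t, sm (f i) M := by
  induction M using Multiset.induction_on with
  | empty => simp
  | cons s M ih => simp [ih, Finset.sum_add_distrib]

theorem le_sm {f : ℝ × ℝ → ℝ} {M : MS} (h : ∀ s ∈ M, 0 ≤ f s) {s : ℝ × ℝ} (hs : s ∈ M) :
    f s ≤ sm f M := by
  obtain ⟨T, rfl⟩ := Multiset.exists_cons_of_mem hs
  have := sm_nonneg (f := f) (M := T) (fun t ht => h t (Multiset.mem_cons_of_mem ht))
  simp; linarith

theorem area_eq_sm (M : MS) : area M = sm (fun s => s.1 * s.2) M := rfl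

/-- total length of the holes whose thin side lies in `[lo, hi)` -/
noncomputable def lenI (lo hi : ℝ) : MS → ℝ := sm fun s => if lo ≤ s.2 ∧ s.2 < hi then s.1 else 0
/-- total length of the holes whose thin side is at least `t` -/
noncomputable def lenGe (t : ℝ) : MS → ℝ := sm fun s => if t ≤ s.2 then s.1 else 0
noncomputable def len : MS → ℝ := sm Prod.fst
noncomputable def thin : MS → ℝ := sm Prod.snd

def WF (t : ℝ) (M : MS) : Prop := ∀ s ∈ M, 0 < s.2 ∧ s.2 ≤ s.1 ∧ s.2 < t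

theorem WF.zero (t : ℝ) : WF t 0 := by simp [WF]
theorem WF.add {t : ℝ} {S T : MS} (h1 : WF t S) (h2 : WF t T) : WF t (S + T) := by
  intro s hs
  rcases Multiset.mem_add.1 hs with h | h
  · exact h1 s h
  · exact h2 s h
theorem WF.cons {t : ℝ} {s : ℝ × ℝ} {T : MS} (h1 : 0 < s.2 ∧ s.2 ≤ s.1 ∧ s.2 < t) (h2 : WF t T) :
    WF t (s ::ₘ T) := by
  intro r hr
  rcases Multiset.mem_cons.1 hr with rfl | h
  · exact h1
  · exact h2 r h
theorem WF.mono {t t' : ℝ} {S : MS} (h : WF t S) (ht : t ≤ t') : WF t' S :=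
  fun s hs => ⟨(h s hs).1, (h s hs).2.1, (h s hs).2.2.trans_le ht⟩

theorem lenI_nonneg {lo hi t : ℝ} {M : MS} (h : WF t M) : 0 ≤ lenI lo hi M :=
  sm_nonneg fun s hs => by
    have := h s hs
    split_ifs <;> linarith
theorem len_nonneg {t : ℝ} {M : MS} (h : WF t M) : 0 ≤ len M :=
  sm_nonneg fun s hs => by have := h s hs; linarith
theorem thin_nonneg {t : ℝ} {M : MS} (h : WF t M) : 0 ≤ thin M :=
  sm_nonneg fun s hs => by have := h s hs; linarith

/-- bound for a chain of holes with thin sides in `[p, τ]` -/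
noncomputable def tb (p τ e d lo hi : ℝ) : ℝ :=
  if p < hi ∧ lo ≤ τ then e + d * (min hi τ - max lo p) else 0

theorem tb_nonneg {p τ e d lo hi : ℝ} (hp : p ≤ τ) (he : 0 ≤ e) (hd : 0 ≤ d) (h : lo < hi) :
    0 ≤ tb p τ e d lo hi := by
  unfold tb
  split_ifs with h1
  · have : max lo p ≤ min hi τ := max_le (le_min h.le h1.2) (le_min h1.1.le hp)
    nlinarith
  · exact le_rfl

theorem tb_mono {p p' τ e d lo hi : ℝ} (hp : p' ≤ p) (hp' : p' ≤ τ) (he : 0 ≤ e) (hd : 0 ≤ d)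
    (h : lo < hi) : tb p τ e d lo hi ≤ tb p' τ e d lo hi := by
  by_cases h1 : p < hi ∧ lo ≤ τ
  · unfold tb
    rw [if_pos h1, if_pos ⟨hp.trans_lt h1.1, h1.2⟩]
    have : max lo p' ≤ max lo p := max_le_max le_rfl hp
    nlinarith
  · have := tb_nonneg hp' he hd h
    unfold tb at this ⊢
    rw [if_neg h1]; exact this

def Chain (p τ e d : ℝ) (C : MS) : Prop :=
  ∀ lo hi, lo < hi → lenI lo hi C ≤ tb p τ e d lo hi

theorem Chain.zero {p τ e d : ℝ} (hp : p ≤ τ) (he : 0 ≤ e) (hd : 0 ≤ d) : Chain p τ e d 0 :=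
  fun lo hi h => by simpa [lenI] using tb_nonneg hp he hd h

theorem Chain.mono {p p' τ e d : ℝ} {C : MS} (h : Chain p τ e d C) (hp : p' ≤ p) (hp' : p' ≤ τ)
    (he : 0 ≤ e) (hd : 0 ≤ d) : Chain p' τ e d C :=
  fun lo hi hl => (h lo hi hl).trans (tb_mono hp hp' he hd hl)

theorem Chain.cons {p τ e d l s : ℝ} {C : MS} (h : Chain p τ e d C) (hs : s ≤ p) (hsτ : s ≤ τ)
    (he : 0 ≤ e) (hd : 0 ≤ d) (hl : l ≤ e) (hl' : l ≤ d * (p - s)) :
    Chain s τ e d ((l, s) ::ₘ C) := by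
  intro lo hi hlh
  have h0 := h lo hi hlh
  have h1 := tb_mono hs hsτ he hd hlh
  simp only [lenI, sm_cons] at h0 ⊢
  split_ifs with h2
  · unfold tb at h0 ⊢
    rw [if_pos ⟨h2.2, h2.1.trans hsτ⟩, max_eq_right h2.1]
    split_ifs at h0 with h3
    · rw [max_eq_right (h2.1.trans hs)] at h0
      nlinarith
    · have : s ≤ min hi τ := le_min h2.2.le hsτ
      nlinarith
  · linarith

theorem exists_uncovered {ι : Type} (t : Finset ι) (p q : ι → ℝ) (α β : ℝ) (hα : 0 < α)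
    (hp : ∀ i ∈ t, 0 < p i ∧ p i ≤ q i)
    (h : ∑ i ∈ t, Real.log (q i / p i) < Real.log (β / α)) (hβ : 0 < β) :
    ∃ z, α ≤ z ∧ z ≤ β ∧ ∀ i ∈ t, ¬ (p i ≤ z ∧ z ≤ q i) := by
  by_contra hc
  push Not at hc
  have hsub : Set.Icc (Real.log α) (Real.log β) ⊆
      ⋃ i ∈ t, Set.Icc (Real.log (p i)) (Real.log (q i)) := by
    intro x hx
    have h1 : α ≤ Real.exp x := by
      rw [← Real.exp_log hα]; exact Real.exp_le_exp.2 hx.1
    have h2 : Real.exp x ≤ β := by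
      rw [← Real.exp_log hβ]; exact Real.exp_le_exp.2 hx.2
    obtain ⟨i, hi, h3, h4⟩ := hc _ h1 h2
    simp only [Set.mem_iUnion]
    refine ⟨i, hi, ?_, ?_⟩
    · rw [← Real.log_exp x]; exact Real.log_le_log (hp i hi).1 h3
    · rw [← Real.log_exp x]; exact Real.log_le_log (Real.exp_pos x) h4
  have h1 := (MeasureTheory.measure_mono (μ := MeasureTheory.volume) hsub).trans
    (MeasureTheory.measure_biUnion_finset_le t _)
  simp only [Real.volume_Icc] at h1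
  have hn : ∀ i ∈ t, 0 ≤ Real.log (q i) - Real.log (p i) := fun i hi =>
    sub_nonneg.2 (Real.log_le_log (hp i hi).1 (hp i hi).2)
  rw [← ENNReal.ofReal_sum_of_nonneg hn,
    ENNReal.ofReal_le_ofReal_iff (Finset.sum_nonneg hn)] at h1
  rw [Real.log_div hβ.ne' hα.ne'] at h
  have : ∑ i ∈ t, Real.log (q i / p i) = ∑ i ∈ t, (Real.log (q i) - Real.log (p i)) :=
    Finset.sum_congr rfl fun i hi =>
      Real.log_div ((hp i hi).1.trans_le (hp i hi).2).ne' (hp i hi).1.ne'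
  linarith

theorem sum_lenI_le {w : ℕ → ℝ} (hw : StrictAnti w) (t : Finset ℕ) {θ : ℝ} {M : MS}
    (hM : WF θ M) : ∑ h ∈ t, lenI (w (h + 1)) (w h) M ≤ len M := by
  unfold lenI len
  rw [← sm_fsum]
  refine sm_le fun s hs => ?_
  have h0 : 0 ≤ s.1 := by have := hM s hs; linarith
  by_cases hex : ∃ h ∈ t, w (h + 1) ≤ s.2 ∧ s.2 < w h
  · obtain ⟨h, ht, h1⟩ := hex
    rw [Finset.sum_eq_single_of_mem h ht, if_pos h1]
    intro k _ hk
    rw [if_neg]
    rintro ⟨h2, h3⟩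
    rcases lt_or_gt_of_ne hk with hl | hl
    · have := hw.antitone (show k + 1 ≤ h from hl); linarith [h1.2]
    · have := hw.antitone (show h + 1 ≤ k from hl); linarith [h1.1]
  · push Not at hex
    rw [Finset.sum_eq_zero]
    · exact h0
    · intro h ht
      rw [if_neg]
      rintro ⟨h1, h2⟩
      exact absurd (hex h ht h1) (not_le.2 h2)

def Bookable (w cap : ℕ → ℝ) (u Λ a x : ℝ) : Prop :=
  ∀ h, w (h + 1) ≤ u * x → (1 - u) * x < w h → Λ * Real.log (w h / w (h + 1)) + 2 * a ≤ cap h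

def Capped (w cap : ℕ → ℝ) (J : MS) : Prop := ∀ h, lenI (w (h + 1)) (w h) J ≤ cap h

theorem book {w cap : ℕ → ℝ} {u Λ Mu a x θ : ℝ} {J : MS} (hw : StrictAnti w)
    (hw0 : ∀ h, 0 < w h) (hlim : ∀ x, 0 < x → ∃ H, w H ≤ x) (hu : 1 / 2 ≤ u) (hu1 : u < 1)
    (hΛ : 0 < Λ) (hMu : Mu < Λ * Real.log (2 * u)) (hJ : WF θ J) (hc : Capped w cap J)
    (hl : len J ≤ Mu) (hx : 0 < x) (hxa : x ≤ a) (hb : Bookable w cap u Λ a x)
    (hθ : u * x < θ) :
    ∃ J', Step ({(a, x)} + J) J' ∧ WF θ J' ∧ Capped w cap J' ∧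
      len J' + thin J' = len J + thin J + 2 * a + x := by
  obtain ⟨H, hH⟩ := hlim ((1 - u) * x) (by nlinarith)
  classical
  let t := (range H).filter fun h => w (h + 1) ≤ u * x ∧ (1 - u) * x < w h ∧
    cap h < lenI (w (h + 1)) (w h) J + 2 * a
  have hlt : ∀ h, w (h + 1) < w h := fun h => hw (Nat.lt_succ_self h)
  obtain ⟨z, hz1, hz2, hz⟩ := exists_uncovered t
    (fun h => if x < w h + w (h + 1) then w (h + 1) else x - w h)
    (fun h => if x < w h + w (h + 1) then w h else x - w (h + 1)) (x / 2) (u * x) (by linarith)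
    (fun h _ => by
      have := hw0 (h + 1); have := hlt h
      split_ifs <;> constructor <;> linarith)
    (by
      have e : u * x / (x / 2) = 2 * u := by field_simp
      rw [e]
      have h1 : ∑ h ∈ t, Real.log ((if x < w h + w (h + 1) then w h else x - w (h + 1)) /
          (if x < w h + w (h + 1) then w (h + 1) else x - w h)) ≤
          ∑ h ∈ t, Real.log (w h / w (h + 1)) := by
        refine Finset.sum_le_sum fun h _ => ?_
        have a1 := hw0 (h + 1); have a2 := hlt h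
        split_ifs with h2
        · exact le_rfl
        · refine Real.log_le_log (div_pos (by linarith) (by linarith)) ?_
          rw [div_le_div_iff₀ (by linarith) a1]
          nlinarith
      have h2 : Λ * ∑ h ∈ t, Real.log (w h / w (h + 1)) ≤ ∑ h ∈ t, lenI (w (h + 1)) (w h) J := by
        rw [Finset.mul_sum]
        refine Finset.sum_le_sum fun h hh => ?_
        obtain ⟨_, b1, b2, b3⟩ := Finset.mem_filter.1 hh
        have := hb h b1 b2
        linarith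
      have h3 := sum_lenI_le hw t hJ
      have h4 : Λ * ∑ h ∈ t, Real.log (w h / w (h + 1)) < Λ * Real.log (2 * u) := by linarith
      exact h1.trans_lt (lt_of_mul_lt_mul_left h4 hΛ.le))
    (by nlinarith)
  have hz3 : (1 - u) * x ≤ x - z := by linarith
  have hz4 : 0 < (1 - u) * x := by nlinarith
  refine ⟨(a, z) ::ₘ (a, x - z) ::ₘ J, ?_, ?_, ?_, ?_⟩
  · have := (step_cutY (L := a) (y := x) (h := z) (by linarith) (by linarith)).add_right J
    rwa [add_assoc, Multiset.singleton_add, Multiset.singleton_add] at this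
  · exact WF.cons ⟨by simp only; linarith, by simp only; linarith, by simp only; linarith⟩
      (WF.cons ⟨by simp only; linarith, by simp only; linarith, by simp only; linarith⟩ hJ)
  · intro h
    have h0 := hc h
    have a1 := hw0 (h + 1); have a2 := hlt h
    by_cases hin : (w (h + 1) ≤ z ∧ z < w h) ∨ (w (h + 1) ≤ x - z ∧ x - z < w h)
    · have b1 : w (h + 1) ≤ u * x := by rcases hin with h1 | h1 <;> linarith [h1.1]
      have b2 : (1 - u) * x < w h := by rcases hin with h1 | h1 <;> linarith [h1.2]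
      have b3 : h < H := by
        by_contra hh
        have := hw.antitone (not_lt.1 hh)
        linarith
      have b4 : ¬ cap h < lenI (w (h + 1)) (w h) J + 2 * a := by
        intro hh
        apply hz h (Finset.mem_filter.2 ⟨Finset.mem_range.2 b3, b1, b2, hh⟩)
        split_ifs with h5
        · rcases hin with h1 | h1 <;> constructor <;> linarith [h1.1, h1.2]
        · rcases hin with h1 | h1 <;> constructor <;> linarith [h1.1, h1.2]
      simp only [lenI, sm_cons] at b4 ⊢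
      split_ifs <;> linarith
    · push Not at hin
      simp only [lenI, sm_cons] at h0 ⊢
      rw [if_neg (fun h1 => absurd (hin.1 h1.1) (not_le.2 h1.2)),
        if_neg (fun h1 => absurd (hin.2 h1.1) (not_le.2 h1.2))]
      linarith
  · simp only [len, thin, sm_cons]; ring

theorem step_place {L y : ℝ} {j : ℕ} (hj : 0 < j) (h1 : 1 / (j : ℝ) ≤ y)
    (h2 : 1 / ((j : ℝ) + 1) ≤ L) :
    Step {(L, y)} ({item j} + {(1 / ((j : ℝ) + 1), y - 1 / (j : ℝ))} +
      {(L - 1 / ((j : ℝ) + 1), y)}) :=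
  (step_cut (by positivity) h2).trans
    (((step_cutY (by positivity) h1).trans ((step_rot _ _).add_right _)).add_right _)

end Pool.Agent.MP_f14165_co

end

section

set_option autoImplicit false

namespace Pool.Agent.MP_f14165_co
open Finset

/-- the data of one batch -/
structure BD where
  (w cap : ℕ → ℝ)
  (u Λ Mu r m0 w0 w1 w2 σ τ e d κ E AR ArO Φ0 l1 l2 : ℝ)
  (b N m a B : ℕ)
  (S0 : MS)

namespace BD
variable (P : BD)

noncomputable def its (k : ℕ) : MS := ∑ i ∈ Ico k P.m, ({item (P.b + i * P.N)} : MS)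
noncomputable def pl (k : ℕ) : ℝ := ∑ i ∈ Ico k P.m, 1 / (((P.b + i * P.N : ℕ) : ℝ) + 1)
noncomputable def gr (k : ℕ) : ℝ := ∑ i ∈ Ico k P.m, (P.w0 - 1 / ((P.b + i * P.N : ℕ) : ℝ))

structure OK : Prop where
  hw : StrictAnti P.w
  hw0 : ∀ h, 0 < P.w h
  hlim : ∀ x, 0 < x → ∃ H, P.w H ≤ x
  hu : 1 / 2 ≤ P.u
  hu1 : P.u < 1
  hΛ : 0 < P.Λ
  hMu : P.Mu < P.Λ * Real.log (2 * P.u)
  h21 : P.w2 < P.w1
  h20 : P.w2 ≤ P.w0
  hN : 0 < P.N
  ha : 0 < P.a
  hab : P.a ≤ P.b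
  hB : P.b + P.m * P.N ≤ P.B
  hσ0 : 0 < P.σ
  hσ : P.σ ≤ P.w2 - 1 / (P.a : ℝ)
  hτ : P.w0 - 1 / (P.B : ℝ) ≤ P.τ
  hτB : P.τ ≤ 1 / (P.B : ℝ)
  he : 1 / (P.a : ℝ) ≤ P.e
  hd : (P.B : ℝ) / P.N ≤ P.d
  hκ0 : 0 ≤ P.κ
  hκ : P.τ ≤ P.κ * P.w2
  hbook : ∀ h, P.w (h + 1) ≤ P.u * P.w0 → (1 - P.u) * P.σ < P.w h →
    P.Λ * Real.log (P.w h / P.w (h + 1)) + 2 * P.w0 ≤ P.cap h
  huw : P.u * P.w0 ≤ P.w2
  hr : 2 ≤ P.r
  hE : ∀ x, 0 ≤ x → x ≤ P.m0 → x ^ 2 ≤ 1 / (P.a : ℝ) → x ≤ P.E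
  hup : area P.S0 + P.ArO ≤ 1 / (P.a : ℝ)
  hlo : 1 / (P.B : ℝ) ≤ area P.S0 + P.ArO - area (P.its 0)
  hO0 : 0 ≤ P.ArO
  hO : P.ArO ≤ P.AR
  hmain : 4 * P.r * P.w2 ^ 2 ≤ 1 / (P.B : ℝ) - P.AR - P.w2 * P.Mu
  hΦ : P.Φ0 + 3 * P.gr 0 ≤ P.Mu

structure EOK (k : ℕ) (Y : ℝ) (E : MS) : Prop where
  hY1 : P.w2 ≤ Y
  hY2 : Y ≤ P.w0
  hE : ∀ s ∈ E, P.w2 ≤ s.2 ∧ s.2 ≤ Y ∧ s.2 ≤ s.1
  h1 : lenGe P.w1 E ≤ max 0 (P.l1 - P.pl k)
  h2 : len E ≤ max P.E (P.l2 - P.pl k)

structure Mid (k : ℕ) (M1 M2 Y : ℝ) (ER EI Ch J : MS) : Prop where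
  step : Step P.S0 (P.its k + {(M1, M2)} + (ER + EI) + Ch + J)
  eok : P.EOK k Y (ER + EI)
  chw : WF P.w2 Ch
  chl : ∀ s ∈ Ch, s.1 ≤ P.w2
  chain : Chain (Y - 1 / ((P.b + k * P.N : ℕ) : ℝ)) P.τ P.e P.d Ch
  jw : WF P.w2 J
  jc : Capped P.w P.cap J
  pot : 3 * (M1 + M2) + 3 * thin ER + (len EI + (1 + P.κ) * thin EI) + 3 * thin Ch +
    (len J + thin J) ≤ P.Φ0 + 3 * P.gr k
  m1 : 0 < M1
  m2 : 0 < M2
  r1 : M1 ≤ P.r * M2
  r2 : M2 ≤ P.r * M1
  mm : min M1 M2 ≤ P.m0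

variable {P}

theorem OK.w2pos (H : P.OK) : 0 < P.w2 := by
  have := H.hσ; have := H.hσ0
  have : (0 : ℝ) < 1 / (P.a : ℝ) := by have := H.ha; positivity
  linarith

theorem OK.inv_le (H : P.OK) (i : ℕ) : 1 / ((P.b + i * P.N : ℕ) : ℝ) ≤ 1 / (P.a : ℝ) := by
  have h1 : (0 : ℝ) < P.a := by exact_mod_cast H.ha
  refine one_div_le_one_div_of_le h1 ?_
  have : P.a ≤ P.b + i * P.N := H.hab.trans (Nat.le_add_right _ _)
  exact_mod_cast this

theorem OK.le_inv (H : P.OK) {i : ℕ} (hi : i ≤ P.m) :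
    1 / (P.B : ℝ) ≤ 1 / ((P.b + i * P.N : ℕ) : ℝ) := by
  have h0 : 0 < P.b + i * P.N := lt_of_lt_of_le H.ha (H.hab.trans (Nat.le_add_right _ _))
  refine one_div_le_one_div_of_le (by exact_mod_cast h0) ?_
  have : P.b + i * P.N ≤ P.B := le_trans (Nat.add_le_add_left (Nat.mul_le_mul_right _ hi) _) H.hB
  exact_mod_cast this

theorem OK.gr_le (H : P.OK) (k : ℕ) : P.gr k ≤ P.gr 0 := by
  refine Finset.sum_le_sum_of_subset_of_nonneg (Finset.Ico_subset_Ico (Nat.zero_le _) le_rfl) ?_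
  intro i _ _
  have := H.inv_le i; have := H.hσ; have := H.hσ0; have := H.h20
  linarith

theorem area_item (j : ℕ) : 0 ≤ area {item j} := by
  simp only [area_single, item]; positivity

theorem OK.its_le (k : ℕ) : 0 ≤ area (P.its k) ∧ area (P.its k) ≤ area (P.its 0) := by
  simp only [its, area_sum]
  exact ⟨Finset.sum_nonneg fun i _ => area_item _,
    Finset.sum_le_sum_of_subset_of_nonneg (Finset.Ico_subset_Ico (Nat.zero_le _) le_rfl)
      fun i _ _ => area_item _⟩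

theorem Mid.swap {k : ℕ} {M1 M2 Y : ℝ} {ER EI Ch J : MS} (h : P.Mid k M1 M2 Y ER EI Ch J) :
    P.Mid k M2 M1 Y ER EI Ch J :=
  { h with
    step := h.step.trans
      (((((step_rot M1 M2).add_left _).add_right _).add_right _).add_right _)
    pot := by have := h.pot; linarith
    m1 := h.m2
    m2 := h.m1
    r1 := h.r2
    r2 := h.r1
    mm := by rw [min_comm]; exact h.mm }

theorem area_nonneg_wf {t : ℝ} {M : MS} (h : WF t M) : 0 ≤ area M :=
  sm_nonneg fun s hs => by have := h s hs; nlinarith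

theorem Mid.fill (H : P.OK) {k : ℕ} {M1 M2 Y : ℝ} {Ch J : MS}
    (h : P.Mid k M1 M2 Y 0 0 Ch J) (hM : M2 ≤ M1) :
    P.Mid k (M1 - P.w2) M2 Y {(M2, P.w2)} 0 Ch J := by
  have hw2 := H.w2pos
  have ha := h.step.2
  simp only [area_add, area_single, area_zero] at ha
  have hp := h.pot
  simp only [thin, len, sm_zero] at hp
  have c1 : area Ch ≤ P.w2 * thin Ch := by
    rw [area_eq_sm, thin, ← sm_mul]
    exact sm_le fun s hs => by have := h.chw s hs; have := h.chl s hs; nlinarith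
  have c2 : area J ≤ P.w2 * len J := by
    rw [area_eq_sm, len, ← sm_mul]
    exact sm_le fun s hs => by have := h.jw s hs; nlinarith
  have c3 := thin_nonneg h.chw
  have c4 := thin_nonneg h.jw
  have c5 := H.gr_le k
  have c6 := H.hΦ
  have c7 := h.m1
  have c8 := h.m2
  have c9 : thin Ch + len J ≤ P.Mu := by simp only [thin, len] at *; linarith
  have c10 := OK.its_le (P := P) k
  have c11 : 4 * P.r * P.w2 ^ 2 ≤ M1 * M2 := by
    have := H.hmain; have := H.hlo; have := H.hO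
    nlinarith
  have c12 : M1 * M2 ≤ 1 / (P.a : ℝ) := by
    have := H.hup; have := H.hO0
    have := area_nonneg_wf h.chw; have := area_nonneg_wf h.jw
    linarith
  have hr := H.hr
  have c13 : 2 * P.w2 ≤ M2 := by
    have := h.r1
    have h4 : P.r * (2 * P.w2) ^ 2 ≤ P.r * M2 ^ 2 := by nlinarith
    have h5 := le_of_mul_le_mul_left h4 (by linarith)
    exact le_of_sq_le_sq h5 c8.le
  have c14 : M2 ≤ P.E := H.hE M2 c8.le (by have := h.mm; rwa [min_eq_right hM] at this)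
    (by nlinarith)
  refine { h with step := ?_, eok := ?_, pot := ?_, m1 := by linarith, r1 := ?_, r2 := ?_,
                  mm := ?_ }
  · refine h.step.trans (Step.add_right (Step.add_right ?_ _) _)
    simp only [add_zero]
    rw [add_assoc]
    refine Step.add_left ?_ _
    refine (step_cut hw2.le (by linarith)).trans ?_
    rw [add_comm]
    exact (step_rot _ _).add_left _
  · refine ⟨h.eok.hY1, h.eok.hY2, ?_, ?_, ?_⟩
    · intro s hs
      simp only [add_zero, Multiset.mem_singleton] at hs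
      subst hs
      exact ⟨le_rfl, h.eok.hY1, by simp only; linarith⟩
    · simp only [add_zero, lenGe, sm_single]
      rw [if_neg (not_le.2 H.h21)]
      exact le_max_left _ _
    · simp only [add_zero, len, sm_single]
      exact c14.trans (le_max_left _ _)
  · simp only [thin, len, sm_zero, sm_single]; linarith
  · have := h.r1; linarith
  · nlinarith
  · exact (min_le_right _ _).trans (by have := h.mm; rwa [min_eq_right hM] at this)

theorem pl_succ {k : ℕ} (hk : k < P.m) :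
    P.pl k = 1 / (((P.b + k * P.N : ℕ) : ℝ) + 1) + P.pl (k + 1) := by
  simp only [pl]; rw [Finset.sum_eq_sum_Ico_succ_bot hk]
theorem gr_succ {k : ℕ} (hk : k < P.m) :
    P.gr k = (P.w0 - 1 / ((P.b + k * P.N : ℕ) : ℝ)) + P.gr (k + 1) := by
  simp only [gr]; rw [Finset.sum_eq_sum_Ico_succ_bot hk]
theorem its_succ {k : ℕ} (hk : k < P.m) :
    P.its k = {item (P.b + k * P.N)} + P.its (k + 1) := by
  simp only [its]; rw [Finset.sum_eq_sum_Ico_succ_bot hk]

theorem EOK.next {k : ℕ} (hk : k < P.m) {Y L y L' : ℝ} {E E' : MS}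
    (h : P.EOK (k + 1) Y ((L, y) ::ₘ E)) (hmax : ∀ s ∈ E, s.2 ≤ y)
    (hL' : L' = L - 1 / (((P.b + k * P.N : ℕ) : ℝ) + 1)) (hL0 : 0 ≤ L')
    (hE' : E' = E ∨ (y ≤ L' ∧ E' = (L', y) ::ₘ E)) : P.EOK k y E' := by
  have h0 := h.hE (L, y) (Multiset.mem_cons_self _ _)
  simp only at h0
  have hδ : 0 ≤ 1 / (((P.b + k * P.N : ℕ) : ℝ) + 1) := by positivity
  have hp := pl_succ (P := P) hk
  have hE : ∀ s ∈ E', P.w2 ≤ s.2 ∧ s.2 ≤ y ∧ s.2 ≤ s.1 := by
    intro s hs
    have : s ∈ E ∨ (s = (L', y) ∧ y ≤ L') := by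
      rcases hE' with rfl | ⟨h1, rfl⟩
      · exact Or.inl hs
      · rcases Multiset.mem_cons.1 hs with h2 | h2
        · exact Or.inr ⟨h2, h1⟩
        · exact Or.inl h2
    rcases this with h1 | ⟨rfl, h1⟩
    · have := h.hE s (Multiset.mem_cons_of_mem h1)
      exact ⟨this.1, hmax s h1, this.2.2⟩
    · exact ⟨h0.1, le_rfl, h1⟩
  refine ⟨h0.1, h0.2.1.trans h.hY2, hE, ?_, ?_⟩
  · by_cases hy : P.w1 ≤ y
    · have h1 := h.h1
      have h2 : lenGe P.w1 E' ≤ lenGe P.w1 ((L, y) ::ₘ E) -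
          1 / (((P.b + k * P.N : ℕ) : ℝ) + 1) := by
        rcases hE' with rfl | ⟨_, rfl⟩ <;> simp only [lenGe, sm_cons, if_pos hy] <;> linarith
      rcases le_max_iff.1 h1 with h3 | h3
      · exact le_max_of_le_left (by linarith)
      · exact le_max_of_le_right (by linarith)
    · refine le_max_of_le_left (le_of_eq (sm_eq_zero fun s hs => if_neg ?_))
      have := (hE s hs).2.1
      intro h3; exact hy (h3.trans this)
  · have h1 := h.h2
    have h2 : len E' ≤ len ((L, y) ::ₘ E) - 1 / (((P.b + k * P.N : ℕ) : ℝ) + 1) := by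
      rcases hE' with rfl | ⟨_, rfl⟩ <;> simp only [len, sm_cons] <;> linarith
    rcases le_max_iff.1 h1 with h3 | h3
    · exact le_max_of_le_left (by linarith)
    · exact le_max_of_le_right (by linarith)

theorem Mid.lenJ (H : P.OK) {k : ℕ} {M1 M2 Y : ℝ} {ER EI Ch J : MS}
    (h : P.Mid k M1 M2 Y ER EI Ch J) : len J ≤ P.Mu := by
  have hw2 := H.w2pos
  have a1 : 0 ≤ thin ER := sm_nonneg fun s hs => by
    have := h.eok.hE s (Multiset.mem_add.2 (Or.inl hs)); linarith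
  have a2 : 0 ≤ thin EI := sm_nonneg fun s hs => by
    have := h.eok.hE s (Multiset.mem_add.2 (Or.inr hs)); linarith
  have a3 : 0 ≤ len EI := sm_nonneg fun s hs => by
    have := h.eok.hE s (Multiset.mem_add.2 (Or.inr hs)); linarith
  have a4 := thin_nonneg h.chw
  have a5 := thin_nonneg h.jw
  have a6 := h.pot
  have a7 := H.gr_le k
  have a8 := H.hΦ
  have a9 := H.hκ0
  have := h.m1; have := h.m2
  nlinarith

/-- placing one item into the hole `(L, y)` -/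
theorem Mid.place (H : P.OK) {k : ℕ} (hk : k < P.m) {M1 M2 Y L y : ℝ} {ER EI Ch J E : MS}
    (h : P.Mid (k + 1) M1 M2 Y ER EI Ch J) (hE : ER + EI = (L, y) ::ₘ E)
    (hmax : ∀ s ∈ E, s.2 ≤ y) :
    ∃ L' Ch', WF P.w2 Ch' ∧ (∀ s ∈ Ch', s.1 ≤ P.w2) ∧
      Chain (y - 1 / ((P.b + k * P.N : ℕ) : ℝ)) P.τ P.e P.d Ch' ∧
      thin Ch' ≤ thin Ch + (P.w0 - 1 / ((P.b + k * P.N : ℕ) : ℝ)) ∧ L' ≤ L ∧
      ((y ≤ L' ∧ P.EOK k y ((L', y) ::ₘ E) ∧
          Step P.S0 (P.its k + {(M1, M2)} + ((L', y) ::ₘ E) + Ch' + J)) ∨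
       (∃ J', P.EOK k y E ∧ Step P.S0 (P.its k + {(M1, M2)} + E + Ch' + J') ∧ WF P.w2 J' ∧
          Capped P.w P.cap J' ∧ len J' + thin J' ≤ len J + thin J + 3 * y ∧
          len J' + thin J' ≤ len J + thin J + (L + (1 + P.κ) * y))) := by
  have eok := h.eok
  rw [hE] at eok
  have h0 := eok.hE (L, y) (Multiset.mem_cons_self _ _)
  simp only at h0
  obtain ⟨y1, y2, y3⟩ := h0
  have y4 := eok.hY2
  set j := P.b + k * P.N with hj
  have hj0 : 0 < j := lt_of_lt_of_le H.ha (H.hab.trans (Nat.le_add_right _ _))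
  have hjr : (0 : ℝ) < j := by exact_mod_cast hj0
  have hN : (1 : ℝ) ≤ P.N := by exact_mod_cast H.hN
  have i1 : 1 / (j : ℝ) ≤ 1 / (P.a : ℝ) := H.inv_le k
  have i2 : 1 / ((j : ℝ) + 1) ≤ 1 / (j : ℝ) := one_div_le_one_div_of_le hjr (by linarith)
  have ej : ((P.b + (k + 1) * P.N : ℕ) : ℝ) = (j : ℝ) + P.N := by rw [hj]; push_cast; ring
  have hjB : (j : ℝ) + P.N ≤ P.B := by
    rw [← ej]
    have : P.b + (k + 1) * P.N ≤ P.B :=
      le_trans (Nat.add_le_add_left (Nat.mul_le_mul_right _ hk) _) H.hB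
    exact_mod_cast this
  have i3 : 1 / (P.B : ℝ) ≤ 1 / ((j : ℝ) + 1) :=
    one_div_le_one_div_of_le (by linarith) (by linarith)
  have i4 : 1 / ((j : ℝ) + P.N) ≤ 1 / (j : ℝ) := one_div_le_one_div_of_le hjr (by linarith)
  have s0 := H.hσ0; have s1 := H.hσ; have t1 := H.hτ; have t2 := H.hτB
  have hd0 : 0 ≤ P.d := le_trans (by positivity) H.hd
  have he0 : 0 ≤ P.e := le_trans (by positivity) H.he
  have hw2 := H.w2pos
  have st : Step P.S0 (P.its k + {(M1, M2)} + ((L - 1 / ((j : ℝ) + 1), y) ::ₘ E) +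
      ((1 / ((j : ℝ) + 1), y - 1 / (j : ℝ)) ::ₘ Ch) + J) := by
    refine h.step.trans ?_
    rw [hE, its_succ hk, ← Multiset.singleton_add]
    have := (step_place (L := L) (y := y) hj0 (by linarith) (by linarith)).add_right
      (P.its (k + 1) + {(M1, M2)} + E + Ch + J)
    refine (Step.of_eq ?_).trans (this.trans (Step.of_eq ?_))
    · abel
    · simp only [← Multiset.singleton_add]; abel
  refine ⟨L - 1 / ((j : ℝ) + 1), (1 / ((j : ℝ) + 1), y - 1 / (j : ℝ)) ::ₘ Ch, ?_, ?_, ?_, ?_,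
    by have : 0 ≤ 1 / ((j : ℝ) + 1) := by positivity
       linarith, ?_⟩
  · exact WF.cons ⟨by simp only; linarith, by simp only; linarith, by simp only; linarith⟩ h.chw
  · intro s hs
    rcases Multiset.mem_cons.1 hs with rfl | hs
    · simp only; linarith
    · exact h.chl s hs
  · have hc := h.chain
    rw [ej] at hc
    refine hc.cons (by linarith) (by linarith) he0 hd0 (by have := H.he; linarith) ?_
    have g1 : 1 / (j : ℝ) - 1 / ((j : ℝ) + P.N) = P.N / (j * (j + P.N)) := by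
      field_simp; ring
    have g2 : 1 / (j : ℝ) ≤ P.d * (1 / (j : ℝ) - 1 / ((j : ℝ) + P.N)) := by
      rw [g1]
      have g3 : ((j : ℝ) + P.N) / P.N ≤ P.d :=
        le_trans (div_le_div_of_nonneg_right hjB (by linarith)) H.hd
      calc 1 / (j : ℝ) = ((j : ℝ) + P.N) / P.N * (P.N / (j * (j + P.N))) := by field_simp
        _ ≤ _ := mul_le_mul_of_nonneg_right g3 (by positivity)
    have g4 : P.d * (1 / (j : ℝ) - 1 / ((j : ℝ) + P.N)) ≤
        P.d * (Y - 1 / ((j : ℝ) + P.N) - (y - 1 / (j : ℝ))) :=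
      mul_le_mul_of_nonneg_left (by linarith) hd0
    linarith
  · simp only [thin, sm_cons]; linarith
  · by_cases hL : y ≤ L - 1 / ((j : ℝ) + 1)
    · exact Or.inl ⟨hL, eok.next hk hmax rfl (by linarith) (Or.inr ⟨hL, rfl⟩), st⟩
    · right
      push Not at hL
      have hx : P.σ ≤ L - 1 / ((j : ℝ) + 1) := by linarith
      have hu := H.hu; have hu1 := H.hu1
      have hux : P.u * (L - 1 / ((j : ℝ) + 1)) < P.u * P.w0 :=
        mul_lt_mul_of_pos_left (by linarith) (by linarith)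
      obtain ⟨J', b1, b2, b3, b4⟩ := book (a := y) (x := L - 1 / ((j : ℝ) + 1)) H.hw H.hw0 H.hlim
        H.hu H.hu1 H.hΛ H.hMu h.jw h.jc (h.lenJ H) (by linarith) hL.le
        (fun g g1 g2 => by
          have := H.hbook g (by linarith) (by nlinarith)
          linarith)
        (hux.trans_le H.huw)
      refine ⟨J', eok.next hk hmax rfl (by linarith) (Or.inl rfl), ?_, b2, b3, by linarith, ?_⟩
      · refine st.trans ?_
        have := ((step_rot (L - 1 / ((j : ℝ) + 1)) y).add_right J).trans b1 |>.add_left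
          (P.its k + {(M1, M2)} + E + ((1 / ((j : ℝ) + 1), y - 1 / (j : ℝ)) ::ₘ Ch))
        refine (Step.of_eq ?_).trans this
        simp only [← Multiset.singleton_add]; abel
      · have := H.hκ
        have : P.κ * P.w2 ≤ P.κ * y := mul_le_mul_of_nonneg_left y1 H.hκ0
        linarith

theorem Mid.next_ne (H : P.OK) {k : ℕ} (hk : k < P.m) {M1 M2 Y : ℝ} {ER EI Ch J : MS}
    (h : P.Mid (k + 1) M1 M2 Y ER EI Ch J) (hne : ER + EI ≠ 0) :
    ∃ Y' ER' EI' Ch' J', P.Mid k M1 M2 Y' ER' EI' Ch' J' := by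
  classical
  obtain ⟨⟨L, y⟩, hs, hmax⟩ := Multiset.exists_max_image (s := ER + EI) Prod.snd hne
  have hg := gr_succ (P := P) hk
  have hp := h.pot
  rcases Multiset.mem_add.1 hs with hs | hs
  · obtain ⟨R, rfl⟩ := Multiset.exists_cons_of_mem hs
    have hE : (L, y) ::ₘ R + EI = (L, y) ::ₘ (R + EI) := Multiset.cons_add _ _ _
    obtain ⟨L', Ch', c1, c2, c3, c4, c5, ⟨d1, d2, d3⟩ | ⟨J', d1, d2, d3, d4, d5, d6⟩⟩ :=
      h.place H hk hE (fun s hs => hmax s (hE ▸ Multiset.mem_cons_of_mem hs))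
    · refine ⟨y, (L', y) ::ₘ R, EI, Ch', J, by rwa [Multiset.cons_add], by rwa [Multiset.cons_add],
        c1, c2, c3, h.jw, h.jc, ?_, h.m1, h.m2, h.r1, h.r2, h.mm⟩
      simp only [thin, len, sm_cons] at *; linarith
    · refine ⟨y, R, EI, Ch', J', d2, d1, c1, c2, c3, d3, d4, ?_, h.m1, h.m2, h.r1, h.r2, h.mm⟩
      simp only [thin, len, sm_cons] at *; linarith
  · obtain ⟨R, rfl⟩ := Multiset.exists_cons_of_mem hs
    have hE : ER + (L, y) ::ₘ R = (L, y) ::ₘ (ER + R) := Multiset.add_cons _ _ _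
    obtain ⟨L', Ch', c1, c2, c3, c4, c5, ⟨d1, d2, d3⟩ | ⟨J', d1, d2, d3, d4, d5, d6⟩⟩ :=
      h.place H hk hE (fun s hs => hmax s (hE ▸ Multiset.mem_cons_of_mem hs))
    · refine ⟨y, ER, (L', y) ::ₘ R, Ch', J, by rwa [Multiset.add_cons], by rwa [Multiset.add_cons],
        c1, c2, c3, h.jw, h.jc, ?_, h.m1, h.m2, h.r1, h.r2, h.mm⟩
      simp only [thin, len, sm_cons] at *; linarith
    · refine ⟨y, ER, R, Ch', J', d2, d1, c1, c2, c3, d3, d4, ?_, h.m1, h.m2, h.r1, h.r2, h.mm⟩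
      simp only [thin, len, sm_cons] at *; linarith

theorem Mid.next (H : P.OK) {k : ℕ} (hk : k < P.m) {M1 M2 Y : ℝ} {ER EI Ch J : MS}
    (h : P.Mid (k + 1) M1 M2 Y ER EI Ch J) :
    ∃ M1' M2' Y' ER' EI' Ch' J', P.Mid k M1' M2' Y' ER' EI' Ch' J' := by
  by_cases hne : ER + EI = 0
  · obtain ⟨rfl, rfl⟩ := add_eq_zero.1 hne
    rcases le_total M2 M1 with hM | hM
    · obtain ⟨_, _, _, _, _, h'⟩ := (h.fill H hM).next_ne H hk (by simp)
      exact ⟨_, _, _, _, _, _, _, h'⟩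
    · obtain ⟨_, _, _, _, _, h'⟩ := (h.swap.fill H hM).next_ne H hk (by simp)
      exact ⟨_, _, _, _, _, _, _, h'⟩
  · obtain ⟨_, _, _, _, _, h'⟩ := h.next_ne H hk hne
    exact ⟨_, _, _, _, _, _, _, h'⟩

theorem Mid.run (H : P.OK) : ∀ {k : ℕ}, k ≤ P.m → ∀ {M1 M2 Y : ℝ} {ER EI Ch J : MS},
    P.Mid k M1 M2 Y ER EI Ch J →
    ∃ M1' M2' Y' ER' EI' Ch' J', P.Mid 0 M1' M2' Y' ER' EI' Ch' J' := by
  intro k
  induction k with
  | zero => intro _ _ _ _ _ _ _ _ h; exact ⟨_, _, _, _, _, _, _, h⟩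
  | succ k ih =>
    intro hk _ _ _ _ _ _ _ h
    obtain ⟨_, _, _, _, _, _, _, h'⟩ := h.next H hk
    exact ih (Nat.le_of_succ_le hk) h'

end BD
end Pool.Agent.MP_f14165_co

end

section

set_option autoImplicit false

namespace Pool.Agent.MP_f14165_co
open Finset

noncomputable def thinGe (t : ℝ) : MS → ℝ := sm fun s => if t ≤ s.2 then s.2 else 0

noncomputable def hiP (t : ℝ) (M : MS) : MS := M.filter fun s => t ≤ s.2
noncomputable def loP (t : ℝ) (M : MS) : MS := M.filter fun s => ¬ t ≤ s.2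

theorem hi_add_lo (t : ℝ) (M : MS) : hiP t M + loP t M = M := Multiset.filter_add_not _ _

theorem mem_hiP {t : ℝ} {M : MS} {s : ℝ × ℝ} : s ∈ hiP t M ↔ s ∈ M ∧ t ≤ s.2 :=
  Multiset.mem_filter
theorem mem_loP {t : ℝ} {M : MS} {s : ℝ × ℝ} : s ∈ loP t M ↔ s ∈ M ∧ s.2 < t := by
  rw [loP, Multiset.mem_filter, not_le]

theorem sm_split (f : ℝ × ℝ → ℝ) (t : ℝ) (M : MS) : sm f M = sm f (hiP t M) + sm f (loP t M) := by
  rw [← sm_add, hi_add_lo]

theorem WF.lo {t t' : ℝ} {M : MS} (h : WF t M) : WF t' (loP t' M) := fun s hs =>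
  ⟨(h s (mem_loP.1 hs).1).1, (h s (mem_loP.1 hs).1).2.1, (mem_loP.1 hs).2⟩

theorem lenI_hi {lo hi : ℝ} {M : MS} (h : ∀ s ∈ M, hi ≤ s.2) : lenI lo hi M = 0 :=
  sm_eq_zero fun s hs => if_neg fun h1 => absurd (h s hs) (not_le.2 h1.2)

theorem lenI_lo {lo hi : ℝ} {M : MS} (h : ∀ s ∈ M, s.2 < lo) : lenI lo hi M = 0 :=
  sm_eq_zero fun s hs => if_neg fun h1 => absurd (h s hs) (not_lt.2 h1.1)

theorem lenGe_lo {t : ℝ} {M : MS} (h : ∀ s ∈ M, s.2 < t) : lenGe t M = 0 :=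
  sm_eq_zero fun s hs => if_neg (not_le.2 (h s hs))

theorem thinGe_lo {t : ℝ} {M : MS} (h : ∀ s ∈ M, s.2 < t) : thinGe t M = 0 :=
  sm_eq_zero fun s hs => if_neg (not_le.2 (h s hs))

theorem lenGe_hi {t : ℝ} {M : MS} (h : ∀ s ∈ M, t ≤ s.2) : lenGe t M = len M :=
  sm_congr fun s hs => if_pos (h s hs)

theorem thinGe_hi {t : ℝ} {M : MS} (h : ∀ s ∈ M, t ≤ s.2) : thinGe t M = thin M :=
  sm_congr fun s hs => if_pos (h s hs)

theorem lenI_self (t : ℝ) (M : MS) : lenI t t M = 0 :=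
  sm_eq_zero fun _ _ => if_neg fun h => absurd h.1 (not_le.2 h.2)

theorem lenI_split {a b c : ℝ} (h1 : a ≤ b) (h2 : b ≤ c) (M : MS) :
    lenI a c M = lenI a b M + lenI b c M := by
  simp only [lenI]
  rw [← sm_addf]
  refine sm_congr fun s _ => ?_
  by_cases h3 : s.2 < b
  · rw [if_neg (show ¬ (b ≤ s.2 ∧ s.2 < c) from fun h => absurd h.1 (not_le.2 h3)), add_zero]
    exact if_congr ⟨fun h => ⟨h.1, h3⟩, fun h => ⟨h.1, h3.trans_le h2⟩⟩ rfl rfl
  · rw [if_neg (show ¬ (a ≤ s.2 ∧ s.2 < b) from fun h => h3 h.2), zero_add]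
    exact if_congr ⟨fun h => ⟨not_lt.1 h3, h.2⟩, fun h => ⟨h1.trans h.1, h.2⟩⟩ rfl rfl

theorem lenGe_split {a b : ℝ} (h1 : a ≤ b) (M : MS) : lenGe a M = lenI a b M + lenGe b M := by
  simp only [lenI, lenGe]
  rw [← sm_addf]
  refine sm_congr fun s _ => ?_
  by_cases h3 : s.2 < b
  · rw [if_neg (not_le.2 h3), add_zero]
    exact if_congr ⟨fun h => ⟨h, h3⟩, fun h => h.1⟩ rfl rfl
  · rw [if_neg (show ¬ (a ≤ s.2 ∧ s.2 < b) from fun h => h3 h.2), zero_add,
      if_pos (not_lt.1 h3), if_pos (h1.trans (not_lt.1 h3))]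

theorem thinGe_le {a b t : ℝ} {M : MS} (h : WF t M) :
    thinGe a M ≤ lenI a b M + thinGe b M := by
  simp only [lenI, thinGe]
  rw [← sm_addf]
  refine sm_le fun s hs => ?_
  have := h s hs
  by_cases h3 : s.2 < b
  · rw [if_neg (not_le.2 h3), add_zero]
    by_cases h4 : a ≤ s.2
    · rw [if_pos h4, if_pos ⟨h4, h3⟩]; exact this.2.1
    · rw [if_neg h4, if_neg fun h => h4 h.1]
  · rw [if_neg (show ¬ (a ≤ s.2 ∧ s.2 < b) from fun h => h3 h.2), zero_add, if_pos (not_lt.1 h3)]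
    split_ifs
    · exact le_rfl
    · exact this.1.le

theorem lenI_lo_le {lo hi t t' : ℝ} {M : MS} (h : WF t M) :
    lenI lo hi (loP t' M) ≤ lenI lo hi M := by
  have h1 := sm_split (fun s => if lo ≤ s.2 ∧ s.2 < hi then s.1 else 0) t' M
  have h2 : 0 ≤ lenI lo hi (hiP t' M) :=
    lenI_nonneg (t := t) fun s hs => h s (mem_hiP.1 hs).1
  simp only [lenI] at *
  linarith

theorem tb_hi {p τ e d lo hi hi' : ℝ} (hp : p ≤ τ) (h1 : τ < hi) (h2 : τ < hi') :
    tb p τ e d lo hi = tb p τ e d lo hi' := by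
  unfold tb
  rw [min_eq_right h1.le, min_eq_right h2.le]
  exact if_congr ⟨fun h => ⟨hp.trans_lt h2, h.2⟩, fun h => ⟨hp.trans_lt h1, h.2⟩⟩ rfl rfl

theorem area_abel {w : ℕ → ℝ} (hw : StrictAnti w) (hw0 : ∀ h, 0 < w h)
    (hlim : ∀ x, 0 < x → ∃ H, w H ≤ x) {g : ℕ} {β : ℕ → ℝ} {AR : ℝ} {O : MS}
    (hO : WF (w g) O) (hβ : ∀ h, g ≤ h → lenGe (w h) O ≤ β h)
    (hA : ∀ H, g ≤ H → w g * β g + ∑ k ∈ Ico g H, w k * (β (k + 1) - β k) ≤ AR) :
    area O ≤ AR := by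
  have hex : ∃ H, g ≤ H ∧ ∀ s ∈ O, w H ≤ s.2 := by
    clear hβ hA
    induction O using Multiset.induction_on with
    | empty => exact ⟨g, le_rfl, by simp⟩
    | cons s O ih =>
      obtain ⟨H, h1, h2⟩ := ih fun t ht => hO t (Multiset.mem_cons_of_mem ht)
      obtain ⟨H', h3⟩ := hlim s.2 (hO s (Multiset.mem_cons_self _ _)).1
      refine ⟨max H H', h1.trans (le_max_left _ _), fun t ht => ?_⟩
      rcases Multiset.mem_cons.1 ht with rfl | ht
      · exact (hw.antitone (le_max_right _ _)).trans h3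
      · exact (hw.antitone (le_max_left _ _)).trans (h2 t ht)
  obtain ⟨H, hH, hHO⟩ := hex
  have pt : ∀ y, y < w g → ∀ H, g ≤ H → max y (w H) ≤
      w H + ∑ k ∈ Ico g H, (w k - w (k + 1)) * (if w (k + 1) ≤ y then 1 else 0) := by
    intro y hy H hH
    induction H, hH using Nat.le_induction with
    | base => simp [hy.le]
    | succ H hH ih =>
      rw [Finset.sum_Ico_succ_top hH]
      have h1 : w (H + 1) < w H := hw (Nat.lt_succ_self H)
      split_ifs with h2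
      · have : max y (w (H + 1)) ≤ max y (w H) := max_le_max le_rfl h1.le
        linarith
      · rw [max_eq_right (not_le.1 h2).le]
        have : 0 ≤ ∑ k ∈ Ico g H, (w k - w (k + 1)) * (if w (k + 1) ≤ y then 1 else 0) :=
          Finset.sum_nonneg fun k _ => mul_nonneg (sub_nonneg.2 (hw (Nat.lt_succ_self k)).le)
            (by split_ifs <;> norm_num)
        linarith
  have h1 : area O ≤ w H * lenGe (w H) O +
      ∑ k ∈ Ico g H, (w k - w (k + 1)) * lenGe (w (k + 1)) O := by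
    simp only [lenGe, ← sm_mul]
    rw [← sm_fsum, ← sm_addf, area_eq_sm]
    refine sm_le fun s hs => ?_
    have a1 := hO s hs
    have a2 := (le_max_left _ _).trans (pt s.2 a1.2.2 H hH)
    rw [if_pos (hHO s hs)]
    have a3 : ∑ k ∈ Ico g H, (w k - w (k + 1)) * (if w (k + 1) ≤ s.2 then s.1 else 0) =
        s.1 * ∑ k ∈ Ico g H, (w k - w (k + 1)) * (if w (k + 1) ≤ s.2 then 1 else 0) := by
      rw [Finset.mul_sum]
      refine Finset.sum_congr rfl fun k _ => ?_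
      split_ifs <;> ring
    rw [a3]
    have a4 : 0 ≤ s.1 := by linarith [a1.1, a1.2.1]
    nlinarith
  have h2 : w H * lenGe (w H) O + ∑ k ∈ Ico g H, (w k - w (k + 1)) * lenGe (w (k + 1)) O ≤
      w H * β H + ∑ k ∈ Ico g H, (w k - w (k + 1)) * β (k + 1) :=
    add_le_add (mul_le_mul_of_nonneg_left (hβ H hH) (hw0 H).le)
      (Finset.sum_le_sum fun k hk => mul_le_mul_of_nonneg_left
        (hβ _ (by have := (Finset.mem_Ico.1 hk).1; omega))
        (sub_nonneg.2 (hw (Nat.lt_succ_self k)).le))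
  have h3 : ∀ H, g ≤ H → w H * β H + ∑ k ∈ Ico g H, (w k - w (k + 1)) * β (k + 1) =
      w g * β g + ∑ k ∈ Ico g H, w k * (β (k + 1) - β k) := by
    intro H hH
    induction H, hH using Nat.le_induction with
    | base => simp
    | succ H hH ih => rw [Finset.sum_Ico_succ_top hH, Finset.sum_Ico_succ_top hH]; linarith
  have := hA H hH
  rw [← h3 H hH] at this
  linarith

/-- the data of the whole scheme -/
structure GD where
  (g0 N : ℕ)
  (w cap c E κ G σ τ e d AR : ℕ → ℝ)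
  (b m a B : ℕ → ℕ)
  (u Λ Mu Mu0 r m0 : ℝ)
  (Init : ℕ → ℕ → ℝ)
  (P0 : MS)

namespace GD
variable (P : GD)

noncomputable def its (g : ℕ) : MS := ∑ i ∈ Ico 0 (P.m g), ({item (P.b g + i * P.N)} : MS)
noncomputable def placed (g : ℕ) : MS := P.P0 + ∑ k ∈ Ico P.g0 g, P.its k
noncomputable def T (g : ℕ) (lo hi : ℝ) : ℝ := tb (P.σ g) (P.τ g) (P.e g) (P.d g) lo hi

structure OK : Prop where
  hw : StrictAnti P.w
  hw0 : ∀ h, 0 < P.w h
  hlim : ∀ x, 0 < x → ∃ H, P.w H ≤ x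
  hu : 1 / 2 ≤ P.u
  hu1 : P.u < 1
  hΛ : 0 < P.Λ
  hMu : P.Mu < P.Λ * Real.log (2 * P.u)
  hN : 0 < P.N
  hr : 2 ≤ P.r
  hcap : ∀ h, 0 ≤ P.cap h
  ha : ∀ g, P.g0 ≤ g → 0 < P.a g
  hab : ∀ g, P.g0 ≤ g → P.a g ≤ P.b g
  hB : ∀ g, P.g0 ≤ g → P.b g + P.m g * P.N ≤ P.B g
  hσ0 : ∀ g, P.g0 ≤ g → 0 < P.σ g
  hσ : ∀ g, P.g0 ≤ g → P.σ g ≤ P.w (g + 1) - 1 / (P.a g : ℝ)
  hτ : ∀ g, P.g0 ≤ g → P.w (g - 1) - 1 / (P.B g : ℝ) ≤ P.τ g
  hτB : ∀ g, P.g0 ≤ g → P.τ g ≤ 1 / (P.B g : ℝ)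
  he : ∀ g, P.g0 ≤ g → 1 / (P.a g : ℝ) ≤ P.e g
  hd : ∀ g, P.g0 ≤ g → (P.B g : ℝ) / P.N ≤ P.d g
  hκ0 : ∀ g, P.g0 ≤ g → 0 ≤ P.κ g
  hκ : ∀ g, P.g0 ≤ g → P.τ g ≤ P.κ g * P.w (g + 1)
  hκa : ∀ g, P.g0 ≤ g → P.κ (g + 1) ≤ P.κ g
  hbook : ∀ g, P.g0 ≤ g → ∀ h, P.w (h + 1) ≤ P.u * P.w (g - 1) → (1 - P.u) * P.σ g < P.w h →
    P.Λ * Real.log (P.w h / P.w (h + 1)) + 2 * P.w (g - 1) ≤ P.cap h
  huw : ∀ g, P.g0 ≤ g → P.u * P.w (g - 1) ≤ P.w (g + 1)
  hE0 : ∀ g, 0 ≤ P.E g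
  hE : ∀ g, P.g0 ≤ g → ∀ x, 0 ≤ x → x ≤ P.m0 → x ^ 2 ≤ 1 / (P.a g : ℝ) → x ≤ P.E (g + 1)
  hup : ∀ g, P.g0 ≤ g → 1 - area (P.placed g) ≤ 1 / (P.a g : ℝ)
  hlo : ∀ g, P.g0 ≤ g → 1 / (P.B g : ℝ) ≤ 1 - area (P.placed (g + 1))
  hAR : ∀ g, P.g0 ≤ g → ∀ H, g + 1 ≤ H → P.w (g + 1) * P.c (g + 1) +
    ∑ k ∈ Ico (g + 1) H, P.w k * (P.c (k + 1) - P.cap k) ≤ P.AR g
  hmain : ∀ g, P.g0 ≤ g →
    4 * P.r * P.w (g + 1) ^ 2 ≤ 1 / (P.B g : ℝ) - P.AR g - P.w (g + 1) * P.Mu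
  hc : ∀ g, P.g0 ≤ g → P.c g ≤ ∑ i ∈ Ico 0 (P.m g), 1 / (((P.b g + i * P.N : ℕ) : ℝ) + 1)
  hG : ∀ g, P.g0 ≤ g → 3 * ∑ i ∈ Ico 0 (P.m g), (P.w (g - 1) - 1 / ((P.b g + i * P.N : ℕ) : ℝ)) +
    P.κ g * P.cap g ≤ P.G g
  hGs : ∀ g, P.g0 ≤ g → P.Mu0 + ∑ k ∈ Ico P.g0 g, P.G k ≤ P.Mu
  hEc : ∀ h, P.g0 ≤ h → P.E h ≤ P.c h
  hM : ∀ h1 h2, P.g0 ≤ h1 → h1 < h2 → P.E h1 + P.Init h1 h2 +
    ∑ k ∈ Ico P.g0 h2, P.T k (P.w h2) (P.w h1) + ∑ k ∈ Ico h1 h2, P.cap k ≤
    ∑ k ∈ Ico h1 (h2 + 1), P.c k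

structure Inv (g : ℕ) (M1 M2 : ℝ) (R J : MS) : Prop where
  step : Step {(1, 1)} (P.placed g + {(M1, M2)} + R + J)
  wr : WF (P.w (g - 1)) R
  wj : WF (P.w (g - 1)) J
  ir : ∀ h1 h2, g ≤ h1 → h1 < h2 → lenI (P.w h2) (P.w h1) R ≤
    P.Init h1 h2 + ∑ k ∈ Ico P.g0 g, P.T k (P.w h2) (P.w h1)
  ii : ∀ h, g ≤ h → lenI (P.w (h + 1)) (P.w h) J ≤ P.cap h
  ib : ∀ h2, g ≤ h2 → lenGe (P.w g) (R + J) + lenI (P.w h2) (P.w g) R +
    ∑ k ∈ Ico g h2, P.cap k + ∑ k ∈ Ico g h2, P.T k (P.w h2) (P.w g) ≤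
    ∑ k ∈ Ico g (h2 + 1), P.c k
  pot : 3 * (M1 + M2) + 3 * thin R + (len J + thin J) + P.κ g * thinGe (P.w g) J ≤
    P.Mu0 + ∑ k ∈ Ico P.g0 g, P.G k
  m1 : 0 < M1
  m2 : 0 < M2
  r1 : M1 ≤ P.r * M2
  r2 : M2 ≤ P.r * M1
  mm : min M1 M2 ≤ P.m0

variable {P}

theorem OK.facts (H : P.OK) {g : ℕ} (hg : P.g0 ≤ g) :
    P.σ g ≤ P.τ g ∧ P.τ g < P.w (g + 1) ∧ 0 ≤ P.e g ∧ 0 ≤ P.d g := by
  have a0 : (0 : ℝ) < P.a g := by exact_mod_cast H.ha g hg
  have a1 : 1 / (P.B g : ℝ) ≤ 1 / (P.a g : ℝ) := by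
    refine one_div_le_one_div_of_le a0 ?_
    have : P.a g ≤ P.B g := (H.hab g hg).trans ((Nat.le_add_right _ _).trans (H.hB g hg))
    exact_mod_cast this
  have a2 := H.hσ g hg; have a3 := H.hσ0 g hg; have a4 := H.hτ g hg; have a5 := H.hτB g hg
  have a6 : P.w (g + 1) ≤ P.w (g - 1) := H.hw.antitone (by omega)
  exact ⟨by linarith, by linarith, le_trans (by positivity) (H.he g hg),
    le_trans (by positivity) (H.hd g hg)⟩

theorem OK.T_nonneg (H : P.OK) {g : ℕ} (hg : P.g0 ≤ g) {lo hi : ℝ} (h : lo < hi) :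
    0 ≤ P.T g lo hi :=
  tb_nonneg (H.facts hg).1 (H.facts hg).2.2.1 (H.facts hg).2.2.2 h

theorem Inv.next (H : P.OK) {g : ℕ} (hg : P.g0 ≤ g) {M1 M2 : ℝ} {R J : MS}
    (h : P.Inv g M1 M2 R J) : ∃ M1' M2' R' J', P.Inv (g + 1) M1' M2' R' J' := by
  have w21 : P.w (g + 1) < P.w g := H.hw (Nat.lt_succ_self g)
  have w10 : P.w g ≤ P.w (g - 1) := H.hw.antitone (by omega)
  have hpl : P.placed (g + 1) = P.placed g + P.its g := by
    simp only [placed]; rw [Finset.sum_Ico_succ_top hg, add_assoc]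
  set ER := hiP (P.w (g + 1)) R with hER
  set O := loP (P.w (g + 1)) R with hO
  set EI := hiP (P.w (g + 1)) J with hEI
  set J0 := loP (P.w (g + 1)) J with hJ0
  have eR : ER + O = R := hi_add_lo _ _
  have eJ : EI + J0 = J := hi_add_lo _ _
  have wO : WF (P.w (g + 1)) O := h.wr.lo
  have wJ0 : WF (P.w (g + 1)) J0 := h.wj.lo
  have hc1 : 0 ≤ P.c (g + 1) := (H.hE0 _).trans (H.hEc _ (by omega))
  have ar := h.step.2
  rw [← eR, ← eJ] at ar
  simp only [area_add, area_single] at ar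
  have hlo := H.hlo g hg
  rw [hpl, area_add] at hlo
  have hup := H.hup g hg
  have hOI : ∀ h1 h2, lenI (P.w h2) (P.w h1) O ≤ lenI (P.w h2) (P.w h1) R := fun _ _ =>
    lenI_lo_le h.wr
  have hArO : area O ≤ P.AR g := by
    refine area_abel H.hw H.hw0 H.hlim (g := g + 1)
      (β := fun h => ∑ k ∈ Ico (g + 1) (h + 1), P.c k - ∑ k ∈ Ico (g + 1) h, P.cap k) wO ?_ ?_
    · intro h2 hh
      rcases hh.eq_or_lt with rfl | hh
      · rw [lenGe_lo fun s hs => (wO s hs).2.2]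
        simpa using hc1
      · rw [lenGe_split (H.hw hh).le, lenGe_lo fun s hs => (wO s hs).2.2, add_zero]
        have a1 := h.ir (g + 1) h2 (by omega) hh
        have a2 := H.hM (g + 1) h2 (by omega) hh
        have a3 := H.hE0 (g + 1)
        have a4 : ∑ k ∈ Ico P.g0 g, P.T k (P.w h2) (P.w (g + 1)) ≤
            ∑ k ∈ Ico P.g0 h2, P.T k (P.w h2) (P.w (g + 1)) :=
          Finset.sum_le_sum_of_subset_of_nonneg (Finset.Ico_subset_Ico le_rfl (by omega))
            fun k hk _ => H.T_nonneg (Finset.mem_Ico.1 hk).1 (H.hw hh)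
        have := hOI (g + 1) h2
        linarith
    · intro K hK
      refine le_trans (le_of_eq ?_) (H.hAR g hg K hK)
      congr 1
      · simp
      · refine Finset.sum_congr rfl fun k hk => ?_
        have hk1 := (Finset.mem_Ico.1 hk).1
        rw [Finset.sum_Ico_succ_top (show g + 1 ≤ k + 1 by omega),
          Finset.sum_Ico_succ_top hk1 P.cap]
        ring
  have tEI : thin EI ≤ P.cap g + thinGe (P.w g) J := by
    have a1 : thinGe (P.w (g + 1)) J = thin EI := by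
      rw [← eJ]
      simp only [thinGe, sm_add]
      have b1 := thinGe_hi (t := P.w (g + 1)) (M := EI) fun s hs => (mem_hiP.1 hs).2
      have b2 := thinGe_lo (t := P.w (g + 1)) (M := J0) fun s hs => (wJ0 s hs).2.2
      simp only [thinGe] at b1 b2
      rw [b1, b2, add_zero]
    have a2 := thinGe_le (a := P.w (g + 1)) (b := P.w g) h.wj
    have := h.ii g le_rfl
    linarith
  have hpot := h.pot
  have hκ0 := H.hκ0 g hg
  have hG := H.hG g hg
  have tO := thin_nonneg wO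
  have sR : thin R = thin ER + thin O := sm_split _ _ _
  have sJ : thin J = thin EI + thin J0 := sm_split _ _ _
  have sL : len J = len EI + len J0 := sm_split _ _ _
  have hκt : P.κ g * thin EI ≤ P.κ g * (P.cap g + thinGe (P.w g) J) :=
    mul_le_mul_of_nonneg_left tEI hκ0
  let Q : BD :=
    { w := P.w, cap := P.cap, u := P.u, Λ := P.Λ, Mu := P.Mu, r := P.r, m0 := P.m0,
      w0 := P.w (g - 1), w1 := P.w g, w2 := P.w (g + 1), σ := P.σ g, τ := P.τ g, e := P.e g,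
      d := P.d g, κ := P.κ g, E := P.E (g + 1), AR := P.AR g, ArO := area O,
      Φ0 := 3 * (M1 + M2) + 3 * thin ER + (len EI + (1 + P.κ g) * thin EI) + (len J0 + thin J0),
      l1 := lenGe (P.w g) (ER + EI), l2 := len (ER + EI),
      b := P.b g, N := P.N, m := P.m g, a := P.a g, B := P.B g,
      S0 := {(M1, M2)} + (ER + EI) + J0 }
  have hGs := H.hGs (g + 1) (by omega)
  rw [Finset.sum_Ico_succ_top hg] at hGs
  have HQ : Q.OK :=
    { hw := H.hw, hw0 := H.hw0, hlim := H.hlim, hu := H.hu, hu1 := H.hu1, hΛ := H.hΛ,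
      hMu := H.hMu, h21 := w21, h20 := w21.le.trans w10, hN := H.hN, ha := H.ha g hg,
      hab := H.hab g hg, hB := H.hB g hg, hσ0 := H.hσ0 g hg, hσ := H.hσ g hg, hτ := H.hτ g hg,
      hτB := H.hτB g hg, he := H.he g hg, hd := H.hd g hg, hκ0 := hκ0, hκ := H.hκ g hg,
      hbook := H.hbook g hg, huw := H.huw g hg, hr := H.hr, hE := H.hE g hg,
      hup := by simp only [Q, area_add, area_single]; linarith
      hlo := by
        have : Q.its 0 = P.its g := rfl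
        rw [this]
        simp only [Q, area_add, area_single]; linarith
      hO0 := BD.area_nonneg_wf wO, hO := hArO, hmain := H.hmain g hg
      hΦ := by
        simp only [Q, BD.gr]
        linarith }
  have hE0 : ∀ s ∈ ER + EI, P.w (g + 1) ≤ s.2 ∧ s.2 ≤ P.w (g - 1) ∧ s.2 ≤ s.1 := by
    intro s hs
    rcases Multiset.mem_add.1 hs with hs | hs
    · have := h.wr s (mem_hiP.1 hs).1
      exact ⟨(mem_hiP.1 hs).2, this.2.2.le, this.2.1⟩
    · have := h.wj s (mem_hiP.1 hs).1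
      exact ⟨(mem_hiP.1 hs).2, this.2.2.le, this.2.1⟩
  obtain ⟨f1, f2, f3, f4⟩ := H.facts hg
  have start : Q.Mid Q.m M1 M2 (P.w (g - 1)) ER EI 0 J0 :=
    { step := Step.of_eq (by simp [Q, BD.its])
      eok := ⟨w21.le.trans w10, le_rfl, hE0, by simp [Q, BD.pl], by simp [Q, BD.pl]⟩
      chw := WF.zero _
      chl := by simp
      chain := Chain.zero (by
        have a1 := HQ.le_inv (le_refl Q.m)
        have a2 := HQ.hτ
        exact le_trans (sub_le_sub_left a1 _) a2) f3 f4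
      jw := wJ0
      jc := fun k => by
        by_cases hk : g + 1 ≤ k
        · exact (lenI_lo_le h.wj).trans (h.ii k (by omega))
        · rw [lenI_lo fun s hs => (wJ0 s hs).2.2.trans_le (H.hw.antitone (by omega))]
          exact H.hcap k
      pot := by simp [Q, BD.gr, thin]
      m1 := h.m1, m2 := h.m2, r1 := h.r1, r2 := h.r2, mm := h.mm }
  obtain ⟨N1, N2, Y, ER', EI', Ch, J', f⟩ := start.run HQ le_rfl
  have hpl0 : P.c g ≤ Q.pl 0 := H.hc g hg
  have eok := f.eok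
  have hE' : ∀ s ∈ ER' + EI', P.w (g + 1) ≤ s.2 ∧ s.2 ≤ Y ∧ s.2 ≤ s.1 := eok.hE
  have w2p := H.hw0 (g + 1)
  have chain : Chain (P.σ g) (P.τ g) (P.e g) (P.d g) Ch := by
    refine f.chain.mono ?_ f1 f3 f4
    have a1 := HQ.inv_le 0
    have a2 := HQ.hσ
    have a3 := eok.hY1
    exact le_trans a2 (sub_le_sub a3 a1)
  have l1e : lenGe (P.w g) (R + J) = lenGe (P.w g) (ER + EI) := by
    rw [← eR, ← eJ]
    have b1 := lenGe_lo (t := P.w g) (M := O) fun s hs => (wO s hs).2.2.trans w21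
    have b2 := lenGe_lo (t := P.w g) (M := J0) fun s hs => (wJ0 s hs).2.2.trans w21
    simp only [lenGe, sm_add] at b1 b2 ⊢
    linarith
  have l2e : lenGe (P.w (g + 1)) (R + J) = len (ER + EI) := by
    rw [← lenGe_hi (t := P.w (g + 1)) fun s hs => (hE0 s hs).1, ← eR, ← eJ]
    have b1 := lenGe_lo (t := P.w (g + 1)) (M := O) fun s hs => (wO s hs).2.2
    have b2 := lenGe_lo (t := P.w (g + 1)) (M := J0) fun s hs => (wJ0 s hs).2.2
    simp only [lenGe, sm_add] at b1 b2 ⊢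
    linarith
  have gone : ∀ s ∈ ER' + EI', s.2 < P.w g := by
    intro s hs
    by_contra hn
    have a1 := h.ib g le_rfl
    simp only [lenI_self, Finset.Ico_self, Finset.sum_empty, add_zero,
      Nat.Ico_succ_singleton, Finset.sum_singleton] at a1
    have a2 : lenGe (P.w g) (ER' + EI') ≤ max 0 (lenGe (P.w g) (ER + EI) - Q.pl 0) := eok.h1
    rw [max_eq_left (by linarith)] at a2
    have a3 := le_sm (f := fun s => if P.w g ≤ s.2 then s.1 else 0) (M := ER' + EI')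
      (fun t ht => by have := hE' t ht; split_ifs <;> linarith) hs
    simp only [if_pos (not_lt.1 hn)] at a3
    have := hE' s hs
    simp only [lenGe] at a2
    linarith
  have chw : WF (P.w (g + 1)) Ch := f.chw
  have jw : WF (P.w (g + 1)) J' := f.jw
  have wER : WF (P.w g) ER' := fun s hs => by
    have a1 := hE' s (Multiset.mem_add.2 (Or.inl hs))
    exact ⟨by linarith, a1.2.2, gone s (Multiset.mem_add.2 (Or.inl hs))⟩
  have wEI : WF (P.w g) EI' := fun s hs => by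
    have a1 := hE' s (Multiset.mem_add.2 (Or.inr hs))
    exact ⟨by linarith, a1.2.2, gone s (Multiset.mem_add.2 (Or.inr hs))⟩
  have lenR : ∀ h1 h2, g + 1 ≤ h1 → lenI (P.w h2) (P.w h1) (O + ER' + Ch) =
      lenI (P.w h2) (P.w h1) O + lenI (P.w h2) (P.w h1) Ch := by
    intro h1 h2 hh
    have b1 := lenI_hi (lo := P.w h2) (hi := P.w h1) (M := ER') fun s hs =>
      (H.hw.antitone hh).trans (hE' s (Multiset.mem_add.2 (Or.inl hs))).1
    simp only [lenI, sm_add] at b1 ⊢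
    linarith
  refine ⟨N1, N2, O + ER' + Ch, EI' + J', ?_, ?_, ?_, ?_, ?_, ?_, ?_, f.m1, f.m2, f.r1, f.r2, f.mm⟩
  · refine h.step.trans ?_
    have := f.step.add_left (P.placed g + O)
    refine (Step.of_eq ?_).trans (this.trans (Step.of_eq ?_))
    · rw [← eR, ← eJ]; simp only [Q]; abel
    · rw [hpl, show Q.its 0 = P.its g from rfl]; abel
  · exact ((wO.mono w21.le).add wER).add (chw.mono w21.le)
  · exact wEI.add (jw.mono w21.le)
  · intro h1 h2 a1 a2
    rw [lenR h1 h2 a1, Finset.sum_Ico_succ_top hg]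
    have b1 := h.ir h1 h2 (by omega) a2
    have b2 := hOI h1 h2
    have b3 : lenI (P.w h2) (P.w h1) Ch ≤ P.T g (P.w h2) (P.w h1) := chain _ _ (H.hw a2)
    linarith
  · intro k hk
    have b1 := lenI_hi (lo := P.w (k + 1)) (hi := P.w k) (M := EI') fun s hs =>
      (H.hw.antitone hk).trans (hE' s (Multiset.mem_add.2 (Or.inr hs))).1
    have b2 : lenI (P.w (k + 1)) (P.w k) J' ≤ P.cap k := f.jc k
    simp only [lenI, sm_add] at b1 b2 ⊢
    linarith
  · intro h2 hh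
    have b0 : lenGe (P.w (g + 1)) (O + ER' + Ch + (EI' + J')) = len (ER' + EI') := by
      rw [← lenGe_hi (t := P.w (g + 1)) fun s hs => (hE' s hs).1]
      have b1 := lenGe_lo (t := P.w (g + 1)) (M := O) fun s hs => (wO s hs).2.2
      have b2 := lenGe_lo (t := P.w (g + 1)) (M := Ch) fun s hs => (chw s hs).2.2
      have b3 := lenGe_lo (t := P.w (g + 1)) (M := J') fun s hs => (jw s hs).2.2
      simp only [lenGe, sm_add] at b1 b2 b3 ⊢
      linarith
    rw [b0, lenR _ _ le_rfl]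
    have b1 : len (ER' + EI') ≤ max (P.E (g + 1)) (len (ER + EI) - Q.pl 0) := eok.h2
    have wh : P.w h2 ≤ P.w (g + 1) := H.hw.antitone hh
    rcases le_max_iff.1 b1 with b1 | b1
    · rcases hh.eq_or_lt with rfl | hh'
      · have := H.hEc (g + 1) (by omega)
        simp only [lenI_self, Finset.Ico_self, Finset.sum_empty, add_zero,
          Nat.Ico_succ_singleton, Finset.sum_singleton]
        linarith
      · have c1 := h.ir (g + 1) h2 (by omega) hh'
        have c2 := hOI (g + 1) h2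
        have c3 : lenI (P.w h2) (P.w (g + 1)) Ch ≤ P.T g (P.w h2) (P.w (g + 1)) :=
          chain _ _ (H.hw hh')
        have c4 := H.hM (g + 1) h2 (by omega) hh'
        rw [← Finset.sum_Ico_consecutive _ (show P.g0 ≤ g + 1 by omega) hh,
          Finset.sum_Ico_succ_top hg] at c4
        linarith
    · have c1 := h.ib h2 (by omega)
      rw [Finset.sum_eq_sum_Ico_succ_bot (show g < h2 by omega),
        Finset.sum_eq_sum_Ico_succ_bot (show g < h2 by omega),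
        Finset.sum_eq_sum_Ico_succ_bot (show g < h2 + 1 by omega),
        lenI_split wh w21.le R] at c1
      have c2 : ∑ k ∈ Ico (g + 1) h2, P.T k (P.w h2) (P.w (g + 1)) =
          ∑ k ∈ Ico (g + 1) h2, P.T k (P.w h2) (P.w g) := by
        refine Finset.sum_congr rfl fun k hk => ?_
        have hk1 := (Finset.mem_Ico.1 hk).1
        obtain ⟨d1, d2, _, _⟩ := H.facts (show P.g0 ≤ k by omega)
        have d3 : P.w (k + 1) ≤ P.w (g + 1) := H.hw.antitone (by omega)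
        exact tb_hi d1 (by linarith) (by linarith)
      have c3 : lenI (P.w h2) (P.w g) Ch ≤ P.T g (P.w h2) (P.w g) := chain _ _ (wh.trans_lt w21)
      rw [lenI_split wh w21.le Ch] at c3
      have c4 := lenI_nonneg (lo := P.w (g + 1)) (hi := P.w g) chw
      have c5 := hOI (g + 1) h2
      have c6 := lenGe_split w21.le (R + J)
      have c7 : lenI (P.w (g + 1)) (P.w g) (R + J) =
          lenI (P.w (g + 1)) (P.w g) R + lenI (P.w (g + 1)) (P.w g) J := sm_add _ _ _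
      have c8 := h.ii g le_rfl
      rw [c2]
      linarith
  · have b1 := f.pot
    simp only [Q, BD.gr] at b1
    have b2 : thinGe (P.w (g + 1)) (EI' + J') = thin EI' := by
      have c1 := thinGe_hi (t := P.w (g + 1)) (M := EI') fun s hs =>
        (hE' s (Multiset.mem_add.2 (Or.inr hs))).1
      have c2 := thinGe_lo (t := P.w (g + 1)) (M := J') fun s hs => (jw s hs).2.2
      simp only [thinGe, sm_add] at c1 c2 ⊢
      rw [c1, c2, add_zero]
    have b3 : P.κ (g + 1) * thin EI' ≤ P.κ g * thin EI' :=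
      mul_le_mul_of_nonneg_right (H.hκa g hg) (thin_nonneg wEI)
    rw [b2, Finset.sum_Ico_succ_top hg]
    simp only [thin, len, sm_add] at *
    linarith

theorem book_all (H : P.OK) {θ : ℝ} (Pc : MS)
    (hP : ∀ s ∈ Pc, 0 < s.2 ∧ s.2 ≤ s.1 ∧ P.u * s.2 < θ ∧ Bookable P.w P.cap P.u P.Λ s.1 s.2)
    (hl : 2 * len Pc + thin Pc ≤ P.Mu) :
    ∃ J, Step Pc J ∧ WF θ J ∧ Capped P.w P.cap J ∧ len J + thin J = 2 * len Pc + thin Pc := by
  induction Pc using Multiset.induction_on with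
  | empty => exact ⟨0, Step.refl _, WF.zero _, fun h => by simpa [lenI] using H.hcap h,
      by simp [len, thin]⟩
  | cons s Pc ih =>
    obtain ⟨a, x⟩ := s
    have h0 := hP (a, x) (Multiset.mem_cons_self _ _)
    simp only at h0
    simp only [len, thin, sm_cons] at hl
    obtain ⟨J, b1, b2, b3, b4⟩ := ih (fun t ht => hP t (Multiset.mem_cons_of_mem ht))
      (by simp only [len, thin]; linarith [h0.1, h0.2.1])
    have b5 := thin_nonneg b2
    obtain ⟨J', c1, c2, c3, c4⟩ := book H.hw H.hw0 H.hlim H.hu H.hu1 H.hΛ H.hMu b2 b3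
      (by simp only [len, thin] at *; linarith [h0.1, h0.2.1]) h0.1 h0.2.1 h0.2.2.2 h0.2.2.1
    refine ⟨J', ?_, c2, c3, ?_⟩
    · rw [← Multiset.singleton_add]
      exact (b1.add_left _).trans c1
    · simp only [len, thin, sm_cons] at *; linarith

structure Start (P : GD) (M1 M2 : ℝ) (R Pc : MS) : Prop where
  step : Step {(1, 1)} (P.P0 + {(M1, M2)} + R + Pc)
  wr : WF (P.w P.g0) R
  ir : ∀ h1 h2, P.g0 ≤ h1 → h1 < h2 → lenI (P.w h2) (P.w h1) R ≤ P.Init h1 h2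
  pc : ∀ s ∈ Pc, 0 < s.2 ∧ s.2 ≤ s.1 ∧ P.u * s.2 < P.w P.g0 ∧
    Bookable P.w P.cap P.u P.Λ s.1 s.2
  pot : 3 * (M1 + M2) + 3 * thin R + (2 * len Pc + thin Pc) ≤ P.Mu0
  m1 : 0 < M1
  m2 : 0 < M2
  r1 : M1 ≤ P.r * M2
  r2 : M2 ≤ P.r * M1
  mm : min M1 M2 ≤ P.m0

theorem Start.inv (H : P.OK) {M1 M2 : ℝ} {R Pc : MS} (h : Start P M1 M2 R Pc) :
    ∃ J, P.Inv P.g0 M1 M2 R J := by
  have a1 := H.hGs P.g0 le_rfl
  simp only [Finset.Ico_self, Finset.sum_empty, add_zero] at a1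
  have a2 := h.pot
  have a3 := thin_nonneg h.wr
  obtain ⟨J, b1, b2, b3, b4⟩ := book_all H Pc h.pc (by linarith [h.m1, h.m2])
  have w10 : P.w P.g0 ≤ P.w (P.g0 - 1) := H.hw.antitone (by omega)
  refine ⟨J, ?_, h.wr.mono w10, b2.mono w10, ?_, fun k _ => b3 k, ?_, ?_,
    h.m1, h.m2, h.r1, h.r2, h.mm⟩
  · simp only [placed, Finset.Ico_self, Finset.sum_empty, add_zero]
    exact h.step.trans (b1.add_left _)
  · intro h1 h2 c1 c2
    simpa using h.ir h1 h2 c1 c2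
  · intro h2 hh
    rw [lenGe_lo fun s hs => ((h.wr.add b2) s hs).2.2, zero_add]
    rcases hh.eq_or_lt with rfl | hh'
    · simpa [lenI_self] using (H.hE0 _).trans (H.hEc _ le_rfl)
    · have c1 := h.ir _ _ le_rfl hh'
      have c2 := H.hM _ _ le_rfl hh'
      have := H.hE0 P.g0
      linarith
  · rw [thinGe_lo fun s hs => (b2 s hs).2.2]
    simp only [Finset.Ico_self, Finset.sum_empty, add_zero, mul_zero]
    linarith

theorem Start.fits (H : P.OK) {M1 M2 : ℝ} {R Pc : MS} (h : Start P M1 M2 R Pc) {g : ℕ}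
    (hg : P.g0 ≤ g) {S : MS} (hS : S ≤ P.placed g) :
    Fits (Set.Ioo 0 1 ×ˢ Set.Ioo 0 1) S := by
  have key : ∀ g, P.g0 ≤ g → ∃ M1 M2 R J, P.Inv g M1 M2 R J := by
    intro g hg
    induction g, hg using Nat.le_induction with
    | base => obtain ⟨J, hJ⟩ := h.inv H; exact ⟨_, _, _, J, hJ⟩
    | succ g hg ih => obtain ⟨_, _, _, _, hI⟩ := ih; exact hI.next H hg
  obtain ⟨N1, N2, R', J, hI⟩ := key g hg
  have h1 : Fits (Set.Ioo 0 1 ×ˢ Set.Ioo 0 1) ({(1, 1)} : MS) := by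
    rw [← Multiset.cons_zero, fits_cons]
    exact ⟨_, ⟨0, 0, Or.inl (by simp)⟩, subset_rfl, fits_zero _⟩
  have h2 := hI.step.1 _ h1
  obtain ⟨T, hT⟩ := Multiset.le_iff_exists_add.1 hS
  rw [hT, add_assoc, add_assoc, add_assoc] at h2
  obtain ⟨V, hV, h3, _⟩ := fits_add.1 h2
  exact h3.mono hV

end GD
end Pool.Agent.MP_f14165_co

end
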