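import Pool.Agent.Mg.S12349.G9fab94

section

set_option autoImplicit false

namespace Pool.Agent.MP_f14165_co
open Finset

def dsum {α : Type} [AddCommMonoid α] (f : ℕ → α) : ℕ → ℕ → α
  | 0, _ => 0
  | n + 1, A => f (A % 2 ^ 72) + dsum f n (A / 2 ^ 72)

section
variable {α : Type} [AddCommMonoid α] {f : ℕ → α}

theorem dsum_zero (f0 : f 0 = 0) (n : ℕ) : dsum f n 0 = 0 := by
  induction n with
  | zero => rfl
  | succ n ih => rw [dsum, Nat.zero_mod, Nat.zero_div, f0, ih, add_zero]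

theorem dsum_scatter (f0 : f 0 = 0) {key : ℕ} (hk : key < 2 ^ 72) (r : ℕ) : ∀ n A, r < n →
    A / 2 ^ (72 * r) % 2 ^ 72 = 0 → dsum f n (A + key * 2 ^ (72 * r)) = dsum f n A + f key := by
  induction r with
  | zero =>
    intro n A hn h
    obtain ⟨n, rfl⟩ : ∃ m, n = m + 1 := ⟨n - 1, by omega⟩
    simp only [Nat.mul_zero, Nat.pow_zero, Nat.div_one, Nat.mul_one] at h ⊢
    rw [dsum, dsum, h, f0, show (A + key) % 2 ^ 72 = key by omega,
      show (A + key) / 2 ^ 72 = A / 2 ^ 72 by omega, zero_add, add_comm]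
  | succ r ih =>
    intro n A hn h
    obtain ⟨n, rfl⟩ : ∃ m, n = m + 1 := ⟨n - 1, by omega⟩
    have e : 2 ^ (72 * (r + 1)) = 2 ^ 72 * 2 ^ (72 * r) := by rw [← pow_add]; congr 1; ring
    rw [e] at h ⊢
    rw [← Nat.div_div_eq_div_mul] at h
    rw [dsum, dsum, show key * (2 ^ 72 * 2 ^ (72 * r)) = 2 ^ 72 * (key * 2 ^ (72 * r)) by ring,
      Nat.add_mul_mod_self_left, Nat.add_mul_div_left _ _ (by positivity), ih n _ (by omega) h,
      add_assoc]

theorem dsum_add (n o : ℕ) : ∀ K, dsum f (o + n) K = dsum f o K + dsum f n (K / 2 ^ (72 * o)) := by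
  induction o with
  | zero => intro K; simp [dsum]
  | succ o ih =>
    intro K
    have e : 2 ^ (72 * (o + 1)) = 2 ^ 72 * 2 ^ (72 * o) := by rw [← pow_add]; congr 1; ring
    rw [show o + 1 + n = (o + n) + 1 by omega, dsum, dsum, ih, e, Nat.div_div_eq_div_mul, add_assoc]

theorem dsum_mod (n : ℕ) : ∀ X, dsum f n (X % 2 ^ (72 * n)) = dsum f n X := by
  induction n with
  | zero => intro X; rfl
  | succ n ih =>
    intro X
    have e : 2 ^ (72 * (n + 1)) = 2 ^ 72 * 2 ^ (72 * n) := by rw [← pow_add]; congr 1; ring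
    rw [dsum, dsum, e, Nat.mod_mul_right_mod, Nat.mod_mul_right_div_self, ih]

theorem sc_snd (f0 : f 0 = 0) {key pos A n : ℕ} {k : ℕ → Bool} (h : C.sc key pos A k = true)
    (hk : key < 2 ^ 72) (hp : pos < n) : ∃ A', dsum f n A' = dsum f n A + f key ∧ k A' = true := by
  simp only [C.sc, C.sc2, b_and, b_eq, n_add, n_shl, n_shr, n_and, n_mul] at h
  rw [and_mask _ 72 C.cM72 rfl] at h
  exact ⟨_, dsum_scatter f0 hk pos n A hp h.1, h.2⟩
end

noncomputable def fI (key : ℕ) : MS := items (key / 2 ^ 19 % 2 ^ 27) (key / 2 ^ 46)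

def sing (P z : ℕ) : ℕ → ℕ := fun p => if p = P then z else 0

def fE (key : ℕ) : ℕ → ℕ :=
  sing (key % 2 ^ 19) (key / 2 ^ 46) +
    sing (key % 2 ^ 19 + 1 + key / 2 ^ 19 % 2) (key / 2 ^ 20 % 2 ^ 26)

theorem fI_zero : fI 0 = 0 := by simp [fI, items_zero]
theorem fE_zero : fE 0 = 0 := by funext p; simp [fE, sing]

theorem fI_enc {r a m : ℕ} (hr : r < 2 ^ 19) (ha : a < 2 ^ 27) :
    fI (r + a * 2 ^ 19 + m * 2 ^ 46) = items a m := by
  unfold fI; congr 1 <;> omega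

theorem fE_enc1 {P z : ℕ} (hP : P < 2 ^ 19) (hz : z < 2 ^ 26) :
    fE (P + z * C.cLu) = sing P z + sing (P + 1) z := by
  have e : C.cLu = 70368745226240 := rfl
  unfold fE; rw [e]; congr 2 <;> omega

theorem fE_enc2 {P e d : ℕ} (hP : P < 2 ^ 19) (hd : d < 2 ^ 26) :
    fE (P + (524288 + d * 2 ^ 20 + e * 2 ^ 46)) = sing P e + sing (P + 2) d := by
  unfold fE; congr 2 <;> omega

noncomputable def UU (c : ℕ → ℕ) (s h : ℕ) : ℝ :=
  ∑ i ∈ range h, ((c (4 * i + s) : ℝ) / 2 ^ 36 + ((c (4 * i + 2) : ℝ) - c (4 * i + 3)) * (wq i - wq h))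

noncomputable def IC (c : ℕ → ℕ) (h1 h2 : ℕ) : ℝ := UU c 0 h2 - UU c 1 h1

theorem UU_add (c c' : ℕ → ℕ) (s h : ℕ) : UU (c + c') s h = UU c s h + UU c' s h := by
  unfold UU
  rw [← Finset.sum_add_distrib]
  refine Finset.sum_congr rfl fun i _ => ?_
  simp only [Pi.add_apply]; push_cast; ring

theorem IC_add (c c' : ℕ → ℕ) (h1 h2 : ℕ) : IC (c + c') h1 h2 = IC c h1 h2 + IC c' h1 h2 := by
  unfold IC; rw [UU_add, UU_add]; ring

theorem IC_zero (h1 h2 : ℕ) : IC 0 h1 h2 = 0 := by simp [IC, UU]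

theorem UU_sing {i σ s : ℕ} (z h : ℕ) (hσ : σ < 4) (hs : s < 2) : UU (sing (4 * i + σ) z) s h =
    if i < h then (if s = σ then (z : ℝ) else 0) / 2 ^ 36 +
      ((if σ = 2 then (z : ℝ) else 0) - (if σ = 3 then (z : ℝ) else 0)) * (wq i - wq h) else 0 := by
  unfold UU
  have a : ∀ j, j ≠ i → ((sing (4 * i + σ) z (4 * j + s) : ℝ) / 2 ^ 36 +
      ((sing (4 * i + σ) z (4 * j + 2) : ℝ) - sing (4 * i + σ) z (4 * j + 3)) * (wq j - wq h)) = 0 := by
    intro j hj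
    simp only [sing]
    rw [if_neg (by omega), if_neg (by omega), if_neg (by omega)]; simp
  split_ifs with h1
  all_goals first
    | rw [Finset.sum_eq_single_of_mem i (Finset.mem_range.2 h1) fun j _ hj => a j hj]
      simp only [sing]
      split_ifs <;> first | omega | simp
    | exact Finset.sum_eq_zero fun j hj => a j (by have := Finset.mem_range.1 hj; omega)

theorem win_hi {su p : ℕ} {x : ℝ} (hp : 0 < p) (h : su * p ^ 3 ≤ C.cQ1) (hx : x * SR ≤ su) :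
    x < wq p := by
  have p0 : (0 : ℝ) < p := by exact_mod_cast hp
  have h1 : (su : ℝ) * p ^ 3 ≤ C.cQ1 := by exact_mod_cast h
  have e : (C.cQ1 : ℝ) = 4100 * SR - 1 := by norm_num [C.cQ1, SR, C.cS]
  rw [wq_pos' hp, lt_div_iff₀ (by positivity)]
  refine lt_of_mul_lt_mul_right ?_ SR_pos.le
  have := mul_le_mul_of_nonneg_right hx (show (0 : ℝ) ≤ p ^ 3 by positivity)
  linarith

theorem win_lo {sl q : ℕ} {x : ℝ} (hq : 0 < q) (h : C.cQ ≤ sl * q ^ 3) (hx : sl ≤ x * SR) :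
    wq q ≤ x := by
  have p0 : (0 : ℝ) < q := by exact_mod_cast hq
  have h1 : (C.cQ : ℝ) ≤ sl * q ^ 3 := by exact_mod_cast h
  have e : (C.cQ : ℝ) = 4100 * SR := by norm_num [C.cQ, SR, C.cS]
  rw [wq_pos' hq, div_le_iff₀ (by positivity)]
  refine le_of_mul_le_mul_right ?_ SR_pos
  have := mul_le_mul_of_nonneg_right hx (show (0 : ℝ) ≤ q ^ 3 by positivity)
  linarith

theorem Sm.win {sl su e d tot pi p q : ℕ} {R : MS} (H : Sm sl su e d tot pi R) (hp : 5800 ≤ p)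
    (hq : 0 < q) (h1 : su * p ^ 3 ≤ C.cQ1) (h2 : C.cQ ≤ sl * q ^ 3) :
    WF (wq 5800) R ∧ (∀ s ∈ R, wq q ≤ s.2) ∧ ∀ s ∈ R, s.2 < wq p := by
  have a1 : ∀ s ∈ R, wq q ≤ s.2 := fun s hs => win_lo hq h2 (H.lo s hs)
  have a2 : ∀ s ∈ R, s.2 < wq p := fun s hs => win_hi (by omega) h1 (H.hi s hs)
  exact ⟨fun s hs => ⟨(wq_pos q).trans_le (a1 s hs), H.wf s hs,
    (a2 s hs).trans_le (wq_anti.antitone hp)⟩, a1, a2⟩

theorem Sm.emit1 {sl su e d tot pi p : ℕ} {R : MS} (H : Sm sl su e d tot pi R) (hp : 5800 ≤ p)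
    (h1 : su * p ^ 3 ≤ C.cQ1) (h2 : C.cQ ≤ sl * (p + 1) ^ 3) {g h : ℕ} (hg : g < h) :
    lenI (wq h) (wq g) R ≤ IC (sing (4 * p) tot + sing (4 * p + 1) tot) g h := by
  obtain ⟨a0, a1, a2⟩ := H.win hp (by omega) h1 h2
  have u1 := UU_sing (i := p) (σ := 0) (s := 0) tot h (by omega) (by omega)
  have u2 := UU_sing (i := p) (σ := 1) (s := 0) tot h (by omega) (by omega)
  have u3 := UU_sing (i := p) (σ := 0) (s := 1) tot g (by omega) (by omega)
  have u4 := UU_sing (i := p) (σ := 1) (s := 1) tot g (by omega) (by omega)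
  rw [add_zero] at u1 u3
  rw [IC, UU_add, UU_add, u1, u2, u3, u4]
  norm_num
  split_ifs with c1 c2 c2
  · rw [lenI_hi fun s hs => (wq_anti.antitone c2).trans (a1 s hs)]; simp
  · refine le_trans (sm_le fun s hs => ?_) (H.tot.trans (by norm_num))
    have := a0 s hs
    split_ifs <;> linarith
  · omega
  · rw [lenI_lo fun s hs => (a2 s hs).trans_le (wq_anti.antitone (by omega))]; simp

theorem Sm.emit2 {sl su e d tot pi p q : ℕ} {R : MS} (H : Sm sl su e d tot pi R) (hp : 5800 ≤ p)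
    (hq : p < q) (h1 : su * p ^ 3 ≤ C.cQ1) (h2 : C.cQ ≤ sl * q ^ 3) {g h : ℕ} (hg : g < h) :
    lenI (wq h) (wq g) R ≤ IC (sing (4 * p) e + sing (4 * p + 2) d +
      (sing (4 * q + 1) e + sing (4 * q + 1 + 2) d)) g h := by
  obtain ⟨a0, a1, a2⟩ := H.win hp (by omega) h1 h2
  have u1 := UU_sing (i := p) (σ := 0) (s := 0) e h (by omega) (by omega)
  have u2 := UU_sing (i := p) (σ := 2) (s := 0) d h (by omega) (by omega)
  have u3 := UU_sing (i := q) (σ := 1) (s := 0) e h (by omega) (by omega)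
  have u4 := UU_sing (i := q) (σ := 3) (s := 0) d h (by omega) (by omega)
  have v1 := UU_sing (i := p) (σ := 0) (s := 1) e g (by omega) (by omega)
  have v2 := UU_sing (i := p) (σ := 2) (s := 1) d g (by omega) (by omega)
  have v3 := UU_sing (i := q) (σ := 1) (s := 1) e g (by omega) (by omega)
  have v4 := UU_sing (i := q) (σ := 3) (s := 1) d g (by omega) (by omega)
  rw [add_zero] at u1 v1
  have key : ∀ lo hi, lo ≤ hi → (lo = wq h ∨ lo = wq q) → (hi = wq g ∨ hi = wq p) →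
      lenI (wq h) (wq g) R ≤ e / 2 ^ 36 + d * (hi - lo) := by
    intro lo hi b1 b2 b3
    have : lenI (wq h) (wq g) R ≤ lenI lo hi R := by
      refine sm_le fun s hs => ?_
      have := a0 s hs; have := a1 s hs; have := a2 s hs
      split_ifs with c1 c2
      · exact le_rfl
      · exact absurd ⟨by rcases b2 with rfl | rfl <;> linarith [c1.1],
          by rcases b3 with rfl | rfl <;> linarith [c1.2]⟩ c2
      · linarith
      · exact le_rfl
    refine this.trans ?_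
    rcases b1.eq_or_lt with rfl | b4
    · rw [lenI_self, sub_self, mul_zero, add_zero]; positivity
    · exact H.ch lo hi b4
  rw [IC, UU_add, UU_add, UU_add, UU_add, UU_add, UU_add, add_assoc (4 * q), u1, u2, u3, u4, v1, v2,
    v3, v4]
  norm_num at key ⊢
  by_cases c1 : p < h
  swap
  · rw [if_neg c1, if_neg c1, if_neg (by omega), if_neg (by omega), if_neg (by omega),
      if_neg (by omega), lenI_lo fun s hs => (a2 s hs).trans_le (wq_anti.antitone (by omega))]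
    simp
  by_cases c2 : q < g
  · rw [if_pos c1, if_pos c1, if_pos (by omega), if_pos (by omega), if_pos c2, if_pos c2,
      lenI_hi fun s hs => (wq_anti.antitone c2.le).trans (a1 s hs)]
    linarith
  rw [if_pos c1, if_pos c1, if_neg c2, if_neg c2]
  split_ifs with c3 c4 c4
  · have := key _ _ (wq_anti.antitone (show g ≤ q by omega)) (Or.inr rfl) (Or.inl rfl); linarith
  · have := key _ _ (wq_anti.antitone hq.le) (Or.inr rfl) (Or.inr rfl); linarith
  · have := key _ _ (wq_anti.antitone hg.le) (Or.inl rfl) (Or.inl rfl); linarith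
  · have := key _ _ (wq_anti.antitone c1.le) (Or.inl rfl) (Or.inr rfl); linarith

end Pool.Agent.MP_f14165_co

end

section

set_option autoImplicit false

namespace Pool.Agent.MP_f14165_co
open Finset

def Rz : C.Stk → MS → Prop
  | .nil, M => M = 0
  | .hole a b c d r, M => ∃ L y N, In a b L ∧ In c d y ∧ Rz r N ∧ M = {(L, y)} + N
  | .fh a o t c d r, M => ∃ y N, 0 < a ∧ In c d y ∧ 1 / ((a : ℝ) + 1) ≤ y ∧ Rz r N ∧
      M = famH a o (t + 1) y + N
  | .fa a J t c d r, M => ∃ y N, 0 < a ∧ 0 < J ∧ J ≤ 8 ∧ In c d y ∧ cH a J ≤ y ∧ Rz r N ∧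
      M = famA a J (t + 1) y + N
  | .gp a J K i r, M => ∃ N, 0 < a ∧ J ≤ 8 ∧ i < K ∧ K ≤ 2 ^ 20 ∧ Rz r N ∧ M = gapS a J K i + N

def GM (M I : MS) (c : ℕ → ℕ) (pt : ℕ) : Prop :=
  ∃ R Pc, Step {(1, 1)} (I + M + R + Pc) ∧ WF (wq 5800) R ∧
    (∀ g h, g < h → lenI (wq h) (wq g) R ≤ IC c g h) ∧ PcOK Pc ∧
    (3 * thin R + (2 * len Pc + thin Pc)) * SR ≤ 3 * pt

theorem GM.step {M M' I I' : MS} {c : ℕ → ℕ} {pt : ℕ} (h : GM M I c pt) (s : Step M (I' + M')) :
    GM M' (I + I') c pt := by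
  obtain ⟨R, Pc, h1, h2⟩ := h
  refine ⟨R, Pc, h1.trans ?_, h2⟩
  rw [add_assoc I I']
  exact ((s.add_left I).add_right R).add_right Pc

theorem GM.step0 {M M' I : MS} {c : ℕ → ℕ} {pt : ℕ} (h : GM M I c pt) (s : Step M M') :
    GM M' I c pt := by
  simpa using h.step (I' := 0) (by simpa using s)

theorem GM.reg {R' N I : MS} {c c' : ℕ → ℕ} {pt pi : ℕ} (h : GM (R' + N) I c pt)
    (w : WF (wq 5800) R') (i : ∀ g h, g < h → lenI (wq h) (wq g) R' ≤ IC c' g h)
    (p : thin R' * SR ≤ pi) : GM N I (c + c') (pt + pi) := by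
  obtain ⟨R, Pc, h1, h2, h3, h4, h5⟩ := h
  refine ⟨R + R', Pc, h1.trans (Step.of_eq (by abel)), h2.add w, fun g h hg => ?_, h4, ?_⟩
  · rw [IC_add, lenI, sm_add]; exact add_le_add (h3 g h hg) (i g h hg)
  · simp only [thin, sm_add] at *; push_cast; linarith

theorem GM.irr {Z Pc' N I : MS} {c : ℕ → ℕ} {pt pi : ℕ} (h : GM (Z + N) I c pt)
    (s : Step Z Pc') (w : PcOK Pc') (p : (2 * len Pc' + thin Pc') * SR ≤ 3 * pi) :
    GM N I c (pt + pi) := by
  obtain ⟨R, Pc, h1, h2, h3, h4, h5⟩ := h.step0 (s.add_right N)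
  refine ⟨R, Pc + Pc', h1.trans (Step.of_eq (by abel)), h2, h3, fun s hs => ?_, ?_⟩
  · rcases Multiset.mem_add.1 hs with h | h
    · exact h4 s h
    · exact w s h
  · simp only [thin, len, sm_add] at *; push_cast; linarith

theorem rt_snd {r a b c d : ℕ} {k : ℕ → ℕ → ℕ → ℕ → C.Stk → Bool} {rest : C.Stk} {L y : ℝ}
    (h : C.rt r k a b c d rest = true) (h1 : In a b L) (h2 : In c d y) :
    ∃ a b c d L' y', k a b c d rest = true ∧ In a b L' ∧ In c d y' ∧ Step {(L, y)} {(L', y')} := by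
  simp only [C.rt, b_ite] at h
  split_ifs at h
  · exact ⟨a, b, c, d, L, y, h, h1, h2, Step.refl _⟩
  · exact ⟨c, d, a, b, y, L, h, h2, h1, step_rot _ _⟩

theorem pop_snd {r : ℕ} {k : ℕ → ℕ → ℕ → ℕ → C.Stk → Bool} {st : C.Stk} {M : MS}
    (h : C.pop r st k = true) (hM : Rz st M) : ∃ a b c d rest L y N, k a b c d rest = true ∧
      In a b L ∧ In c d y ∧ Rz rest N ∧ Step M ({(L, y)} + N) := by
  cases st with
  | nil => exact absurd h (by simp [C.pop])
  | gp => exact absurd h (by simp [C.pop])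
  | hole a b c d rest =>
    obtain ⟨L, y, N, h1, h2, h3, rfl⟩ := hM
    obtain ⟨a, b, c, d, L', y', k1, k2, k3, k4⟩ := rt_snd h h1 h2
    exact ⟨a, b, c, d, rest, L', y', N, k1, k2, k3, h3, k4.add_right N⟩
  | fh a o t yl yh rest =>
    obtain ⟨y, N, ha, h1, h2, h3, rfl⟩ := hM
    have i1 := inv_in (show 0 < a + 2 * t by omega)
    have i2 := vv_in (show 0 < a + 2 * t by omega)
    have i3 := inv_in (show 0 < a + 2 * t + 1 by omega)
    have m : 1 / (((a + 2 * t : ℕ) : ℝ) + 1) ≤ y := by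
      refine le_trans (one_div_le_one_div_of_le (by positivity) ?_) h2
      push_cast; linarith [Nat.cast_nonneg (α := ℝ) t]
    rw [Nat.cast_succ] at i3
    obtain ⟨a', b, c, d, L', y', k1, k2, k3, k4⟩ := rt_snd
      (L := if o ≠ 0 then 1 / ((a + 2 * t : ℕ) : ℝ) else vR (a + 2 * t)) h
      (by
        cases o with
        | zero => rw [if_neg (by simp)]; exact ⟨i2.1, i2.2.trans (le_of_eq (by norm_cast))⟩
        | succ o =>
          rw [if_pos (by simp)]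
          refine ⟨i1.1, i1.2.trans ?_⟩
          exact_mod_cast (Nat.le_succ _ : C.cS / (a + 2 * t) + 1 ≤ C.cS / (a + 2 * t) + 1 + 1))
      (h1.sub i3.1 (i3.2.trans (le_of_eq (Nat.cast_succ _).symm)) m)
    refine ⟨a', b, c, d, _, L', y', famH a 0 t y + N, k1, k2, k3, ?_, ?_⟩
    · cases t with
      | zero => simpa [famH] using h3
      | succ t => exact ⟨y, N, ha, h1, h2, h3, rfl⟩
    · rw [famH_succ, add_comm (famH a 0 t y), add_assoc]; exact k4.add_right _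
  | fa a J t yl yh rest =>
    obtain ⟨y, N, ha, hJ, hJ8, h1, h2, h3, rfl⟩ := hM
    have i1 := inv_in (show 0 < a + 2 * J * t + 2 * J - 1 by omega)
    have i3 := cv_in J (a + 2 * J * t) (by omega)
    have J8 : (J : ℝ) ≤ 8 := by exact_mod_cast hJ8
    obtain ⟨a', b, c, d, L', y', k1, k2, k3, k4⟩ := rt_snd
      (L := 1 / ((a + 2 * J * t + 2 * J - 1 : ℕ) : ℝ)) h
      ⟨i1.1, i1.2.trans (le_of_eq (Nat.cast_succ _).symm)⟩
      (h1.sub (d := C.cv J (a + 2 * J * t) + 16) i3.1 (by push_cast; linarith [i3.2])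
        ((cH_anti J ha (by omega)).trans h2))
    refine ⟨a', b, c, d, _, L', y', famA a J t y + N, k1, k2, k3, ?_, ?_⟩
    · cases t with
      | zero => simpa [famA] using h3
      | succ t => exact ⟨y, N, ha, hJ, hJ8, h1, h2, h3, rfl⟩
    · rw [famA, Finset.sum_range_succ, ← famA, add_comm (famA a J t y), add_assoc]
      exact k4.add_right _

theorem smy_snd {k : ℕ → ℕ → ℕ → ℕ → ℕ → ℕ → C.Stk → Bool} {st : C.Stk} {M : MS}
    (h : C.smy st k = true) (hM : Rz st M) : ∃ sl su e d n pi rest R N,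
      k sl su e d n pi rest = true ∧ Sm sl su e d (n * e) pi R ∧ Rz rest N ∧ M = R + N := by
  cases st with
  | nil => exact absurd h (by simp [C.smy])
  | gp => exact absurd h (by simp [C.smy])
  | hole => exact absurd h (by simp [C.smy])
  | fh a o t yl yh rest =>
    obtain ⟨y, N, ha, h1, h2, h3, rfl⟩ := hM
    simp only [C.smy, C.smh, b_and, b_le] at h
    exact ⟨_, _, _, _, _, _, _, _, N, h.2, sm_famH ha h1 h2 h.1, h3, rfl⟩
  | fa a J t yl yh rest =>
    obtain ⟨y, N, ha, hJ, hJ8, h1, h2, h3, rfl⟩ := hM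
    simp only [C.smy, C.sma, b_and, b_le] at h
    exact ⟨_, _, _, _, _, _, _, _, N, h.2, sm_famA ha hJ hJ8 h1 h2 h.1, h3, rfl⟩

theorem land_le (x m : ℕ) : Nat.land x m ≤ m := Nat.and_le_right

theorem em1b_snd {p pos sl su e d tot pi AE : ℕ} {k : ℕ → Bool} {R : MS}
    (h : C.em1b p pos sl su tot AE k = true) (H : Sm sl su e d tot pi R) (b0 : 5800 ≤ p)
    (b1 : p ≤ 65535 + 5800) (b2 : pos ≤ 4095) :
    ∃ A c, k A = true ∧ dsum fE 4096 A = dsum fE 4096 AE + c ∧ WF (wq 5800) R ∧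
      ∀ g h, g < h → lenI (wq h) (wq g) R ≤ IC c g h := by
  simp only [C.em1b, b_and, b_le, n_add, n_mul, n_pow, n_succ] at h
  obtain ⟨h1, h2, h3, h4⟩ := h
  have e1 : C.cM26 = 67108863 := rfl
  have e2 : C.cLu = 70368745226240 := rfl
  obtain ⟨A, a1, a2⟩ := sc_snd (n := 4096) fE_zero h4 (by rw [e2]; omega) (by omega)
  rw [fE_enc1 (by omega) (by omega)] at a1
  exact ⟨A, _, a2, a1, (H.win b0 (by omega) h1 h2).1, fun g h hg => H.emit1 b0 h1 h2 hg⟩

theorem em1_snd {r sl su e d tot pi AE : ℕ} {k : ℕ → Bool} {R : MS}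
    (h : C.em1 r sl su tot AE k = true) (H : Sm sl su e d tot pi R) :
    ∃ A c, k A = true ∧ dsum fE 4096 A = dsum fE 4096 AE + c ∧ WF (wq 5800) R ∧
      ∀ g h, g < h → lenI (wq h) (wq g) R ≤ IC c g h := by
  unfold C.em1 at h
  exact em1b_snd h H (Nat.le_add_left _ _) (Nat.add_le_add_right (land_le _ _) _) (land_le _ _)

theorem em2c_snd {r p q sl su e d tot pi AE : ℕ} {k : ℕ → Bool} {R : MS}
    (h : C.em2c r p q sl su e d (524288 + d * 2 ^ 20 + e * 2 ^ 46) AE k = true)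
    (H : Sm sl su e d tot pi R) (b0 : 5800 ≤ p) (b1 : p < q) (b2 : q < 2 ^ 17) :
    ∃ A c, k A = true ∧ dsum fE 4096 A = dsum fE 4096 AE + c ∧ WF (wq 5800) R ∧
      ∀ g h, g < h → lenI (wq h) (wq g) R ≤ IC c g h := by
  unfold C.em2c at h
  rw [b_and, b_and, b_and, b_and, b_le, b_le, b_le, b_le] at h
  simp only [n_add, n_mul, n_pow] at h
  obtain ⟨h1, h2, h3, h3', h4⟩ := h
  have e1 : C.cM26 = 67108863 := rfl
  obtain ⟨A, a1, a2⟩ := sc_snd (n := 4096) fE_zero h4 (by omega) (Nat.lt_succ_of_le (land_le _ _))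
  unfold C.em2d at a2
  simp only [n_add, n_mul, n_succ] at a2
  obtain ⟨A', a3, a4⟩ := sc_snd (n := 4096) fE_zero a2 (by omega) (Nat.lt_succ_of_le (land_le _ _))
  rw [fE_enc2 (by omega) (by omega)] at a1 a3
  exact ⟨A', _, a4, by rw [a3, a1, add_assoc], (H.win b0 (by omega) h1 h2).1,
    fun g h hg => H.emit2 b0 b1 h1 h2 hg⟩

theorem em2b_snd {r p sl su e d tot pi AE : ℕ} {k : ℕ → Bool} {R : MS}
    (h : C.em2b r p sl su e d AE k = true) (H : Sm sl su e d tot pi R) (b0 : 5800 ≤ p)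
    (b1 : p ≤ 65535 + 5800) :
    ∃ A c, k A = true ∧ dsum fE 4096 A = dsum fE 4096 AE + c ∧ WF (wq 5800) R ∧
      ∀ g h, g < h → lenI (wq h) (wq g) R ≤ IC c g h := by
  unfold C.em2b at h
  have b2 := land_le (Nat.shiftRight r 21) 32767
  simp only [n_add, n_succ, n_shl] at h
  exact em2c_snd h H b0 (by omega) (by omega)

theorem em2_snd {r sl su e d tot pi AE : ℕ} {k : ℕ → Bool} {R : MS}
    (h : C.em2 r sl su e d AE k = true) (H : Sm sl su e d tot pi R) :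
    ∃ A c, k A = true ∧ dsum fE 4096 A = dsum fE 4096 AE + c ∧ WF (wq 5800) R ∧
      ∀ g h, g < h → lenI (wq h) (wq g) R ≤ IC c g h := by
  unfold C.em2 at h
  exact em2b_snd h H (Nat.le_add_left _ _) (Nat.add_le_add_right (land_le _ _) _)

theorem emi_snd {r a m AI : ℕ} {k : ℕ → Bool} (h : C.emi r a m AI k = true) (ha : a < 2 ^ 27)
    (hm : m < 2 ^ 26) : ∃ A, dsum fI 4096 A = dsum fI 4096 AI + items a m ∧ k A = true := by
  simp only [C.emi, n_add, n_and, n_shl] at h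
  have b1 : Nat.shiftRight r 49 &&& 524287 ≤ 524287 := Nat.and_le_right
  have b2 : Nat.shiftRight r 68 &&& 4095 ≤ 4095 := Nat.and_le_right
  obtain ⟨A, a1, a2⟩ := sc_snd (n := 4096) fI_zero h (by omega) (by omega)
  rw [fI_enc (by omega) ha] at a1
  exact ⟨A, a1, a2⟩

section
variable {I0 : MS} {c0 : ℕ → ℕ}

def WW (I0 : MS) (c0 : ℕ → ℕ) (k : C.Stk → ℕ → ℕ → ℕ → Bool) : Prop :=
  ∃ st AI AE pt M, Rz st M ∧ GM M (I0 + dsum fI 4096 AI) (c0 + dsum fE 4096 AE) pt ∧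
    k st AI AE pt = true

variable {r AI AE pt : ℕ} {k : C.Stk → ℕ → ℕ → ℕ → Bool} {st : C.Stk} {M : MS}

theorem reg_snd {R N : MS} {rest : C.Stk} {pi : ℕ} (hN : Rz rest N)
    (G : GM (R + N) (I0 + dsum fI 4096 AI) (c0 + dsum fE 4096 AE) pt) (p : thin R * SR ≤ pi)
    (h : ∃ A c, C.kk k rest AI (pt + pi) A = true ∧ dsum fE 4096 A = dsum fE 4096 AE + c ∧
      WF (wq 5800) R ∧ ∀ g h, g < h → lenI (wq h) (wq g) R ≤ IC c g h) : WW I0 c0 k := by
  obtain ⟨A, c, a1, a2, a3, a4⟩ := h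
  exact ⟨rest, AI, A, pt + pi, N, hN, by rw [a2, ← add_assoc]; exact G.reg a3 a4 p, a1⟩

theorem itm_snd {a m : ℕ} {N : MS} {st' : C.Stk} (hN : Rz st' N)
    (G : GM M (I0 + dsum fI 4096 AI) (c0 + dsum fE 4096 AE) pt) (s : Step M (items a m + N))
    (h : C.emi r a m AI (C.ki k st' AE pt) = true) (ha : a < 2 ^ 27) (hm : m < 2 ^ 26) :
    WW I0 c0 k := by
  obtain ⟨A, a1, a2⟩ := emi_snd h ha hm
  exact ⟨st', A, AE, pt, N, hN, by rw [a1, ← add_assoc]; exact G.step s, a2⟩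

theorem l1_snd (h : C.pop r st (C.l1 r AI AE pt k) = true) (hM : Rz st M)
    (G : GM M (I0 + dsum fI 4096 AI) (c0 + dsum fE 4096 AE) pt) : WW I0 c0 k := by
  obtain ⟨a, b, c, d, rest, L, y, N, k1, k2, k3, k4, k5⟩ := pop_snd h hM
  simp only [C.l1, b_and, b_le] at k1
  have S := sm_hole k2 k3 k1.1
  exact reg_snd k4 (G.step0 k5) S.pi (em1_snd k1.2 S)

theorem l2_snd (h : C.pop r st (C.l2 r AI AE pt k) = true) (hM : Rz st M)
    (G : GM M (I0 + dsum fI 4096 AI) (c0 + dsum fE 4096 AE) pt) : WW I0 c0 k := by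
  obtain ⟨a, b, c, d, rest, L, y, N, k1, k2, k3, k4, k5⟩ := pop_snd h hM
  simp only [C.l2, b_and, b_le] at k1
  have S := sm_hole k2 k3 k1.1
  exact reg_snd k4 (G.step0 k5) S.pi (em2_snd k1.2 S)

theorem k1_snd (h : C.smy st (C.k1 r AI AE pt k) = true) (hM : Rz st M)
    (G : GM M (I0 + dsum fI 4096 AI) (c0 + dsum fE 4096 AE) pt) : WW I0 c0 k := by
  obtain ⟨sl, su, e, d, n, pi, rest, R, N, k1, S, k2, rfl⟩ := smy_snd h hM
  exact reg_snd k2 G S.pi (em1_snd k1 S)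

theorem k2_snd (h : C.smy st (C.k2 r AI AE pt k) = true) (hM : Rz st M)
    (G : GM M (I0 + dsum fI 4096 AI) (c0 + dsum fE 4096 AE) pt) : WW I0 c0 k := by
  obtain ⟨sl, su, e, d, n, pi, rest, R, N, k1, S, k2, rfl⟩ := smy_snd h hM
  exact reg_snd k2 G S.pi (em2_snd k1 S)

theorem le_of_SR {x y : ℝ} (h : x * SR ≤ y * SR) : x ≤ y := le_of_mul_le_mul_right h SR_pos

theorem oh3_snd {a o t sb su Ll Lh yl yh : ℕ} {rest : C.Stk} {L y : ℝ} {N : MS}
    (e1 : C.oh3 r AI AE pt k a o t sb su Ll Lh yl yh rest = true) (k2 : In Ll Lh L) (k3 : In yl yh y)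
    (k4 : Rz rest N) (k5 : Step M ({(L, y)} + N))
    (G : GM M (I0 + dsum fI 4096 AI) (c0 + dsum fE 4096 AE) pt) (ha : 0 < a) (b1 : a ≤ 67108863 + 1)
    (b2 : o ≤ 1) (b3 : t ≤ 131071)
    (s1 : (sb : ℝ) ≤ (cH a t + (if o ≠ 0 then 1 / ((a + 2 * t : ℕ) : ℝ) else vR (a + 2 * t))) * SR)
    (s2 : (cH a t + (if o ≠ 0 then 1 / ((a + 2 * t : ℕ) : ℝ) else vR (a + 2 * t))) * SR ≤ su) :
    WW I0 c0 k := by
  have a0 : (0 : ℝ) < a := by exact_mod_cast ha
  unfold C.oh3 at e1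
  rw [b_and, b_and, b_le, b_le] at e1
  obtain ⟨c1, c2, c3⟩ := e1
  simp only [n_mul, n_succ] at c2
  have c1' : (su : ℝ) ≤ Ll := by exact_mod_cast c1
  have d1 := le_of_SR (s2.trans (c1'.trans k2.1))
  have d2 : 1 / ((a : ℝ) + 1) ≤ y := by
    have : SR ≤ yl * ((a : ℝ) + 1) := by unfold SR; exact_mod_cast c2
    rw [div_le_iff₀ (by linarith)]
    refine le_of_SR ?_
    nlinarith [k3.1]
  have d3 : Rz (.hole (Ll - su) (Lh - sb) yl yh (.fh a o t yl yh rest)) _ :=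
    ⟨_, y, _, k2.sub s1 s2 d1, k3, ⟨y, N, ha, k3, d2, k4, rfl⟩, rfl⟩
  refine itm_snd (a := a) (m := 2 * t + 2 - o) d3 G
    (k5.trans (((step_rowH0 ha d2 t o b2 d1).add_right N).trans (Step.of_eq ?_))) c3
    (by omega) (by omega)
  abel

theorem oh1_snd {a o t Ll Lh yl yh : ℕ} {rest : C.Stk} {L y : ℝ} {N : MS}
    (k1 : C.oh1 r AI AE pt k a o t Ll Lh yl yh rest = true) (k2 : In Ll Lh L) (k3 : In yl yh y)
    (k4 : Rz rest N) (k5 : Step M ({(L, y)} + N))
    (G : GM M (I0 + dsum fI 4096 AI) (c0 + dsum fE 4096 AE) pt) (ha : 0 < a) (b1 : a ≤ 67108863 + 1)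
    (b2 : o ≤ 1) (b3 : t ≤ 131071) : WW I0 c0 k := by
  have a0 : (0 : ℝ) < a := by exact_mod_cast ha
  obtain ⟨sb, e1, s1, s2⟩ : ∃ sb, C.oh2 r AI AE pt k a o t sb Ll Lh yl yh rest = true ∧
      (sb : ℝ) ≤ (cH a t + (if o ≠ 0 then 1 / ((a + 2 * t : ℕ) : ℝ) else vR (a + 2 * t))) * SR ∧
      (cH a t + (if o ≠ 0 then 1 / ((a + 2 * t : ℕ) : ℝ) else vR (a + 2 * t))) * SR ≤
        ((sb + C.er a (2 * t) : ℕ) : ℝ) := by
    have i1 := inv_in ha
    have i2 := hs_spec 2 20 (a + 2) t (by omega) (by omega)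
    have i3 := inv_in (show 0 < a + 2 * t + 2 by omega)
    have i4 := er_spec (2 * t) ha
    have i5 := cH_Hs (a := a) t
    have i6 : (t : ℝ) * (((a + 2 : ℕ) : ℝ) + C.cE) / ((a + 2 : ℕ) : ℝ) ≤ t * (a + C.cE) / a := by
      rw [mul_div_assoc, mul_div_assoc]
      refine mul_le_mul_of_nonneg_left ?_ (Nat.cast_nonneg t)
      push_cast
      rw [div_le_div_iff₀ (by linarith) a0]
      nlinarith [Nat.cast_nonneg (α := ℝ) C.cE]
    have i7 : ((2 * t : ℕ) : ℝ) * (a + C.cE) / a = 2 * (t * (a + C.cE) / a) := by push_cast; ring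
    refine ⟨_, k1, ?_⟩
    interval_cases o
    · have e : (cH a t + (if (0 : ℕ) ≠ 0 then 1 / ((a + 2 * t : ℕ) : ℝ) else vR (a + 2 * t))) * SR =
          1 / (a : ℝ) * SR + 2 * (Hs (a + 2) t 2 * SR) + 1 / ((a + 2 * t + 2 : ℕ) : ℝ) * SR := by
        rw [if_neg (by simp), vR, ← add_assoc, i5]; push_cast; ring
      rw [e]
      change ((C.cS / a + 2 * C.hs 2 20 (a + 2) t + C.cS / (a + 2 * t + 2) : ℕ) : ℝ) ≤ _ ∧
        _ ≤ ((C.cS / a + 2 * C.hs 2 20 (a + 2) t + C.cS / (a + 2 * t + 2) + C.er a (2 * t) : ℕ) : ℝ)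
      simp only [Nat.cast_add (C.cS / a + _ + _), Nat.cast_add (C.cS / a + _), Nat.cast_add (C.cS / a),
        Nat.cast_mul 2 (C.hs _ _ _ _), Nat.cast_ofNat]
      constructor <;> linarith [i1.1, i1.2, i2.1, i2.2, i3.1, i3.2]
    · have e : (cH a t + (if (1 : ℕ) ≠ 0 then 1 / ((a + 2 * t : ℕ) : ℝ) else vR (a + 2 * t))) * SR =
          1 / (a : ℝ) * SR + 2 * (Hs (a + 2) t 2 * SR) := by
        rw [if_pos (by simp), i5]; ring
      rw [e]
      change ((C.cS / a + 2 * C.hs 2 20 (a + 2) t : ℕ) : ℝ) ≤ _ ∧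
        _ ≤ ((C.cS / a + 2 * C.hs 2 20 (a + 2) t + C.er a (2 * t) : ℕ) : ℝ)
      simp only [Nat.cast_add (C.cS / a + _), Nat.cast_add (C.cS / a),
        Nat.cast_mul 2 (C.hs _ _ _ _), Nat.cast_ofNat]
      constructor <;> linarith [i1.1, i1.2, i2.1, i2.2]
  unfold C.oh2 at e1
  exact oh3_snd e1 k2 k3 k4 k5 G ha b1 b2 b3 s1 s2

theorem oh_snd (h : C.oh r st AI AE pt k = true) (hM : Rz st M)
    (G : GM M (I0 + dsum fI 4096 AI) (c0 + dsum fE 4096 AE) pt) : WW I0 c0 k := by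
  unfold C.oh at h
  obtain ⟨Ll, Lh, yl, yh, rest, L, y, N, k1, k2, k3, k4, k5⟩ := pop_snd h hM
  exact oh1_snd k1 k2 k3 k4 k5 G (Nat.succ_pos _) (Nat.succ_le_succ (land_le _ _)) (land_le _ _)
    (land_le _ _)

theorem al_snd {a p K Ll Lh yl yh : ℕ} {L y : ℝ} {k : C.Stk → Bool} (ha : 0 < a) (hp : p ≤ 7)
    (hK : K ≤ 2 ^ 20) (h1 : In Ll Lh L) (h2 : In yl yh y) (hL : Hs (a + 1) K (2 * (p + 1)) ≤ L)
    (n : ℕ) : ∀ (l ac : ℕ) st, l + n = p → (ac : ℝ) ≤ cH a l * SR → cH a l * SR ≤ ac + 2 * l →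
      C.al (2 * (p + 1)) K (C.er a K) Ll Lh yl yh k n (a + 2 * l) ac st = true →
      cH a (p + 1) ≤ y ∧ ∃ st', k st' = true ∧ ∀ N, Rz st N → Rz st'
        (∑ l ∈ Ico l p, ({(L - Hs (a + 2 * l + 1) K (2 * (p + 1)), vR (a + 2 * l))} : MS) +
          {(L - Hs (a + 2 * p + 1) K (2 * (p + 1)), y - cH a p)} + N) := by
  have w : ∀ l, In (Ll - (C.hs (2 * (p + 1)) 20 (a + 2 * l + 1) K + C.er a K))
      (Lh - C.hs (2 * (p + 1)) 20 (a + 2 * l + 1) K) (L - Hs (a + 2 * l + 1) K (2 * (p + 1))) := by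
    intro l
    have := hs_in (2 * (p + 1)) ha (show a ≤ a + 2 * l + 1 by omega) hK
    exact h1.sub this.1 this.2 ((Hs_anti _ _ (by omega) (by omega)).trans hL)
  induction n with
  | zero =>
    intro l ac st e b1 b2 h
    obtain rfl : l = p := by omega
    simp only [C.al, Nat.rec_zero, b_and, b_le, n_add] at h
    have i := vv_in (show 0 < a + 2 * l by omega)
    have c1 : (ac : ℝ) + C.vv (a + 2 * l) + 16 ≤ yl := by exact_mod_cast h.1
    have l7 : (l : ℝ) ≤ 7 := by exact_mod_cast hp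
    have c2 : cH a (l + 1) ≤ y := le_of_SR (by rw [cH_succ]; linarith [h2.1, i.2])
    refine ⟨c2, _, h.2, fun N hN => ⟨_, _, N, w l,
      h2.sub (d := ac + 16) b1 (by push_cast; linarith) ?_, hN, by simp⟩⟩
    linarith [cH_succ a l, vR_pos (show 0 < a + 2 * l by omega)]
  | succ n ih =>
    intro l ac st e b1 b2 h
    have i := vv_in (show 0 < a + 2 * l by omega)
    obtain ⟨c1, st', c2, c3⟩ := ih (l + 1) (ac + C.vv (a + 2 * l)) _ (by omega)
      (by rw [cH_succ]; push_cast; linarith [i.1]) (by rw [cH_succ]; push_cast; linarith [i.2]) h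
    refine ⟨c1, st', c2, fun N hN => ?_⟩
    have := c3 _ ⟨_, vR (a + 2 * l), N, w l, ⟨i.1, i.2.trans (le_of_eq (by norm_cast))⟩, hN, rfl⟩
    rw [Finset.sum_eq_sum_Ico_succ_bot (by omega)]
    convert this using 1
    abel

theorem oa2_snd {a p t J j K e Ll Lh yl yh : ℕ} {rest : C.Stk} {L y : ℝ} {N : MS}
    (k1 : C.oa2 r AI AE pt k a p t J j K e Ll Lh yl yh rest = true) (hJ : J = p + 1)
    (hj : j = 2 * (p + 1)) (hK : K = t + 1) (he : e = C.er a (t + 1))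
    (k2 : In Ll Lh L) (k3 : In yl yh y)
    (k4 : Rz rest N) (k5 : Step M ({(L, y)} + N))
    (G : GM M (I0 + dsum fI 4096 AI) (c0 + dsum fE 4096 AE) pt) (ha : 0 < a) (b1 : a ≤ 67108863 + 1)
    (b2 : p ≤ 7) (b3 : t ≤ 32767) : WW I0 c0 k := by
  unfold C.oa2 at k1
  rw [b_and, b_le] at k1
  obtain ⟨c1, c2⟩ := k1
  simp only [n_add, n_succ] at c1
  subst hJ hj hK he
  have i := hs_in (2 * (p + 1)) ha (Nat.le_succ a) (show t + 1 ≤ 2 ^ 20 by omega)
  have c1' : ((C.hs (2 * (p + 1)) 20 (a + 1) (t + 1) + C.er a (t + 1) : ℕ) : ℝ) ≤ Ll := by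
    exact_mod_cast c1
  have d1 := le_of_SR (i.2.trans (c1'.trans k2.1))
  obtain ⟨d2, st', d3, d4⟩ := al_snd ha b2 (by omega) k2 k3 d1 p 0 0 _ (by omega) (by simp [cH])
    (by simp [cH]) c2
  have d5 := d4 (gapS a (p + 1) (t + 1) t + (famA a (p + 1) (t + 1) y + N)) (by
    cases p with
    | zero => exact ⟨y, N, ha, by omega, by omega, k3, d2, k4, by simp [gapS, gapC]⟩
    | succ p => exact ⟨_, ha, by omega, by omega, by omega,
        ⟨y, N, ha, by omega, by omega, k3, d2, k4, rfl⟩, rfl⟩)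
  refine itm_snd (a := a) (m := 2 * (p + 1) * (t + 1)) d5 G (k5.trans (((step_rowA ha p t d1 d2).add_right N).trans (Step.of_eq ?_))) d3
    (by omega) (lt_of_le_of_lt (Nat.mul_le_mul (show _ ≤ 16 by omega) (show _ ≤ 32768 by omega))
      (by norm_num))
  rw [Finset.range_eq_Ico]
  abel

theorem oa_snd (h : C.oa r st AI AE pt k = true) (hM : Rz st M)
    (G : GM M (I0 + dsum fI 4096 AI) (c0 + dsum fE 4096 AE) pt) : WW I0 c0 k := by
  unfold C.oa at h
  obtain ⟨Ll, Lh, yl, yh, rest, L, y, N, k1, k2, k3, k4, k5⟩ := pop_snd h hM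
  unfold C.oa1 at k1
  exact oa2_snd k1 rfl rfl rfl rfl k2 k3 k4 k5 G (Nat.succ_pos _) (Nat.succ_le_succ (land_le _ _)) (land_le _ _)
    (land_le _ _)

theorem oc_snd (h : C.oc r st AI AE pt k = true) (hM : Rz st M)
    (G : GM M (I0 + dsum fI 4096 AI) (c0 + dsum fE 4096 AE) pt) : WW I0 c0 k := by
  obtain ⟨Ll, Lh, yl, yh, rest, L, y, N, k1, k2, k3, k4, k5⟩ := pop_snd h hM
  generalize Nat.shiftLeft _ _ = W at k1
  simp only [C.oc1, b_and, b_le] at k1
  obtain ⟨c1, c2⟩ := k1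
  rw [b_ite] at c2
  have e : (W : ℝ) / SR * SR = W := div_mul_cancel₀ _ SR_pos.ne'
  have i1 : In W W (W / SR) := ⟨e.ge, e.le⟩
  have c1' : (W : ℝ) ≤ Ll := by exact_mod_cast c1
  have d1 : W / SR ≤ L := le_of_SR (by linarith [k2.1])
  have i2 := k2.sub e.ge e.le d1
  have s := G.step0 (k5.trans ((step_cut i1.nonneg d1).add_right N))
  split_ifs at c2
  · refine ⟨_, AI, AE, pt, _, ?_, s, c2⟩
    exact ⟨_, y, _, i1, k3, ⟨_, y, N, i2, k3, k4, rfl⟩, add_assoc _ _ _⟩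
  · refine ⟨_, AI, AE, pt, _, ?_, s, c2⟩
    exact ⟨_, y, _, i2, k3, ⟨_, y, N, i1, k3, k4, rfl⟩, by abel⟩

theorem in_eq {a b c : ℕ} {x : ℝ} (h : In a b x) (h1 : a * c = C.cS) (h2 : b * c = C.cS) :
    x = 1 / (c : ℝ) := by
  have e1 : (a : ℝ) * c = SR := by unfold SR; exact_mod_cast h1
  have e2 : (b : ℝ) * c = SR := by unfold SR; exact_mod_cast h2
  have c0 : (0 : ℝ) ≤ c := Nat.cast_nonneg c
  have := mul_le_mul_of_nonneg_right h.1 c0
  have := mul_le_mul_of_nonneg_right h.2 c0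
  have : x * c = 1 := le_antisymm (le_of_SR (by linarith)) (le_of_SR (by linarith))
  exact eq_one_div_of_mul_eq_one_left this

theorem of_snd (h : C.of0 r st AI AE pt k = true) (hM : Rz st M)
    (G : GM M (I0 + dsum fI 4096 AI) (c0 + dsum fE 4096 AE) pt) : WW I0 c0 k := by
  obtain ⟨Ll, Lh, yl, yh, rest, L, y, N, k1, k2, k3, k4, k5⟩ := pop_snd h hM
  have b1 : Nat.land (Nat.shiftRight r 23) C.cM26 ≤ 67108863 := Nat.and_le_right
  simp only [n_succ] at k1
  generalize Nat.land (Nat.shiftRight r 23) C.cM26 = a' at *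
  simp only [C.of1, b_and, b_eq, n_mul, n_succ] at k1
  obtain ⟨c1, c2, c3, c4, c5⟩ := k1
  refine itm_snd k4 G (k5.trans (Step.add_right ?_ N)) c5 (by omega) (by omega)
  rw [in_eq k2 c1 c2, in_eq k3 c3 c4, items_one, item, Nat.cast_succ (a' + 1)]
  exact step_rot _ _

theorem gl_snd {a b j n K : ℕ} {k : C.Stk → Bool} (ha : 0 < a) (hb : a ≤ b) (hn : n ≤ K)
    (hK : K ≤ 2 ^ 20) (f : ℕ) : ∀ (l u v : ℕ) st, l + f ≤ 8 → (u : ℝ) ≤ cH b l * SR →
      cH b l * SR ≤ u + 2 * l → (v : ℝ) ≤ cH (b + j) l * SR → cH (b + j) l * SR ≤ v + 2 * l →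
      C.gl j n (C.er a K) k f (b + 2 * l) u v st = true →
      ∃ st', k st' = true ∧ ∀ N, Rz st N → Rz st'
        (∑ l ∈ Ico l (l + f), ({(gX (b + 2 * l) j n, gY b j (l + 1))} : MS) + N) := by
  induction f with
  | zero => intro l u v st _ _ _ _ _ h; exact ⟨st, h, fun N hN => by simpa using hN⟩
  | succ f ih =>
    intro l u v st e b1 b2 b3 b4 h
    have i1 := vv_in (show 0 < b + 2 * l by omega)
    have i2 := vv_in (show 0 < b + 2 * l + j by omega)
    have e1 := cH_succ b l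
    have e2 := cH_succ (b + j) l
    rw [add_right_comm b j] at e2
    have l7 : (l : ℝ) ≤ 7 := by exact_mod_cast (by omega : l ≤ 7)
    obtain ⟨st', c2, c3⟩ := ih (l + 1) (u + C.vv (b + 2 * l)) (v + C.vv (b + 2 * l + j)) _ (by omega)
      (by rw [e1]; push_cast; linarith [i1.1]) (by rw [e1]; push_cast; linarith [i1.2])
      (by rw [e2]; push_cast; linarith [i2.1]) (by rw [e2]; push_cast; linarith [i2.2]) h
    refine ⟨st', c2, fun N hN => ?_⟩
    have m : (C.er a n : ℝ) ≤ C.er a K := by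
      exact_mod_cast Nat.add_le_add_right (Nat.div_le_div_right (Nat.mul_le_mul_right _ hn)) 3
    have j1 := hs_in j ha (show a ≤ b + 2 * l + j + 1 by omega) (hn.trans hK)
    have j2 := hs_in j ha (show a ≤ b + 2 * l + j + 3 by omega) (hn.trans hK)
    push_cast at j1 j2
    have x1 : In (C.hs j 20 (b + 2 * l + j + 1) n) (C.hs j 20 (b + 2 * l + j + 1) n + C.er a K)
      (Hs (b + 2 * l + j + 1) n j) := ⟨j1.1, by push_cast; linarith [j1.2]⟩
    have x2 : In (u + C.vv (b + 2 * l)) (u + C.vv (b + 2 * l) + 16) (cH b (l + 1)) :=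
      ⟨by rw [e1]; push_cast; linarith [i1.1], by rw [e1]; push_cast; linarith [i1.2]⟩
    have := c3 _ ⟨gX (b + 2 * l) j n, gY b j (l + 1), N,
      x1.sub (d := C.hs j 20 (b + 2 * l + j + 3) n + C.er a K) j2.1 (by push_cast; linarith [j2.2])
        (Hs_anti _ _ (by omega) (by omega)),
      x2.sub (c := v + C.vv (b + 2 * l + j)) (d := v + C.vv (b + 2 * l + j) + 16)
        (by rw [e2]; push_cast; linarith [i2.1]) (by rw [e2]; push_cast; linarith [i2.2])
        (cH_anti _ (by omega) (by omega)), hN, rfl⟩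
    rw [Finset.sum_eq_sum_Ico_succ_bot (by omega), show l + (f + 1) = l + 1 + f by omega]
    convert this using 1
    abel

theorem ox_snd (h : C.ox st AI AE pt k = true) (hM : Rz st M)
    (G : GM M (I0 + dsum fI 4096 AI) (c0 + dsum fE 4096 AE) pt) : WW I0 c0 k := by
  cases st with
  | nil => exact absurd h (by simp [C.ox])
  | hole => exact absurd h (by simp [C.ox])
  | fh => exact absurd h (by simp [C.ox])
  | fa => exact absurd h (by simp [C.ox])
  | gp a J K i rest =>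
    obtain ⟨N, ha, hJ, hi, hK, hN, rfl⟩ := hM
    cases i with
    | zero => exact ⟨rest, AI, AE, pt, N, hN, by simpa [gapS] using G, h⟩
    | succ i =>
      obtain ⟨st', c1, c2⟩ := gl_snd (b := a + 2 * J * i) (j := 2 * J) (n := K - (i + 1)) ha
        (by omega) (by omega) hK (J - 1) 0 0 0 _ (by omega) (by simp [cH]) (by simp [cH])
        (by simp [cH]) (by simp [cH]) h
      have c3 : Rz (.gp a J K i rest) _ := ⟨N, ha, hJ, by omega, hK, hN, rfl⟩
      refine ⟨st', AI, AE, pt, _, c2 _ c3, G.step0 (Step.of_eq ?_), c1⟩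
      rw [gapS, Finset.sum_range_succ, ← gapS, gapC, zero_add, Finset.range_eq_Ico]
      abel

theorem og1_snd {a j J K Z i : ℕ} {rest : C.Stk} {N : MS}
    (h : C.og1 AI AE pt k a j K Z rest = true) (hj : j = 2 * J) (hZ : Z = 2 * K + (2 * J) ^ 2)
    (ha : 0 < a) (hi : i < K) (hN : Rz rest N)
    (G : GM (gapS a J K i + N) (I0 + dsum fI 4096 AI) (c0 + dsum fE 4096 AE) pt) : WW I0 c0 k := by
  unfold C.og1 at h
  rw [b_and, b_and, b_le, b_le] at h
  simp only [n_add, n_mul, n_pow, n_succ, n_div] at h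
  subst hj hZ
  obtain ⟨Pc, p1, p2, p3⟩ := close_gaps ha hi (by rw [mul_comm]; exact h.1)
    (by rw [mul_comm]; exact h.2.1)
  exact ⟨rest, AI, AE, _, N, hN, G.irr p1 p2 p3, by rw [← add_assoc]; exact h.2.2⟩

theorem og_snd (h : C.og st AI AE pt k = true) (hM : Rz st M)
    (G : GM M (I0 + dsum fI 4096 AI) (c0 + dsum fE 4096 AE) pt) : WW I0 c0 k := by
  cases st with
  | nil => exact absurd h (by simp [C.og])
  | hole => exact absurd h (by simp [C.og])
  | fh => exact absurd h (by simp [C.og])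
  | fa => exact absurd h (by simp [C.og])
  | gp a J K i rest =>
    obtain ⟨N, ha, hJ, hi, hK, hN, rfl⟩ := hM
    exact og1_snd h rfl rfl ha hi hN G

theorem lp_snd (f : ℕ) : ∀ {rem AI AE pt : ℕ} {st : C.Stk} {M : MS},
    C.lp k f rem st AI AE pt = true → Rz st M →
    GM M (I0 + dsum fI 4096 AI) (c0 + dsum fE 4096 AE) pt → WW I0 c0 k := by
  induction f with
  | zero => intro rem AI AE pt st M h; exact absurd h (by simp [C.lp])
  | succ f ih =>
    intro rem AI AE pt st M h hM G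
    have nx : ∀ rem, WW I0 c0 (C.lp k f rem) → WW I0 c0 k := by
      rintro rem ⟨st, AI, AE, pt, M, a1, a2, a3⟩
      exact ih a3 a1 a2
    change C.disp k (C.lp k f) rem (Nat.land rem C.cM80) st AI AE pt = true at h
    generalize Nat.land rem C.cM80 = r at h
    unfold C.disp at h
    generalize Nat.land r (nat_lit 15) = n at h
    rcases n with _ | _ | _ | _ | _ | _ | _ | _ | _ | _ | n
    · exact ⟨st, AI, AE, pt, M, hM, G, h⟩
    · exact nx _ (l1_snd h hM G)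
    · exact nx _ (oh_snd h hM G)
    · exact nx _ (k2_snd h hM G)
    · exact nx _ (k1_snd h hM G)
    · exact nx _ (oa_snd h hM G)
    · exact nx _ (oc_snd h hM G)
    · exact nx _ (og_snd h hM G)
    · exact nx _ (l2_snd h hM G)
    · exact nx _ (ox_snd h hM G)
    · exact nx _ (of_snd h hM G)

theorem run_snd (l : List ℕ) : WW I0 c0 (C.run k l) → WW I0 c0 k := by
  induction l with
  | nil => exact id
  | cons x l ih =>
    rintro ⟨st, AI, AE, pt, M, a1, a2, a3⟩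
    have e : C.run k (x :: l) = C.lp (C.run k l) (nat_lit 4000) x := rfl
    rw [e] at a3
    exact ih (lp_snd _ a3 a1 a2)
end

theorem eqs_snd (s : C.Stk) : ∀ u, C.eqs s u = true → s = u := by
  induction s with
  | nil => intro u h; cases u <;> first | rfl | exact absurd h (by simp [C.eqs])
  | hole a b c d r ih =>
    intro u h
    cases u with
    | hole =>
      simp only [C.eqs, b_and, b_eq] at h
      obtain ⟨rfl, rfl, rfl, rfl, h⟩ := h
      rw [ih _ h]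
    | _ => exact absurd h (by simp [C.eqs])
  | fh a b c d e r ih =>
    intro u h
    cases u with
    | fh =>
      simp only [C.eqs, b_and, b_eq] at h
      obtain ⟨rfl, rfl, rfl, rfl, rfl, h⟩ := h
      rw [ih _ h]
    | _ => exact absurd h (by simp [C.eqs])
  | fa a b c d e r ih =>
    intro u h
    cases u with
    | fa =>
      simp only [C.eqs, b_and, b_eq] at h
      obtain ⟨rfl, rfl, rfl, rfl, rfl, h⟩ := h
      rw [ih _ h]
    | _ => exact absurd h (by simp [C.eqs])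
  | gp a b c d r ih =>
    intro u h
    cases u with
    | gp =>
      simp only [C.eqs, b_and, b_eq] at h
      obtain ⟨rfl, rfl, rfl, rfl, h⟩ := h
      rw [ih _ h]
    | _ => exact absurd h (by simp [C.eqs])

noncomputable def LS {α : Type} [AddCommMonoid α] (f : ℕ → α) : List ℕ → α
  | [] => 0
  | K :: l => LS f l + dsum f 4096 K

/-- the state of the finite packing between two chunks of the certificate -/
def Good (st : C.Stk) (pt : ℕ) (li le : List ℕ) : Prop :=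
  ∃ M, Rz st M ∧ GM M (LS fI li) (LS fE le) pt

theorem chunk_snd {l : List ℕ} {s0 s1 : C.Stk} {p0 I1 E1 p1 : ℕ}
    (h : C.chunk l s0 p0 s1 I1 E1 p1 = true) {li le : List ℕ} (G : Good s0 p0 li le) :
    Good s1 p1 (I1 :: li) (E1 :: le) := by
  obtain ⟨M, a1, a2⟩ := G
  obtain ⟨st, AI, AE, pt, M', b1, b2, b3⟩ := run_snd (I0 := LS fI li) (c0 := LS fE le) l
    ⟨s0, 0, 0, p0, M, a1, by rwa [dsum_zero fI_zero, dsum_zero fE_zero, add_zero, add_zero], h⟩
  simp only [C.fin, b_and, b_eq] at b3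
  obtain ⟨rfl, rfl, rfl, b3⟩ := b3
  obtain rfl := eqs_snd _ _ b3
  exact ⟨M', b1, b2⟩

theorem good_init : Good (.hole C.cS C.cS C.cS C.cS .nil) 0 [] [] := by
  have : In C.cS C.cS 1 := ⟨by simp [SR], by simp [SR]⟩
  refine ⟨_, ⟨1, 1, 0, this, this, rfl, rfl⟩, 0, 0, Step.of_eq (by simp [LS]), WF.zero _,
    fun g h _ => ?_, by simp [PcOK], by simp [thin, len]⟩
  simp [lenI, LS, IC_zero]

end Pool.Agent.MP_f14165_co

end

section

set_option autoImplicit false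

namespace Pool.Agent.MP_f14165_co
open Finset

noncomputable def LO {α : Type} [AddCommMonoid α] (f : ℕ → α) : List ℕ → ℕ → α
  | [], _ => 0
  | K :: l, o => LO f l (o / 2 ^ 12) + dsum f (o % 2 ^ 12) K

theorem land_mod (x n m : ℕ) (h : m = 2 ^ n - 1) : Nat.land x m = x % 2 ^ n := and_mask x n m h

section
variable {α : Type} [AddCommMonoid α] {f : ℕ → α}

theorem LO_zero (l : List ℕ) : LO f l 0 = 0 := by
  induction l with
  | nil => rfl
  | cons K l ih => rw [LO, Nat.zero_div, Nat.zero_mod, ih, dsum, add_zero]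

theorem done_snd (f0 : f 0 = 0) (l : List ℕ) : ∀ o, C.done l o = true → LO f l o = LS f l := by
  induction l with
  | nil => intro o _; rfl
  | cons K l ih =>
    intro o h
    have e : C.done (K :: l) o = @Bool.rec (fun _ => Bool) false (C.done l (Nat.shiftRight o 12))
      (Nat.beq (Nat.shiftRight K (Nat.mul 72 (Nat.land o 4095))) 0) := rfl
    rw [e, b_and, b_eq, land_mod o 12 4095 rfl, n_shr, n_shr, n_mul] at h
    have h1 : o % 2 ^ 12 + (4096 - o % 2 ^ 12) = 4096 := by omega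
    rw [LO, LS, ih _ h.2, ← h1, dsum_add, h.1, dsum_zero f0, add_zero]

variable {Inv : ℕ → α → ℕ → Prop} {g : ℕ → ℕ → (ℕ → Bool) → Bool}

theorem il_snd (hs : ∀ c x A key k, c < 2 ^ 20 → key < 2 ^ 72 → Inv c x A → g key A k = true →
      ∃ A', Inv (c + 1) (x + f key) A' ∧ k A' = true) {k : ℕ → Bool} (n : ℕ) :
    ∀ X A c x, c + n ≤ 2 ^ 20 → Inv c x A → C.il g k n X A = true →
      ∃ A', Inv (c + n) (x + dsum f n X) A' ∧ k A' = true := by
  induction n with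
  | zero => intro X A c x _ h1 h2; exact ⟨A, by rwa [dsum, add_zero, add_zero], h2⟩
  | succ n ih =>
    intro X A c x h0 h1 h2
    have e : C.il g k (n + 1) X A =
      g (Nat.land X C.cM72) A (C.il g k n (Nat.shiftRight X 72)) := rfl
    rw [e, land_mod X 72 C.cM72 rfl, n_shr] at h2
    obtain ⟨A1, a1, a2⟩ := hs _ _ _ _ _ (by omega) (Nat.mod_lt _ (by positivity)) h1 h2
    obtain ⟨A2, a3, a4⟩ := ih _ _ _ _ (by omega) a1 a2
    exact ⟨A2, by rwa [dsum, ← add_assoc x, add_comm n 1, ← add_assoc c], a4⟩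

theorem ga1_snd (hs : ∀ c x A key k, c < 2 ^ 20 → key < 2 ^ 72 → Inv c x A → g key A k = true →
      ∃ A', Inv (c + 1) (x + f key) A' ∧ k A' = true) {ih : ℕ → ℕ → ℕ → ℕ → Bool}
    {K o u o1 u1 c c' A : ℕ} {x : α} (h : C.ga1 g ih K o u o1 u1 c' A = true)
    (hc : c' = c + (u1 - o1)) (h1 : Inv c x A) :
    ∃ A' y, Inv c' (x + y) A' ∧ dsum f u1 K = dsum f o1 K + y ∧
      ih (o / 2 ^ 12) (u / 2 ^ 12) c' A' = true := by
  unfold C.ga1 at h
  rw [b_and, b_and, b_le, b_le] at h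
  obtain ⟨b1, b2, b3⟩ := h
  unfold C.ga2 at b3
  rw [n_shr, n_shr, n_shr, n_shl, n_mul, n_mul, n_sub, n_sub] at b3
  rw [land_mod _ (72 * (u1 - o1)) _ (by simp)] at b3
  have b4 : c' ≤ 1048576 := b2
  obtain ⟨A', a1, a2⟩ := il_snd hs _ _ _ _ _ (by omega) h1 b3
  refine ⟨A', _, by rwa [hc], ?_, a2⟩
  rw [dsum_mod, ← dsum_add]
  congr 1; omega

theorem ga_snd (hs : ∀ c x A key k, c < 2 ^ 20 → key < 2 ^ 72 → Inv c x A → g key A k = true →
      ∃ A', Inv (c + 1) (x + f key) A' ∧ k A' = true) {k : ℕ → Bool} (l : List ℕ) :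
    ∀ o u c A x, Inv c x A → C.ga g k l o u c A = true →
      ∃ c' A' y, Inv c' (x + y) A' ∧ LO f l u = LO f l o + y ∧ k A' = true := by
  induction l with
  | nil => intro o u c A x h1 h2; exact ⟨c, A, 0, by rwa [add_zero], by simp [LO], h2⟩
  | cons K l ih =>
    intro o u c A x h1 h2
    have e : C.ga g k (K :: l) o u c A = C.ga1 g (C.ga g k l) K o u (Nat.land o 4095)
      (Nat.land u 4095) (Nat.add c (Nat.sub (Nat.land u 4095) (Nat.land o 4095))) A := rfl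
    rw [e, land_mod o 12 4095 rfl, land_mod u 12 4095 rfl] at h2
    obtain ⟨A1, y, a1, a2, a3⟩ := ga1_snd hs h2 rfl h1
    obtain ⟨c', A2, y', a4, a5, a6⟩ := ih _ _ _ _ _ a1 a3
    refine ⟨c', A2, y + y', by rwa [← add_assoc], ?_, a6⟩
    rw [LO, LO, a2, a5]; abel
end

noncomputable def IT (T : ℕ) : MS := ∑ j ∈ Ico 1 T, ({item j} : MS)

theorem tl_snd {T1 : ℕ} (n W : ℕ) : ∀ A T, 1 ≤ T → C.tl T1 W A T = true →
    1 ≤ T1 ∧ IT T + dsum fI (n + W) A = IT T1 := by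
  induction W with
  | zero =>
    intro A T h1 h2
    have e : C.tl T1 0 A T = @Bool.rec (fun _ => Bool) false (Nat.beq T T1) (Nat.beq A 0) := rfl
    rw [e, b_and, b_eq, b_eq] at h2
    obtain ⟨rfl, rfl⟩ := h2
    exact ⟨h1, by rw [dsum_zero fI_zero, add_zero]⟩
  | succ W ih =>
    intro A T h1 h2
    have e : C.tl T1 (W + 1) A T = C.tl1 (C.tl T1 W) A T (Nat.land A C.cM72) := rfl
    rw [e, land_mod A 72 C.cM72 rfl] at h2
    unfold C.tl1 at h2
    rw [b_and, b_eq, land_mod _ 27 C.cM27 rfl, n_shr, n_shr, n_shr, n_add] at h2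
    obtain ⟨a1, a2⟩ := ih _ _ (h1.trans (Nat.le_add_right _ _)) h2.2
    refine ⟨a1, ?_⟩
    rw [← a2, ← add_assoc n, dsum, ← add_assoc, fI]
    congr 1
    rw [← h2.1] at h1 ⊢
    exact Finset.sum_Ico_consecutive _ h1 (Nat.le_add_right _ _)

/-- the items `1, …, T - 1` are exactly those met so far -/
def IV (l : List ℕ) (o T : ℕ) : Prop := 1 ≤ T ∧ LO fI l o = IT T

theorem IV_init (l : List ℕ) : IV l 0 1 := ⟨le_rfl, by simp [LO_zero, IT]⟩

theorem bucketI_snd {l : List ℕ} {o u r0 W T0 T1 : ℕ} (h : C.bucketI l o u r0 W T0 T1 = true)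
    (H : IV l o T0) : IV l u T1 := by
  unfold C.bucketI at h
  obtain ⟨c, A, y, a1, a2, a3⟩ := ga_snd (f := fI)
    (Inv := fun _ x A => dsum fI (524288 + W) A = x) (by
      intro c x A key k _ h1 h2 h3
      unfold C.fi at h3
      obtain ⟨A', b1, b2⟩ := sc_snd (n := 524288 + W) fI_zero h3 h1
        (((Nat.sub_le _ _).trans (land_le key 524287)).trans_lt (by omega))
      exact ⟨A', by rw [b1, h2], b2⟩) l o u 0 0 0 (dsum_zero fI_zero _) h
  obtain ⟨b1, b2⟩ := tl_snd 524288 W A T0 H.1 a3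
  exact ⟨b1, by rw [a2, H.2, ← b2, a1, zero_add]⟩

def dg (A p : ℕ) : ℕ := A / 2 ^ (48 * p) % 2 ^ 48

theorem dg_zero (A : ℕ) : dg A 0 = A % 2 ^ 48 := by simp [dg]

theorem dg_add (A p q : ℕ) : dg A (q + p) = dg (A / 2 ^ (48 * q)) p := by
  rw [dg, dg, Nat.div_div_eq_div_mul, ← pow_add, mul_add]

theorem dg_succ (A p : ℕ) : dg A (p + 1) = dg (A / 2 ^ 48) p := by rw [add_comm, dg_add]

theorem dg_inc {z : ℕ} (q : ℕ) : ∀ A p, dg A q + z < 2 ^ 48 →
    dg (A + z * 2 ^ (48 * q)) p = dg A p + sing q z p := by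
  induction q with
  | zero =>
    intro A p h
    rw [dg_zero] at h
    rw [Nat.mul_zero, pow_zero, mul_one]
    cases p with
    | zero => rw [dg_zero, dg_zero, sing, if_pos rfl]; omega
    | succ p =>
      rw [dg_succ, dg_succ, sing, if_neg (by omega), add_zero,
        show (A + z) / 2 ^ 48 = A / 2 ^ 48 by omega]
  | succ q ih =>
    intro A p h
    have e : z * 2 ^ (48 * (q + 1)) = 2 ^ 48 * (z * 2 ^ (48 * q)) := by ring
    rw [e]
    cases p with
    | zero => rw [dg_zero, dg_zero, sing, if_neg (by omega), Nat.add_mul_mod_self_left, add_zero]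
    | succ p =>
      rw [dg_succ] at h
      rw [dg_succ, dg_succ, Nat.add_mul_div_left _ _ (by positivity), ih _ _ h]
      simp only [sing]
      split_ifs <;> omega

def HI (P0 c : ℕ) (x : ℕ → ℕ) (A : ℕ) : Prop :=
  (∀ p, p < P0 → x p = 0) ∧ (∀ p, x p ≤ c * 2 ^ 27) ∧ ∀ p, dg A p = x (P0 + p)

theorem sing_le (P z p : ℕ) : sing P z p ≤ z := by unfold sing; split_ifs <;> omega

theorem hi_add {P0 P A a b u c : ℕ} {x : ℕ → ℕ} (H : HI P0 c x A) (hc : c < 2 ^ 20)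
    (ha : a < 2 ^ 26) (hb : b < 2 ^ 26) (hP : P0 ≤ P) :
    HI P0 (c + 1) (x + (sing P a + sing (P + 1 + u) b))
      (A + (a + b * 2 ^ (48 + 48 * u)) * 2 ^ (48 * (P - P0))) := by
  obtain ⟨h1, h2, h3⟩ := H
  refine ⟨fun p hp => ?_, fun p => ?_, fun p => ?_⟩
  · simp only [Pi.add_apply, sing]
    rw [h1 p hp, if_neg (by omega), if_neg (by omega)]
  · have := h2 p; have := sing_le P a p; have := sing_le (P + 1 + u) b p
    simp only [Pi.add_apply]; omega
  · have e : A + (a + b * 2 ^ (48 + 48 * u)) * 2 ^ (48 * (P - P0)) =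
        A + a * 2 ^ (48 * (P - P0)) + b * 2 ^ (48 * (P - P0 + 1 + u)) := by ring
    have c1 : dg A (P - P0) + a < 2 ^ 48 := by have := h2 (P0 + (P - P0)); rw [h3]; omega
    have c2 : dg (A + a * 2 ^ (48 * (P - P0))) (P - P0 + 1 + u) + b < 2 ^ 48 := by
      have := h2 (P0 + (P - P0 + 1 + u)); have := sing_le (P - P0) a (P - P0 + 1 + u)
      rw [dg_inc _ _ _ c1, h3]; omega
    rw [e, dg_inc _ _ _ c2, dg_inc _ _ _ c1, h3]
    simp only [Pi.add_apply, sing]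
    split_ifs <;> omega

theorem fe_snd {P0 : ℕ} (c : ℕ) (x : ℕ → ℕ) (A key : ℕ) (k : ℕ → Bool) (hc : c < 2 ^ 20)
    (hk : key < 2 ^ 72) (H : HI P0 c x A) (h : C.fe P0 key A k = true) :
    ∃ A', HI P0 (c + 1) (x + fE key) A' ∧ k A' = true := by
  unfold C.fe at h
  rw [land_mod key 19 (nat_lit 524287) rfl] at h
  unfold C.fe1 at h
  rw [b_and, b_le, land_mod _ 26 C.cM26 rfl, land_mod _ 1 (nat_lit 1) rfl] at h
  simp only [n_add, n_mul, n_sub, n_shl, n_shr, pow_one] at h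
  exact ⟨_, hi_add H hc (by omega) (Nat.mod_lt _ (by positivity)) h.1, h.2⟩

end Pool.Agent.MP_f14165_co

end

section

set_option autoImplicit false

namespace Pool.Agent.MP_f14165_co
open Finset

noncomputable def mR : ℝ := 3600000 / 2 ^ 36

noncomputable def DD (c : ℕ → ℕ) (h : ℕ) : ℝ := ∑ i ∈ range h, ((c (4 * i + 2) : ℝ) - c (4 * i + 3))

noncomputable def VV (c : ℕ → ℕ) (g h : ℕ) : ℝ :=
  Eq' mR g + phq (G1 g) + IC c g h + ∑ k ∈ Ico g h, (thq k + capq k - cq k)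

theorem UU_succ (c : ℕ → ℕ) (s h : ℕ) : UU c s (h + 1) =
    UU c s h + (c (4 * h + s) : ℝ) / 2 ^ 36 + DD c (h + 1) * (wq h - wq (h + 1)) := by
  unfold UU DD
  rw [Finset.sum_range_succ, Finset.sum_range_succ, add_mul, Finset.sum_mul]
  have : ∑ i ∈ range h, ((c (4 * i + s) : ℝ) / 2 ^ 36 +
      ((c (4 * i + 2) : ℝ) - c (4 * i + 3)) * (wq i - wq (h + 1))) =
      ∑ i ∈ range h, ((c (4 * i + s) : ℝ) / 2 ^ 36 +
        ((c (4 * i + 2) : ℝ) - c (4 * i + 3)) * (wq i - wq h)) +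
      ∑ i ∈ range h, ((c (4 * i + 2) : ℝ) - c (4 * i + 3)) * (wq h - wq (h + 1)) := by
    rw [← Finset.sum_add_distrib]
    exact Finset.sum_congr rfl fun i _ => by ring
  rw [this]; ring

theorem VV_succ (c : ℕ → ℕ) {g h : ℕ} (hg : g ≤ h) : VV c g (h + 1) =
    VV c g h + (c (4 * h) : ℝ) / 2 ^ 36 + DD c (h + 1) * (wq h - wq (h + 1)) +
      (thq h + capq h - cq h) := by
  unfold VV IC
  rw [Finset.sum_Ico_succ_top hg, UU_succ, add_zero]; ring

theorem IC_succ (c : ℕ → ℕ) (h : ℕ) : IC c (h + 1) (h + 1) =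
    IC c h h + ((c (4 * h) : ℝ) - c (4 * h + 1)) / 2 ^ 36 := by
  unfold IC
  rw [UU_succ, UU_succ, add_zero]; ring

theorem DD_succ (c : ℕ → ℕ) (h : ℕ) : DD c (h + 1) = DD c h + ((c (4 * h + 2) : ℝ) - c (4 * h + 3)) :=
  Finset.sum_range_succ _ _

theorem VV_self (c : ℕ → ℕ) (h : ℕ) : VV c h h = Eq' mR h + phq (G1 h) + IC c h h := by
  simp [VV]

structure SW (c : ℕ → ℕ) (h v O D g1 g2 : ℕ) : Prop where
  h0 : 5800 ≤ h
  hv : ∀ g, 5800 ≤ g → g ≤ h → VV c g h ≤ v / 2 ^ 36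
  ho : IC c h h ≤ O / 2 ^ 36
  hd : DD c h ≤ D
  ok : ∀ g k, 5800 ≤ g → g < k → k ≤ h → VV c g k ≤ cq k + phq (G2 k)
  a1 : g1 ≤ G1 h
  a2 : 5800 ≤ g2

theorem SW.congr {c c' : ℕ → ℕ} {h v O D g1 g2 : ℕ} (H : SW c h v O D g1 g2)
    (e : ∀ p, p < 4 * h → c' p = c p) : SW c' h v O D g1 g2 := by
  have u : ∀ s k, s < 4 → k ≤ h → UU c' s k = UU c s k := fun s k hs hk =>
    Finset.sum_congr rfl fun i hi => by
      have := Finset.mem_range.1 hi
      rw [e _ (by omega), e _ (by omega), e _ (by omega)]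
  have i : ∀ g k, g ≤ k → k ≤ h → IC c' g k = IC c g k := fun g k hg hk => by
    unfold IC; rw [u 0 k (by omega) hk, u 1 g (by omega) (by omega)]
  have w : ∀ g k, g ≤ k → k ≤ h → VV c' g k = VV c g k := fun g k hg hk => by
    unfold VV; rw [i g k hg hk]
  refine ⟨H.h0, fun g a b => by rw [w g h b le_rfl]; exact H.hv g a b,
    by rw [i h h le_rfl le_rfl]; exact H.ho, le_trans (le_of_eq ?_) H.hd,
    fun g k a b d => by rw [w g k b.le d]; exact H.ok g k a b d, H.a1, H.a2⟩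
  exact Finset.sum_congr rfl fun i hi => by
    have := Finset.mem_range.1 hi
    rw [e _ (by omega), e _ (by omega)]

theorem b_if {α : Type} (x y : α) (a b : ℕ) :
    @Bool.rec (fun _ => α) x y (Nat.ble a b) = if a ≤ b then y else x := by
  simp only [b_ite, b_le]

theorem cq_hi {h : ℕ} (hh : 5817 ≤ h) : 3 / ((h : ℝ) + 42) ≤ cq h := by
  have hx : (5817 : ℝ) ≤ h := by exact_mod_cast hh
  have := pow_le_pow_left₀ (by norm_num) (show (5820 : ℝ) ≤ h + 3 by linarith) 3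
  unfold cq
  rw [max_eq_right (by linarith), add_assoc, show (4100 : ℝ) + 73800 = 77900 by norm_num]
  exact p_clo (by linarith)

theorem cq_lo {h : ℕ} (hh : h ≤ 5816) : cq h = (1 - 197137442300 / ((h : ℝ) + 21) ^ 3) / 18 := by
  have hx : (h : ℝ) ≤ 5816 := by exact_mod_cast hh
  have := pow_le_pow_left₀ (by positivity) (show (h : ℝ) + 3 ≤ 5819 by linarith) 3
  unfold cq
  rw [max_eq_left (by linarith)]; norm_num

theorem cl_le {h : ℕ} (hh : 5800 ≤ h) : (C.cl h : ℝ) ≤ cq h * 2 ^ 36 := by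
  have hx : (5800 : ℝ) ≤ h := by exact_mod_cast hh
  unfold C.cl
  rw [b_if]
  simp only [n_add, n_sub, n_mul, n_pow, n_div]
  split_ifs with h1
  · refine (div_lo _ _).trans (le_trans (le_of_eq ?_)
      (mul_le_mul_of_nonneg_right (cq_hi h1) (by positivity)))
    simp only [C.cZ3]; push_cast; ring
  · refine (div_lo _ _).trans (le_of_eq ?_)
    have : 197137442300 ≤ (h + 21) ^ 3 :=
      le_trans (by norm_num) (Nat.pow_le_pow_left (show 5821 ≤ h + 21 by omega) 3)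
    rw [cq_lo (by omega)]
    simp only [C.cZ]; push_cast [Nat.cast_sub this]; field_simp; norm_num

theorem cp_ge (h : ℕ) : capq h * 2 ^ 36 ≤ (C.cp h : ℝ) := by
  unfold C.cp capq
  rw [b_if]
  simp only [n_succ, n_mul, n_div]
  split_ifs with h1
  · rw [Nat.cast_succ]
    refine le_trans (le_of_eq ?_) (div_hi _ _ (by omega))
    simp only [C.cZ12]; push_cast; ring
  · simp

theorem fh_in (g : ℕ) : (C.fh g : ℝ) ≤ phq g * 2 ^ 36 ∧ phq g * 2 ^ 36 ≤ C.fh g + 1 := by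
  have e : phq g * 2 ^ 36 = (C.cF : ℝ) / (((2 * g + 5) ^ 2 : ℕ) : ℝ) := by
    simp only [phq, C.cF]; push_cast; ring
  rw [e]
  exact ⟨div_lo _ _, div_hi _ _ (by positivity)⟩

theorem phq_anti {g g' : ℕ} (h : g ≤ g') : phq g' ≤ phq g := by
  have : (g : ℝ) ≤ g' := by exact_mod_cast h
  exact div_le_div_of_nonneg_left (by norm_num) (by positivity)
    (pow_le_pow_left₀ (by positivity) (by linarith) 2)

theorem pq_eq (g : ℕ) : (C.pq g : ℝ) = (((g : ℝ) + 20) * (g + 21)) ^ 2 + 311600 * g := by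
  unfold C.pq
  simp only [n_add, n_mul, n_pow]
  push_cast; rfl

theorem dq_sum {a b : ℕ} (h : a ≤ b) : ∑ k ∈ Ico a b, dq k = ((C.pq b : ℝ) - C.pq a) / 295200 := by
  induction b, h using Nat.le_induction with
  | base => simp
  | succ b hb ih => rw [Finset.sum_Ico_succ_top hb, ih, pq_eq b, pq_eq (b + 1), dq]; push_cast; ring

theorem om_le {h : ℕ} (hh : 0 < h) :
    0 ≤ wq h - wq (h + 1) ∧ wq h - wq (h + 1) ≤ 12300 / (h : ℝ) ^ 4 := by
  refine ⟨sub_nonneg.2 (wq_anti (Nat.lt_succ_self h)).le, ?_⟩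
  have : (0 : ℝ) < h := by exact_mod_cast hh
  rw [wq_pos' hh, wq_pos' (Nat.succ_pos h)]
  push_cast
  rw [div_sub_div _ _ (by positivity) (by positivity),
    div_le_div_iff₀ (by positivity) (by positivity), ← sub_nonneg]
  ring_nf; positivity

theorem G1_mono {h h' : ℕ} (hh : h ≤ h') : G1 h ≤ G1 h' :=
  Nat.find_min' _ ⟨G1_ge h', lt_of_le_of_lt (Nat.mul_le_mul_left _ (Nat.pow_le_pow_left hh 3))
    (Nat.find_spec (ex1 h')).2⟩

theorem thq_le {h a b : ℕ} (hh : 0 < h) (ha : a ≤ G1 h) (hb : G2 (h + 1) ≤ b) :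
    thq h ≤ (wq h - wq (h + 1)) * (((C.pq b : ℝ) - C.pq a) / 295200) := by
  rw [← dq_sum (ha.trans ((G1_le_G2 (Nat.le_succ h)).trans hb))]
  exact mul_le_mul_of_nonneg_left (Finset.sum_le_sum_of_subset_of_nonneg
    (Finset.Ico_subset_Ico ha hb) fun k _ _ => dq_nonneg k) (om_le hh).1

theorem inc_ge {h D a b : ℕ} {x : ℝ} (hh : 0 < h) (ha : a ≤ G1 h) (hb : G2 (h + 1) ≤ b)
    (hx : x ≤ D) : (x * (wq h - wq (h + 1)) + thq h) * 2 ^ 36 ≤
      (((D * 295200 + C.pq b - C.pq a) * 2 ^ 33 / (3 * h ^ 4) : ℕ) : ℝ) + 1 := by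
  have h0 : (0 : ℝ) < h := by exact_mod_cast hh
  refine le_trans ?_ (div_hi _ _ (by positivity))
  have a1 := thq_le hh ha hb
  obtain ⟨a2, a3⟩ := om_le hh
  have a4 := sub_hi (D * 295200 + C.pq b) (C.pq a)
  generalize D * 295200 + C.pq b - C.pq a = X at *
  push_cast at a4 ⊢
  have a5 := mul_le_mul_of_nonneg_right hx a2
  have a6 := mul_le_mul_of_nonneg_left a4 a2
  have a7 := mul_le_mul_of_nonneg_right a3 (Nat.cast_nonneg (α := ℝ) X)
  have e : (X : ℝ) * 8589934592 / (3 * (h : ℝ) ^ 4) =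
      12300 / (h : ℝ) ^ 4 * X / 295200 * 2 ^ 36 := by field_simp; ring
  rw [e]
  refine mul_le_mul_of_nonneg_right ?_ (by positivity)
  linarith

def EB (Eb h : ℕ) : Prop := ∀ k, h < k → Eq' mR k ≤ Eb / 2 ^ 36

theorem SW.step {c : ℕ → ℕ} {h v O D g1 g2 O1 D1 a b v1 v2 Eb : ℕ} (H : SW c h v O D g1 g2)
    (E : EB Eb h) (e1 : O1 = O + c (4 * h) - c (4 * h + 1))
    (e2 : D1 = D + c (4 * h + 2) - c (4 * h + 3)) (hb : G2 (h + 1) ≤ b) (ha : a ≤ G1 (h + 1))
    (e3 : v1 = v + c (4 * h) + (D1 * 295200 + C.pq b - C.pq g1) * 2 ^ 33 / (3 * h ^ 4) + 1 +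
      C.cp h - C.cl h)
    (c1 : v1 ≤ C.cl (h + 1) + C.fh b) (c2 : v1 ≤ v2) (c3 : Eb + C.fh a + 1 + O1 ≤ v2) :
    SW c (h + 1) v2 O1 D1 a b := by
  have h0 := H.h0
  have o1 : IC c (h + 1) (h + 1) ≤ O1 / 2 ^ 36 := by
    have := sub_hi (O + c (4 * h)) (c (4 * h + 1))
    rw [← e1] at this
    push_cast at this
    rw [IC_succ]
    linarith [H.ho]
  have d1 : DD c (h + 1) ≤ D1 := by
    have := sub_hi (D + c (4 * h + 2)) (c (4 * h + 3))
    rw [← e2] at this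
    push_cast at this
    rw [DD_succ]
    linarith [H.hd]
  have w1 : ∀ g, 5800 ≤ g → g ≤ h → VV c g (h + 1) ≤ v1 / 2 ^ 36 := by
    intro g b1 b2
    have i1 := inc_ge (by omega) H.a1 hb d1
    have i2 := sub_hi (v + c (4 * h) +
      (D1 * 295200 + C.pq b - C.pq g1) * 2 ^ 33 / (3 * h ^ 4) + 1 + C.cp h) (C.cl h)
    rw [← e3] at i2
    generalize (D1 * 295200 + C.pq b - C.pq g1) * 2 ^ 33 / (3 * h ^ 4) = X at *
    push_cast at i2
    rw [VV_succ c b2]
    linarith [H.hv g b1 b2, cp_ge h, cl_le h0]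
  have c1' : (v1 : ℝ) ≤ C.cl (h + 1) + C.fh b := by exact_mod_cast c1
  have c2' : (v1 : ℝ) ≤ v2 := by exact_mod_cast c2
  have c3' : (Eb : ℝ) + C.fh a + 1 + O1 ≤ v2 := by exact_mod_cast c3
  refine ⟨by omega, fun g b1 b2 => ?_, o1, d1, fun g k b1 b2 b3 => ?_, ha, (G2_ge _).trans hb⟩
  · rcases b2.eq_or_lt with rfl | b3
    · rw [VV_self]
      linarith [E (h + 1) (by omega), phq_anti ha, (fh_in a).2]
    · linarith [w1 g b1 (by omega)]
  · rcases b3.eq_or_lt with rfl | b4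
    · linarith [w1 g b1 (by omega), cl_le (show 5800 ≤ h + 1 by omega), phq_anti hb, (fh_in b).1]
    · exact H.ok g k b1 b2 (by omega)

theorem b_or {x y : Bool} {a b : ℕ} (h : @Bool.rec (fun _ => Bool) x y (Nat.ble a b) = true) :
    (a ≤ b ∧ y = true) ∨ (b < a ∧ x = true) := by
  rw [b_if] at h
  split_ifs at h with h1
  · exact Or.inl ⟨h1, h⟩
  · exact Or.inr ⟨not_le.1 h1, h⟩

theorem mx_ge (a b : ℕ) : a ≤ C.mx a b ∧ b ≤ C.mx a b := by
  unfold C.mx
  rw [b_if]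
  split_ifs <;> omega

section
variable {Eb : ℕ} {ih : ℕ → ℕ → ℕ → ℕ → ℕ → ℕ → Bool}

theorem sw3_snd {h1 v1 O D g1 g2 : ℕ} (h : C.sw3 Eb ih h1 v1 O D g1 g2 = true) (ha : g1 ≤ G1 h1) :
    v1 ≤ C.cl h1 + C.fh g2 ∧ ∃ a v2, a ≤ G1 h1 ∧ v1 ≤ v2 ∧ Eb + C.fh a + 1 + O ≤ v2 ∧
      ih h1 v2 O D a g2 = true := by
  unfold C.sw3 at h
  rw [b_and, b_le] at h
  refine ⟨h.1, ?_⟩
  rcases b_or h.2 with ⟨a1, a2⟩ | ⟨_, a2⟩
  · unfold C.sw4 at a2
    rw [frc_eq] at a2
    refine ⟨_, _, ?_, (mx_ge _ _).1, (mx_ge _ _).2, a2⟩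
    by_contra hn
    have := crit1_mono (show G1 h1 ≤ g1 by omega) (Nat.find_spec (ex1 h1)).2
    unfold C.c1 at a1
    simp only [n_add, n_mul, n_pow, n_succ] at a1
    omega
  · unfold C.sw4 at a2
    rw [frc_eq] at a2
    exact ⟨_, _, ha, (mx_ge _ _).1, (mx_ge _ _).2, a2⟩

theorem G2_le {h g : ℕ} (hg : 5800 ≤ g) (hc : 6601 * h ^ 3 < C.c2 g) : G2 h ≤ g := by
  unfold C.c2 at hc
  simp only [n_add, n_mul, n_pow, n_sub] at hc
  exact Nat.find_min' _ ⟨hg, hc⟩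

theorem sw1_snd {h h1 x va O D g1 g2 : ℕ} (H : C.sw1 Eb ih h h1 x va O D g1 g2 = true)
    (hx : x = 6601 * h1 ^ 3) (hg : 5800 ≤ g2) :
    ∃ b, G2 h1 ≤ b ∧ C.sw2 Eb ih h h1 va O D g1 b = true := by
  unfold C.sw1 at H
  rcases b_or H with ⟨_, a2⟩ | ⟨a1, a2⟩
  · rw [b_and, b_le] at a2
    exact ⟨_, G2_le (Nat.le_succ_of_le hg) (hx ▸ a2.1), a2.2⟩
  · exact ⟨_, G2_le hg (hx ▸ a1), a2⟩

theorem sw0_snd {c : ℕ → ℕ} {F aa h v O D g1 g2 : ℕ}
    (h1 : C.sw0 Eb ih F aa h (h + 1) v O D g1 g2 = true) (H : SW c h v O D g1 g2) (E : EB Eb h)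
    (e0 : aa = c (4 * h)) (e1 : F / 2 ^ 48 % 2 ^ 48 = c (4 * h + 1))
    (e2 : F / 2 ^ 96 % 2 ^ 48 = c (4 * h + 2)) (e3 : F / 2 ^ 144 = c (4 * h + 3)) :
    ∃ v O D g1 g2, SW c (h + 1) v O D g1 g2 ∧ ih (h + 1) v O D g1 g2 = true := by
  unfold C.sw0 at h1
  rw [frc_eq, frc_eq, land_mod _ 48 C.cM48 rfl, land_mod _ 48 C.cM48 rfl] at h1
  simp only [n_add, n_sub, n_shr, n_mul, n_pow] at h1
  rw [e0, e1, e2, e3] at h1
  obtain ⟨b, a1, a2⟩ := sw1_snd h1 rfl H.a2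
  unfold C.sw2 at a2
  simp only [n_add, n_sub, n_shl, n_mul, n_pow, n_div, n_succ] at a2
  obtain ⟨a3, a, v2, a4, a5, a6, a7⟩ := sw3_snd a2 (H.a1.trans (G1_mono (Nat.le_succ h)))
  exact ⟨_, _, _, _, _, H.step E rfl rfl a1 a4 rfl a3 a5 a6, a7⟩
end

theorem sw_snd {Eb : ℕ} {k : ℕ → ℕ → ℕ → ℕ → ℕ → ℕ → Bool} {c : ℕ → ℕ} (W : ℕ) :
    ∀ A h v O D g1 g2, C.sw Eb k W A h v O D g1 g2 = true → SW c h v O D g1 g2 → EB Eb h →
      (∀ p, dg A p = c (4 * h + p)) → ∃ h v O D g1 g2, SW c h v O D g1 g2 ∧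
        (∀ p, c (4 * h + p) = 0) ∧ k h v O D g1 g2 = true := by
  induction W with
  | zero =>
    intro A h v O D g1 g2 h1 H _ h2
    have e : C.sw Eb k 0 A h v O D g1 g2 =
      @Bool.rec (fun _ => Bool) false (k h v O D g1 g2) (Nat.beq A 0) := rfl
    rw [e, b_and, b_eq] at h1
    exact ⟨h, v, O, D, g1, g2, H, fun p => by rw [← h2, h1.1]; simp [dg], h1.2⟩
  | succ W ih =>
    intro A h v O D g1 g2 h1 H E h2
    have e : C.sw Eb k (W + 1) A h v O D g1 g2 =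
      C.swa Eb (C.sw Eb k W) A (Nat.land A C.cM192) h v O D g1 g2 := rfl
    rw [e, land_mod A 192 C.cM192 rfl] at h1
    unfold C.swa at h1
    rw [frc_eq, land_mod _ 48 C.cM48 rfl, n_shr, n_succ] at h1
    have d0 := h2 0; have d1 := h2 1; have d2 := h2 2; have d3 := h2 3
    simp only [dg, Nat.reduceMul, add_zero] at d0 d1 d2 d3
    obtain ⟨v, O, D, g1, g2, a1, a2⟩ := sw0_snd h1 H E (by omega) (by omega) (by omega) (by omega)
    refine ih _ _ _ _ _ _ _ a2 a1 (fun k hk => E k (by omega)) fun p => ?_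
    rw [show 4 * (h + 1) + p = 4 * h + (4 + p) by omega, ← h2, dg_add]

theorem ebok_snd {Eb h : ℕ} (hh : 5800 ≤ h) (H : C.ebok Eb h = true) : EB Eb h := by
  intro k hk
  unfold Eq'
  rw [if_neg (by omega)]
  unfold C.ebok at H
  rcases b_or H with ⟨a1, _⟩ | ⟨_, a2⟩
  · refine (min_le_left _ _).trans (div_le_div_of_nonneg_right ?_ (by positivity))
    exact_mod_cast a1
  · rw [b_le] at a2
    simp only [n_add, n_mul, n_pow] at a2
    have a3 : (C.cQZ : ℝ) ≤ (Eb : ℝ) ^ 2 * ((h : ℝ) + 3) ^ 3 := by exact_mod_cast a2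
    have a4 : (h : ℝ) + 1 ≤ k := by exact_mod_cast hk
    have a5 := pow_le_pow_left₀ (by positivity) (show (h : ℝ) + 3 ≤ k + 2 by linarith) 3
    have a6 := mul_le_mul_of_nonneg_left a5 (sq_nonneg (Eb : ℝ))
    refine (min_le_right _ _).trans (Real.sqrt_le_iff.2 ⟨by positivity, ?_⟩)
    rw [div_pow, div_le_div_iff₀ (by positivity) (by positivity)]
    simp only [C.cQZ] at a3
    push_cast at a3
    linarith

/-- the state of the sweep over the windows between two buckets of the certificate -/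
def EV (l : List ℕ) (o h v O D g1 g2 : ℕ) : Prop :=
  SW (LO fE l o) h v O D g1 g2 ∧ ∀ p, LO fE l o (4 * h + p) = 0

theorem bucketE_snd {l : List ℕ} {o u Eb W h v O D g1 g2 h2 v2 O2 D2 a2 b2 : ℕ}
    (h1 : C.bucketE l o u Eb W h v O D g1 g2 h2 v2 O2 D2 a2 b2 = true)
    (H : EV l o h v O D g1 g2) : EV l u h2 v2 O2 D2 a2 b2 := by
  unfold C.bucketE at h1
  rw [b_and, n_mul] at h1
  obtain ⟨c, A, y, ⟨b1, _, b3⟩, b4, b5⟩ := ga_snd (f := fE) (Inv := HI (4 * h))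
    (fun c x A key k a b d e => fe_snd c x A key k a b d e) l o u 0 0 0
    ⟨fun _ _ => rfl, fun _ => Nat.zero_le _, fun p => by simp [dg]⟩ h1.2
  rw [zero_add] at b1 b3
  unfold C.swk at b5
  obtain ⟨h, v, O, D, g1, g2, c1, c2, c3⟩ := sw_snd (c := LO fE l u) W A h v O D g1 g2 b5
    (H.1.congr fun p hp => by rw [b4, Pi.add_apply, b1 p hp, add_zero]) (ebok_snd H.1.h0 h1.1)
    fun p => by rw [b4, Pi.add_apply, H.2, zero_add, b3]
  unfold C.swf at c3
  simp only [b_and, b_eq] at c3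
  obtain ⟨rfl, rfl, rfl, rfl, rfl, rfl⟩ := c3
  exact ⟨c1, c2⟩

theorem EV_init (l : List ℕ) : EV l 0 5800 4184114 0 0 5800 5800 := by
  unfold EV
  rw [LO_zero]
  refine ⟨⟨le_rfl, fun g a b => ?_, by simp [IC_zero], by simp [DD], fun g k a b d => by omega,
    G1_ge _, le_rfl⟩, fun _ => rfl⟩
  obtain rfl : g = 5800 := by omega
  rw [VV_self, IC_zero, Eq', if_pos le_rfl]
  have := phq_anti (G1_ge 5800)
  norm_num [phq] at this ⊢
  linarith

end Pool.Agent.MP_f14165_co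

end

section

set_option autoImplicit false

namespace Pool.Agent.MP_f14165_co
open Finset

theorem cq_hi' {h : ℕ} (hh : 5816 ≤ h) : 3 / ((h : ℝ) + 43) ≤ cq (h + 1) := by
  have := cq_hi (show 5817 ≤ h + 1 by omega)
  push_cast at this
  rwa [show (h : ℝ) + 1 + 42 = h + 43 by ring] at this

theorem hEc (h : ℕ) (hh : 5800 ≤ h) : Eq' mR h ≤ cq h := by
  have hx : (5800 : ℝ) ≤ h := by exact_mod_cast hh
  unfold Eq'
  split_ifs with h1
  · obtain rfl : h = 5800 := by omega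
    rw [cq_lo (by omega)]; norm_num
  rcases le_or_gt h 5816 with h2 | h2
  · refine (min_le_left _ _).trans ?_
    have hx : (5801 : ℝ) ≤ h := by exact_mod_cast (by omega : 5801 ≤ h)
    have a1 := pow_le_pow_left₀ (by norm_num) (show (5822 : ℝ) ≤ h + 21 by linarith) 3
    have a2 : 197137442300 / ((h : ℝ) + 21) ^ 3 ≤ 197137442300 / 5822 ^ 3 :=
      div_le_div_of_nonneg_left (by norm_num) (by norm_num) a1
    rw [cq_lo h2, mR]
    norm_num at a2 ⊢
    linarith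
  · refine (min_le_right _ _).trans (le_trans (Real.sqrt_le_iff.2 ⟨by positivity, ?_⟩) (cq_hi h2))
    obtain ⟨t, ht, e⟩ := shift hx
    rw [e, div_pow, div_le_div_iff₀ (by positivity) (by positivity), ← sub_nonneg]
    ring_nf; positivity

theorem G1_spec (h : ℕ) : 6 * (h : ℝ) ^ 3 < (((G1 h : ℝ) + 1) * ((G1 h : ℝ) + 3)) ^ 2 := by
  have := (Nat.find_spec (ex1 h)).2
  exact_mod_cast this

theorem tail2 {h : ℕ} (hh : 102400 ≤ h) : Eq' mR h + phq (G1 h) ≤ cq h := by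
  have hx : (102400 : ℝ) ≤ h := by exact_mod_cast hh
  have a1 : Eq' mR h ≤ 201 / 1000 / (h : ℝ) := by
    unfold Eq'
    rw [if_neg (by omega)]
    refine (min_le_right _ _).trans (Real.sqrt_le_iff.2 ⟨by positivity, ?_⟩)
    obtain ⟨t, ht, e⟩ := shift hx
    rw [e, div_pow, div_le_div_iff₀ (by positivity) (by positivity), ← sub_nonneg]
    ring_nf; positivity
  have a2 : phq (G1 h) ≤ 262 / 100 / (h : ℝ) := by
    have b1 := G1_spec h
    unfold phq
    generalize G1 h = a at *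
    have a0 : (0 : ℝ) ≤ a := Nat.cast_nonneg a
    have b2 : 4 * (((a : ℝ) + 1) * (a + 3)) ≤ (2 * a + 5) ^ 2 := by nlinarith
    have b3 := pow_le_pow_left₀ (by positivity) b2 2
    rw [div_le_div_iff₀ (by positivity) (by linarith)]
    refine le_of_pow_le_pow_left₀ two_ne_zero (by positivity) ?_
    have b4 : (102400 : ℝ) * h ^ 2 ≤ h ^ 3 := by nlinarith
    nlinarith
  refine le_trans ?_ (cq_hi (by omega))
  have a3 : 201 / 1000 / (h : ℝ) + 262 / 100 / (h : ℝ) ≤ 3 / ((h : ℝ) + 42) := by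
    rw [← add_div, div_le_div_iff₀ (by linarith) (by linarith)]; linarith
  linarith

theorem pq_hi {h : ℕ} (hh : 102400 ≤ h) : (C.pq (G2 (h + 1)) : ℝ) ≤ 6622 / 100 * (h : ℝ) ^ 3 := by
  have hx : (102400 : ℝ) ≤ h := by exact_mod_cast hh
  have a1 : 16000 ≤ G2 (h + 1) := by
    by_contra hn
    have b1 := crit2_mono (show G2 (h + 1) ≤ 16000 by omega) (Nat.find_spec (ex2 (h + 1))).2
    have b2 := Nat.pow_le_pow_left (show 102400 ≤ h + 1 by omega) 3
    omega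
  have a2 := Nat.find_min (ex2 (h + 1)) (show G2 (h + 1) - 1 < G2 (h + 1) by omega)
  obtain ⟨t, ht⟩ : ∃ t, G2 (h + 1) = t + 16000 := ⟨G2 (h + 1) - 16000, by omega⟩
  rw [ht] at a2 ⊢
  rw [not_and, not_lt, show t + 16000 - 1 - 1 = t + 15998 by omega,
    show t + 16000 - 1 + 21 = t + 16020 by omega] at a2
  have a3 : 100 * (((t : ℝ) + 15998) * (t + 16020)) ^ 2 ≤ 6601 * ((h : ℝ) + 1) ^ 3 := by
    exact_mod_cast a2 (by omega)
  have t0 : (0 : ℝ) ≤ t := Nat.cast_nonneg t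
  have a4 : (C.pq (t + 16000) : ℝ) ≤ 1003 / 1000 * (((t : ℝ) + 15998) * (t + 16020)) ^ 2 := by
    rw [pq_eq, ← sub_nonneg]; push_cast; ring_nf; positivity
  have a5 : ((h : ℝ) + 1) ^ 3 ≤ 10001 / 10000 * (h : ℝ) ^ 3 := by
    obtain ⟨s, hs, e⟩ := shift hx
    rw [e, ← sub_nonneg]; ring_nf; positivity
  have a6 : (0 : ℝ) ≤ (h : ℝ) ^ 3 := by positivity
  linarith

theorem tail1 {h : ℕ} (hh : 102400 ≤ h) : thq h + capq h ≤ cq (h + 1) := by
  have hx : (102400 : ℝ) ≤ h := by exact_mod_cast hh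
  have a1 := thq_le (h := h) (by omega) le_rfl le_rfl
  obtain ⟨a2, a3⟩ := om_le (h := h) (by omega)
  have a4 := pq_hi hh
  have a5 : 6 * (h : ℝ) ^ 3 ≤ C.pq (G1 h) := by
    have b1 := G1_spec h
    rw [pq_eq]
    generalize G1 h = a at *
    have a0 : (0 : ℝ) ≤ a := Nat.cast_nonneg a
    have := pow_le_pow_left₀ (by positivity)
      (show ((a : ℝ) + 1) * (a + 3) ≤ (a + 20) * (a + 21) by nlinarith) 2
    linarith
  have a6 : thq h ≤ 12300 / (h : ℝ) ^ 4 * (6022 / 100 * (h : ℝ) ^ 3 / 295200) :=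
    a1.trans ((mul_le_mul_of_nonneg_left (by linarith) a2).trans
      (mul_le_mul_of_nonneg_right a3 (by positivity)))
  have a7 : 12300 / (h : ℝ) ^ 4 * (6022 / 100 * (h : ℝ) ^ 3 / 295200) = 6022 / 2400 / (h : ℝ) := by
    field_simp; norm_num
  have a8 : 6022 / 2400 / (h : ℝ) + 12 / 25 / (h : ℝ) ≤ 3 / ((h : ℝ) + 43) := by
    rw [← add_div, div_le_div_iff₀ (by linarith) (by linarith)]; linarith
  have a9 := cq_hi' (h := h) (by omega)
  rw [capq, if_pos (by omega)]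
  linarith

theorem tail_all {c : ℕ → ℕ} {v g1 g2 : ℕ} (H : SW c 102400 v 0 0 g1 g2) (hv : v ≤ 2012440)
    (hc : ∀ p, c (4 * 102400 + p) = 0) (g k : ℕ) (hg : 5800 ≤ g) (hk : g < k) :
    VV c g k ≤ cq k + phq (G2 k) := by
  have key : ∀ h, 102400 ≤ h → (∀ g, 5800 ≤ g → g ≤ h → VV c g h ≤ cq h) ∧ IC c h h ≤ 0 ∧
      DD c h ≤ 0 := by
    intro h hh
    induction h, hh using Nat.le_induction with
    | base =>
      refine ⟨fun g a b => (H.hv g a b).trans (le_trans ?_ (cq_hi (by omega))),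
        by simpa using H.ho, by simpa using H.hd⟩
      have : (v : ℝ) ≤ 2012440 := by exact_mod_cast hv
      norm_num; linarith
    | succ h hh ih =>
      obtain ⟨i1, i2, i3⟩ := ih
      have z : ∀ s, c (4 * h + s) = 0 := fun s => by
        rw [show 4 * h + s = 4 * 102400 + (4 * h + s - 4 * 102400) by omega]; exact hc _
      have z0 : c (4 * h) = 0 := z 0
      have j2 : IC c (h + 1) (h + 1) ≤ 0 := by rw [IC_succ, z0, z]; simpa using i2
      have j3 : DD c (h + 1) ≤ 0 := by rw [DD_succ, z, z]; simpa using i3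
      refine ⟨fun g a b => ?_, j2, j3⟩
      rcases b.eq_or_lt with rfl | b1
      · rw [VV_self]; linarith [tail2 (show 102400 ≤ h + 1 by omega)]
      · have := mul_nonpos_of_nonpos_of_nonneg j3 (om_le (show 0 < h by omega)).1
        rw [VV_succ c (by omega), z0, Nat.cast_zero, zero_div]
        linarith [i1 g a (by omega), tail1 hh]
  rcases le_total k 102400 with h1 | h1
  · exact H.ok g k hg hk h1
  · have : 0 ≤ phq (G2 k) := by unfold phq; positivity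
    linarith [(key k h1).1 g hg hk.le]

theorem assemble {s : C.Stk} {pt oI oE v g1 g2 : ℕ} {li le : List ℕ} (G : Good s pt li le)
    (hm : C.mainok s pt = true) (hI : IV li oI 48082285) (dI : C.done li oI = true)
    (hE : EV le oE 102400 v 0 0 g1 g2) (dE : C.done le oE = true) (hv : v ≤ 2012440) (n : ℕ) :
    Fits (Set.Ioo 0 1 ×ˢ Set.Ioo 0 1) (∑ j ∈ Finset.Ico 1 n, ({item j} : MS)) := by
  obtain ⟨M, a1, R, Pc, a2, a3, a4, a5, a6⟩ := G
  rw [← done_snd fI_zero _ _ dI, hI.2] at a2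
  rw [← done_snd fE_zero _ _ dE] at a4
  have ok := gd_ok mR (by norm_num [mR]) (IC (LO fE le oE)) hEc (tail_all hE.1 hv hE.2)
  cases s with
  | nil => exact absurd hm (by simp [C.mainok])
  | gp => exact absurd hm (by simp [C.mainok])
  | fh => exact absurd hm (by simp [C.mainok])
  | fa => exact absurd hm (by simp [C.mainok])
  | hole a b c d r =>
    obtain ⟨L, y, N, b1, b2, b3, rfl⟩ := a1
    simp only [C.mainok, b_and, b_le, n_mul, n_add] at hm
    obtain ⟨c1, c2, c3, c4, c5, c6, c7⟩ := hm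
    obtain rfl := eqs_snd _ _ c7
    obtain rfl : N = 0 := b3
    have c1' : (1 : ℝ) ≤ a := by exact_mod_cast c1
    have c2' : (1 : ℝ) ≤ c := by exact_mod_cast c2
    have c3' : (b : ℝ) ≤ 8 * c := by exact_mod_cast c3
    have c4' : (d : ℝ) ≤ 8 * a := by exact_mod_cast c4
    have c5' : (d : ℝ) ≤ C.cM0 * C.cS36 := by exact_mod_cast c5
    have c6' : 15000 * ((b : ℝ) + d + pt) ≤ 201 * SR := by unfold SR; exact_mod_cast c6
    have e : (C.cM0 : ℝ) * C.cS36 = mR * SR := by norm_num [C.cM0, C.cS36, mR, SR, C.cS]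
    refine finite_of_start ok (M1 := L) (M2 := y) (R := R) (Pc := Pc)
      ⟨by rw [add_zero] at a2; exact a2, a3, fun h1 h2 _ h => a4 h1 h2 h, a5, ?_, ?_, ?_, ?_, ?_, ?_⟩ n
    · change _ ≤ (201 : ℝ) / 5000
      exact le_of_SR (by linarith [b1.2, b2.2])
    · exact (pos_iff_pos_of_mul_pos (show 0 < L * SR by linarith [b1.1])).2 SR_pos
    · exact (pos_iff_pos_of_mul_pos (show 0 < y * SR by linarith [b2.1])).2 SR_pos
    · change L ≤ 8 * y
      exact le_of_SR (by linarith [b1.2, b2.1])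
    · change y ≤ 8 * L
      exact le_of_SR (by linarith [b1.1, b2.2])
    · exact (min_le_right _ _).trans (le_of_SR (by change _ ≤ mR * SR; linarith [b2.2]))

end Pool.Agent.MP_f14165_co

end
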