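import Pool.Agent.Mg.S12349.G4db00b
import Pool.Agent.MP_f14165_co.Chk

section

set_option autoImplicit false

namespace Pool.Agent.MP_f14165_co
open Finset

theorem n_add (a b : ℕ) : Nat.add a b = a + b := (rfl)
theorem n_sub (a b : ℕ) : Nat.sub a b = a - b := (rfl)
theorem n_mul (a b : ℕ) : Nat.mul a b = a * b := (rfl)
theorem n_div (a b : ℕ) : Nat.div a b = a / b := (rfl)
theorem n_pow (a b : ℕ) : Nat.pow a b = a ^ b := (rfl)
theorem n_shl (a b : ℕ) : Nat.shiftLeft a b = a * 2 ^ b := Nat.shiftLeft_eq a b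
theorem n_shr (a b : ℕ) : Nat.shiftRight a b = a / 2 ^ b := Nat.shiftRight_eq_div_pow a b
theorem n_and (a b : ℕ) : Nat.land a b = a &&& b := (rfl)
theorem n_succ (a : ℕ) : Nat.succ a = a + 1 := (rfl)
theorem b_and (x b : Bool) : (@Bool.rec (fun _ => Bool) false x b = true) = (b = true ∧ x = true) := by
  cases b <;> simp
theorem b_ite {α : Type} (x y : α) (b : Bool) :
    @Bool.rec (fun _ => α) x y b = if b = true then y else x := by
  cases b <;> simp
theorem b_le (a b : ℕ) : (Nat.ble a b = true) = (a ≤ b) := Nat.ble_eq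
theorem b_eq (a b : ℕ) : (Nat.beq a b = true) = (a = b) := Nat.beq_eq
theorem frc_eq (x : ℕ) (f : ℕ → Bool) : C.frc x f = f x := (rfl)
theorem and_mask (x n m : ℕ) (h : m = 2 ^ n - 1) : x &&& m = x % 2 ^ n := by
  rw [h, Nat.and_two_pow_sub_one_eq_mod]

noncomputable def SR : ℝ := (C.cS : ℝ)

theorem SR_pos : 0 < SR := by norm_num [SR, C.cS]

def In (lo hi : ℕ) (x : ℝ) : Prop := (lo : ℝ) ≤ x * SR ∧ x * SR ≤ hi

theorem In.nonneg {lo hi : ℕ} {x : ℝ} (h : In lo hi x) : 0 ≤ x :=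
  nonneg_of_mul_nonneg_left ((Nat.cast_nonneg lo).trans h.1) SR_pos

theorem div_hi (n a : ℕ) (ha : 0 < a) : (n : ℝ) / a ≤ ((n / a : ℕ) : ℝ) + 1 := by
  have h0 : (0 : ℝ) < a := by exact_mod_cast ha
  rw [div_le_iff₀ h0]
  have : n ≤ (n / a + 1) * a := by
    have := Nat.div_add_mod n a
    have := Nat.mod_lt n ha
    nlinarith
  exact_mod_cast this

theorem div_lo (n a : ℕ) : ((n / a : ℕ) : ℝ) ≤ (n : ℝ) / a := Nat.cast_div_le

theorem sub_lo {a b : ℕ} {u : ℝ} (h : (a : ℝ) - b ≤ u) (h0 : 0 ≤ u) : ((a - b : ℕ) : ℝ) ≤ u := by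
  rcases le_total b a with h1 | h1
  · rw [Nat.cast_sub h1]; exact h
  · rw [Nat.sub_eq_zero_of_le h1]; simpa using h0

theorem sub_hi (a b : ℕ) : (a : ℝ) - b ≤ ((a - b : ℕ) : ℝ) := by
  rcases le_total b a with h1 | h1
  · rw [Nat.cast_sub h1]
  · rw [Nat.sub_eq_zero_of_le h1]
    have : (a : ℝ) ≤ b := by exact_mod_cast h1
    rw [Nat.cast_zero]; linarith

/-- the enclosure of `S / a` -/
theorem inv_in {a : ℕ} (ha : 0 < a) :
    ((C.cS / a : ℕ) : ℝ) ≤ 1 / (a : ℝ) * SR ∧ 1 / (a : ℝ) * SR ≤ ((C.cS / a : ℕ) : ℝ) + 1 := by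
  have e : 1 / (a : ℝ) * SR = (C.cS : ℝ) / a := by unfold SR; ring
  rw [e]
  exact ⟨div_lo _ _, div_hi _ _ ha⟩

theorem In.sub {a b c d : ℕ} {x y : ℝ} (h : In a b x) (h1 : (c : ℝ) ≤ y * SR) (h2 : y * SR ≤ d)
    (h0 : y ≤ x) : In (a - d) (b - c) (x - y) := by
  have := SR_pos
  refine ⟨sub_lo (by linarith [h.1]) (mul_nonneg (by linarith) this.le), le_trans ?_ (sub_hi _ _)⟩
  linarith [h.2]

noncomputable def Hs (a k s : ℕ) : ℝ := ∑ t ∈ range k, 1 / ((a : ℝ) + s * t)

theorem Hs_add (a k l s : ℕ) : Hs a (k + l) s = Hs a k s + Hs (a + s * k) l s := by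
  unfold Hs
  rw [Finset.sum_range_add]
  congr 1
  refine Finset.sum_congr rfl fun t _ => ?_
  push_cast; ring

theorem Hs_anti {a b : ℕ} (k s : ℕ) (ha : 0 < a) (h : a ≤ b) : Hs b k s ≤ Hs a k s := by
  refine Finset.sum_le_sum fun t _ => ?_
  have h1 : (0 : ℝ) < a := by exact_mod_cast ha
  have h2 : (a : ℝ) ≤ b := by exact_mod_cast h
  exact one_div_le_one_div_of_le (by positivity) (by linarith)

theorem Hs_nonneg (a k s : ℕ) : 0 ≤ Hs a k s := Finset.sum_nonneg fun t _ => by positivity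

theorem taylor_sum (c s γ : ℝ) (k : ℕ) :
    ∑ t ∈ range k, (1 / c - (s * t - γ) / c ^ 2 + (s * t - γ) ^ 2 / c ^ 3 - (s * t - γ) ^ 3 / c ^ 4) =
      k / c - (s * (k * (k - 1) / 2) - k * γ) / c ^ 2 +
      (s ^ 2 * ((k - 1) * k * (2 * k - 1) / 6) - 2 * s * γ * (k * (k - 1) / 2) + k * γ ^ 2) / c ^ 3 -
      (s ^ 3 * (k * (k - 1) / 2) ^ 2 - 3 * s ^ 2 * γ * ((k - 1) * k * (2 * k - 1) / 6) +
        3 * s * γ ^ 2 * (k * (k - 1) / 2) - k * γ ^ 3) / c ^ 4 := by
  induction k with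
  | zero => simp
  | succ k ih => rw [Finset.sum_range_succ, ih]; push_cast; ring

theorem Hs_taylor {a k s : ℕ} (ha : 0 < a) (hk : 1 ≤ k) (h : s * k * 4096 ≤ a) :
    2 * (k * (3 * (2 * a + s * k - s : ℝ) ^ 2 + ((s * k) ^ 2 - s ^ 2))) / (3 * (2 * a + s * k - s : ℝ) ^ 3)
      ≤ Hs a k s ∧
    Hs a k s ≤ 2 * (k * (3 * (2 * a + s * k - s : ℝ) ^ 2 + ((s * k) ^ 2 - s ^ 2))) /
      (3 * (2 * a + s * k - s : ℝ) ^ 3) + k * (1 / 8192 ^ 4 / a) := by
  have a0 : (0 : ℝ) < a := by exact_mod_cast ha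
  have k1 : (1 : ℝ) ≤ k := by exact_mod_cast hk
  have s0 : (0 : ℝ) ≤ s := Nat.cast_nonneg s
  have h' : (s : ℝ) * k * 4096 ≤ a := by exact_mod_cast h
  set γ : ℝ := s * (k - 1) / 2 with hγ
  have g0 : 0 ≤ γ := by have := mul_nonneg s0 (sub_nonneg.2 k1); linarith
  set c : ℝ := a + γ with hc
  have c0 : 0 < c := by linarith
  have e1 : (2 * a + s * k - s : ℝ) = 2 * c := by rw [hc, hγ]; ring
  have e2 := taylor_sum c s γ k
  have e3 : 2 * (k * (3 * (2 * c) ^ 2 + (((s : ℝ) * k) ^ 2 - s ^ 2))) / (3 * (2 * c) ^ 3) =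
      ∑ t ∈ range k, (1 / c - (s * t - γ) / c ^ 2 + (s * t - γ) ^ 2 / c ^ 3 - (s * t - γ) ^ 3 / c ^ 4) := by
    rw [e2, hγ]; field_simp; ring
  have e4 : ∀ t : ℕ, 1 / ((a : ℝ) + s * t) =
      (1 / c - (s * t - γ) / c ^ 2 + (s * t - γ) ^ 2 / c ^ 3 - (s * t - γ) ^ 3 / c ^ 4) +
        ((s * t - γ) / c) ^ 4 / (a + s * t) := by
    intro t
    have : (0 : ℝ) < a + s * t := by positivity
    have e : (a : ℝ) + s * t = c + (s * t - γ) := by rw [hc]; ring
    rw [e] at this ⊢
    generalize (s : ℝ) * t - γ = x at *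
    field_simp; ring
  rw [e1, e3]
  constructor
  · refine Finset.sum_le_sum fun t _ => ?_
    rw [e4 t]
    have : 0 ≤ ((s * t - γ) / c) ^ 4 / ((a : ℝ) + s * t) := by positivity
    linarith
  · have : (k : ℝ) * (1 / 8192 ^ 4 / a) = ∑ t ∈ range k, 1 / 8192 ^ 4 / (a : ℝ) := by simp
    rw [this, ← Finset.sum_add_distrib]
    refine Finset.sum_le_sum fun t ht => ?_
    rw [e4 t]
    have t1 : (t : ℝ) + 1 ≤ k := by exact_mod_cast Finset.mem_range.1 ht
    have t0 : (0 : ℝ) ≤ t := Nat.cast_nonneg t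
    have b1 : |(s * t - γ) / c| ≤ 1 / 8192 := by
      rw [abs_div, abs_of_pos c0, div_le_iff₀ c0, abs_le]
      have := mul_nonneg s0 t0
      have := mul_le_mul_of_nonneg_left t1 s0
      constructor <;> nlinarith
    have b2 : ((s * t - γ) / c) ^ 4 ≤ 1 / 8192 ^ 4 := by
      have := pow_le_pow_left₀ (abs_nonneg _) b1 4
      rw [← abs_pow, abs_of_nonneg (by positivity)] at this
      linarith [show ((1 : ℝ) / 8192) ^ 4 = 1 / 8192 ^ 4 by norm_num]
    have b3 : ((s * t - γ) / c) ^ 4 / ((a : ℝ) + s * t) ≤ 1 / 8192 ^ 4 / (a : ℝ) :=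
      div_le_div₀ (by positivity) b2 a0 (by linarith [mul_nonneg s0 t0])
    linarith

theorem hs_one {a k : ℕ} (s : ℕ) (ha : 0 < a) (hk : k ≤ 1) :
    ((k * C.cS / a : ℕ) : ℝ) ≤ Hs a k s * SR ∧
      Hs a k s * SR ≤ ((k * C.cS / a : ℕ) : ℝ) + k * (a + C.cE) / a := by
  have a0 : (0 : ℝ) < a := by exact_mod_cast ha
  interval_cases k
  · simp [Hs]
  · have := inv_in ha
    have h1 : (1 : ℝ) ≤ (a + C.cE) / a := by
      rw [le_div_iff₀ a0]; linarith [Nat.cast_nonneg (α := ℝ) C.cE]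
    simp only [Hs, Finset.sum_range_one, one_mul, Nat.cast_zero, mul_zero, add_zero, Nat.cast_one]
    exact ⟨this.1, by linarith [this.2]⟩

theorem hs_spec (s f : ℕ) : ∀ a k : ℕ, 0 < a → k ≤ 2 ^ f →
    (C.hs s f a k : ℝ) ≤ Hs a k s * SR ∧ Hs a k s * SR ≤ C.hs s f a k + k * (a + C.cE) / a := by
  induction f with
  | zero => intro a k ha hk; exact hs_one s ha hk
  | succ f ih =>
    intro a k ha hk
    have e : C.hs s (f + 1) a k = if s * k * 4096 ≤ a then C.hg a k s (s * k) else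
        if k ≤ 1 then k * C.cS / a else C.hs s f a (k / 2) + C.hs s f (a + s * (k / 2)) (k - k / 2) := by
      simp only [← b_le, ← b_ite]; rfl
    have a0 : (0 : ℝ) < a := by exact_mod_cast ha
    rw [e]
    split_ifs with h1 h2
    · rcases Nat.eq_zero_or_pos k with rfl | hk
      · simp [C.hg, C.hf, Hs, n_div]
      · have t := Hs_taylor ha hk h1
        have u1 : s ≤ s * k := Nat.le_mul_of_pos_right s hk
        have e2 : C.hg a k s (s * k) = C.cS2 * (k * (3 * (2 * a + s * k - s) ^ 2 + ((s * k) ^ 2 - s ^ 2))) /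
          (3 * (2 * a + s * k - s) ^ 3) := rfl
        have p : 0 < 3 * (2 * a + s * k - s) ^ 3 := by
          have : 0 < 2 * a + s * k - s := by omega
          positivity
        have d1 := div_lo (C.cS2 * (k * (3 * (2 * a + s * k - s) ^ 2 + ((s * k) ^ 2 - s ^ 2))))
          (3 * (2 * a + s * k - s) ^ 3)
        have d2 := div_hi (C.cS2 * (k * (3 * (2 * a + s * k - s) ^ 2 + ((s * k) ^ 2 - s ^ 2))))
          (3 * (2 * a + s * k - s) ^ 3) p
        rw [← e2] at d1 d2
        have c2 : (C.cS2 : ℝ) = 2 * SR := by norm_num [SR, C.cS, C.cS2]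
        push_cast [Nat.cast_sub (show s ≤ 2 * a + s * k by omega),
          Nat.cast_sub (Nat.pow_le_pow_left u1 2), c2] at d1 d2
        have m1 := mul_le_mul_of_nonneg_right t.1 SR_pos.le
        have m2 := mul_le_mul_of_nonneg_right t.2 SR_pos.le
        have k1 : (1 : ℝ) ≤ k := by exact_mod_cast hk
        have e5 : (k : ℝ) * (a + C.cE) / a = k + k * (C.cE / a) := by field_simp
        have e6 : (k : ℝ) * (1 / 8192 ^ 4 / a * SR) ≤ k * (C.cE / a) := by
          refine mul_le_mul_of_nonneg_left ?_ (by linarith)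
          rw [div_mul_eq_mul_div]
          exact div_le_div_of_nonneg_right (by norm_num [SR, C.cS, C.cE]) a0.le
        constructor
        · refine d1.trans (le_trans (le_of_eq ?_) m1); ring
        · rw [e5]
          have : 2 * ((k : ℝ) * (3 * (2 * a + s * k - s : ℝ) ^ 2 + ((s * k) ^ 2 - s ^ 2))) /
              (3 * (2 * a + s * k - s : ℝ) ^ 3) * SR = 2 * SR * (k * (3 * (2 * a + s * k - s : ℝ) ^ 2 +
              ((s * k) ^ 2 - s ^ 2))) / (3 * (2 * a + s * k - s : ℝ) ^ 3) := by ring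
          linarith
    · exact hs_one s ha h2
    · have i1 := ih a (k / 2) ha (by omega)
      have i2 := ih (a + s * (k / 2)) (k - k / 2) (by omega) (by omega)
      have e2 := Hs_add a (k / 2) (k - k / 2) s
      rw [show k / 2 + (k - k / 2) = k by omega] at e2
      have e3 : (k : ℝ) = ((k / 2 : ℕ) : ℝ) + ((k - k / 2 : ℕ) : ℝ) := by
        exact_mod_cast (by omega : k = k / 2 + (k - k / 2))
      have e4 : (((a + s * (k / 2) : ℕ) : ℝ) + C.cE) / ((a + s * (k / 2) : ℕ) : ℝ) ≤ (a + C.cE) / a := by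
        have h3 : (a : ℝ) ≤ ((a + s * (k / 2) : ℕ) : ℝ) := by exact_mod_cast Nat.le_add_right _ _
        rw [div_le_div_iff₀ (by linarith) a0]
        nlinarith [Nat.cast_nonneg (α := ℝ) C.cE]
      have e5 := mul_le_mul_of_nonneg_left e4 (Nat.cast_nonneg (k - k / 2))
      rw [mul_div_assoc] at i1 i2 ⊢
      rw [e2, Nat.cast_add]
      constructor
      · linarith [i1.1, i2.1]
      · rw [e3]; linarith [i1.2, i2.2]

theorem er_spec {a : ℕ} (k : ℕ) (ha : 0 < a) : (k : ℝ) * (a + C.cE) / a + 2 ≤ C.er a k := by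
  have := div_hi (k * (a + C.cE)) a ha
  have e : C.er a k = k * (a + C.cE) / a + 3 := rfl
  rw [e]; push_cast at this ⊢; linarith

/-- the enclosure used for rows of arrays -/
theorem hs_in {a b k : ℕ} (s : ℕ) (ha : 0 < a) (hb : a ≤ b) (hk : k ≤ 2 ^ 20) :
    (C.hs s 20 b k : ℝ) ≤ Hs b k s * SR ∧ Hs b k s * SR ≤ ((C.hs s 20 b k + C.er a k : ℕ) : ℝ) := by
  have h := hs_spec s 20 b k (by omega) hk
  have h2 := er_spec k ha
  have a0 : (0 : ℝ) < a := by exact_mod_cast ha
  have h3 : (a : ℝ) ≤ b := by exact_mod_cast hb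
  have e4 : ((b : ℝ) + C.cE) / b ≤ (a + C.cE) / a := by
    rw [div_le_div_iff₀ (by linarith) a0]
    nlinarith [Nat.cast_nonneg (α := ℝ) C.cE]
  have e5 := mul_le_mul_of_nonneg_left e4 (Nat.cast_nonneg k)
  rw [mul_div_assoc] at h h2
  push_cast
  exact ⟨h.1, by linarith [h.2]⟩

noncomputable def vR (b : ℕ) : ℝ := 1 / (b : ℝ) + 1 / ((b : ℝ) + 2)
noncomputable def cH (b J : ℕ) : ℝ := ∑ j ∈ range J, vR (b + 2 * j)

theorem vv_in {b : ℕ} (hb : 0 < b) : (C.vv b : ℝ) ≤ vR b * SR ∧ vR b * SR ≤ C.vv b + 2 := by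
  have h1 := inv_in hb
  have h2 := inv_in (show 0 < b + 2 by omega)
  have e : C.vv b = C.cS / b + C.cS / (b + 2) := rfl
  rw [e, vR, Nat.cast_add, add_mul]
  rw [Nat.cast_add, Nat.cast_ofNat] at h2
  constructor <;> linarith [h1.1, h1.2, h2.1, h2.2]

theorem cH_succ (b J : ℕ) : cH b (J + 1) = cH b J + vR (b + 2 * J) := Finset.sum_range_succ _ _

theorem cH_succ' (b J : ℕ) : cH b (J + 1) = vR b + cH (b + 2) J := by
  unfold cH
  rw [Finset.sum_range_succ', add_comm]
  congr 1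
  exact Finset.sum_congr rfl fun j _ => by congr 1; ring

theorem cv_in (J : ℕ) : ∀ b : ℕ, 0 < b →
    (C.cv J b : ℝ) ≤ cH b J * SR ∧ cH b J * SR ≤ C.cv J b + 2 * J := by
  induction J with
  | zero => intro b _; simp [cH, C.cv]
  | succ J ih =>
    intro b hb
    have e : C.cv (J + 1) b = C.vv b + C.cv J (b + 2) := rfl
    have h1 := vv_in hb
    have h2 := ih (b + 2) (by omega)
    rw [e, cH_succ', add_mul]
    push_cast
    constructor <;> linarith [h1.1, h1.2, h2.1, h2.2]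

theorem vR_pos {b : ℕ} (hb : 0 < b) : 0 < vR b := by
  have : (0 : ℝ) < b := by exact_mod_cast hb
  unfold vR; positivity

theorem vR_anti {a b : ℕ} (ha : 0 < a) (h : a ≤ b) : vR b ≤ vR a := by
  have h1 : (0 : ℝ) < a := by exact_mod_cast ha
  have h2 : (a : ℝ) ≤ b := by exact_mod_cast h
  exact add_le_add (one_div_le_one_div_of_le h1 h2)
    (one_div_le_one_div_of_le (by linarith) (by linarith))

theorem cH_anti {a b : ℕ} (J : ℕ) (ha : 0 < a) (h : a ≤ b) : cH b J ≤ cH a J :=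
  Finset.sum_le_sum fun j _ => vR_anti (by omega) (by omega)

theorem cH_nonneg (a J : ℕ) : 0 ≤ cH a J :=
  Finset.sum_nonneg fun j _ => by unfold vR; positivity

end Pool.Agent.MP_f14165_co

end

section

set_option autoImplicit false

namespace Pool.Agent.MP_f14165_co
open Finset

noncomputable def items (a m : ℕ) : MS := ∑ j ∈ Ico a (a + m), ({item j} : MS)

theorem items_zero (a : ℕ) : items a 0 = 0 := by simp [items]

theorem items_add (a m n : ℕ) : items a (m + n) = items a m + items (a + m) n := by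
  unfold items
  rw [Finset.sum_Ico_consecutive _ (by omega) (by omega), add_assoc]

theorem items_one (a : ℕ) : items a 1 = {item a} := by simp [items]

theorem items_two (a : ℕ) : items a 2 = {item a} + {item (a + 1)} := by
  rw [show 2 = 1 + 1 from rfl, items_add, items_one, items_one]

theorem items_mul (a c n : ℕ) : ∑ j ∈ range n, items (a + c * j) c = items a (c * n) := by
  induction n with
  | zero => simp [items_zero]
  | succ n ih => rw [Finset.sum_range_succ, ih, Nat.mul_succ, items_add]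

noncomputable def bH (a o n t : ℕ) : ℝ :=
  if o ≠ 0 ∧ t + 1 = n then 1 / ((a + 2 * t : ℕ) : ℝ) else vR (a + 2 * t)
noncomputable def famH (a o n : ℕ) (y : ℝ) : MS :=
  ∑ t ∈ range n, ({(bH a o n t, y - 1 / (((a + 2 * t : ℕ) : ℝ) + 1))} : MS)
noncomputable def famA (a J n : ℕ) (y : ℝ) : MS :=
  ∑ t ∈ range n, ({(1 / ((a + 2 * J * t + 2 * J - 1 : ℕ) : ℝ), y - cH (a + 2 * J * t) J)} : MS)
noncomputable def gX (b j n : ℕ) : ℝ := Hs (b + j + 1) n j - Hs (b + j + 3) n j
noncomputable def gY (b j l : ℕ) : ℝ := cH b l - cH (b + j) l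
noncomputable def gapC (b J n : ℕ) : MS :=
  ∑ l ∈ range (J - 1), ({(gX (b + 2 * l) (2 * J) n, gY b (2 * J) (l + 1))} : MS)
noncomputable def gapS (a J K i : ℕ) : MS :=
  ∑ r ∈ range i, gapC (a + 2 * J * r) J (K - (r + 1))

theorem famH_succ (a o t : ℕ) (y : ℝ) : famH a o (t + 1) y = famH a 0 t y +
    {(if o ≠ 0 then 1 / ((a + 2 * t : ℕ) : ℝ) else vR (a + 2 * t),
      y - 1 / (((a + 2 * t : ℕ) : ℝ) + 1))} := by
  unfold famH
  rw [Finset.sum_range_succ]
  congr 1
  · refine Finset.sum_congr rfl fun r hr => ?_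
    have := Finset.mem_range.1 hr
    simp only [bH]
    rw [if_neg (by omega), if_neg (by omega)]
  · simp [bH]

theorem step_rowH0 {a : ℕ} (ha : 0 < a) {L y : ℝ} (hy : 1 / ((a : ℝ) + 1) ≤ y) (n : ℕ)
    (o : ℕ) (ho : o ≤ 1)
    (h : cH a n + (if o ≠ 0 then 1 / ((a + 2 * n : ℕ) : ℝ) else vR (a + 2 * n)) ≤ L) :
    Step {(L, y)} (items a (2 * n + 2 - o) + famH a o (n + 1) y +
      {(L - (cH a n + (if o ≠ 0 then 1 / ((a + 2 * n : ℕ) : ℝ) else vR (a + 2 * n))), y)}) := by
  have one : ∀ (n o : ℕ) (L : ℝ), o ≤ 1 →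
      (if o ≠ 0 then 1 / ((a + 2 * n : ℕ) : ℝ) else vR (a + 2 * n)) ≤ L →
      Step {(L, y)} (items (a + 2 * n) (2 - o) +
        {(if o ≠ 0 then 1 / ((a + 2 * n : ℕ) : ℝ) else vR (a + 2 * n),
          y - 1 / (((a + 2 * n : ℕ) : ℝ) + 1))} +
        {(L - (if o ≠ 0 then 1 / ((a + 2 * n : ℕ) : ℝ) else vR (a + 2 * n)), y)}) := by
    intro n o L ho h
    have a0 : (0 : ℝ) < a := by exact_mod_cast ha
    have x1 : (a : ℝ) ≤ ((a + 2 * n : ℕ) : ℝ) := by exact_mod_cast Nat.le_add_right _ _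
    generalize a + 2 * n = x at *
    have h1 : 1 / ((x : ℝ) + 1) ≤ y :=
      (one_div_le_one_div_of_le (by linarith) (by linarith)).trans hy
    have x0 : (0 : ℝ) < x := by linarith
    interval_cases o
    · simp only [ne_eq, not_true_eq_false, if_false] at h ⊢
      refine (step_cut (by unfold vR; positivity) h).trans (Step.add_right ?_ _)
      refine (step_cutY (by positivity) h1).trans (Step.add_right ?_ _)
      have h2 : 1 / (x : ℝ) ≤ vR x := by
        unfold vR; linarith [show 0 < 1 / ((x : ℝ) + 2) by positivity]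
      refine (step_cut (by positivity) h2).trans ?_
      rw [Nat.sub_zero, items_two]
      refine Step.add_left ((step_rot _ _).trans (Step.of_eq ?_)) _
      simp only [item, vR]; push_cast
      congr 2; ring
    · simp only [ne_eq, one_ne_zero, not_false_eq_true, if_true] at h ⊢
      refine (step_cut (by positivity) h).trans (Step.add_right ?_ _)
      rw [show 2 - 1 = 1 from rfl, items_one]
      exact step_cutY (by positivity) h1
  induction n generalizing o L with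
  | zero =>
    have := one 0 o L ho (by simpa [cH] using h)
    rw [famH_succ]
    simpa [cH, famH] using this
  | succ n ih =>
    have p : 0 ≤ (if o ≠ 0 then 1 / ((a + 2 * (n + 1) : ℕ) : ℝ) else vR (a + 2 * (n + 1))) := by
      split_ifs
      · positivity
      · exact (vR_pos (by omega)).le
    have i1 := ih (L := L) 0 (by omega) (by simp only [ne_eq, not_true_eq_false, if_false]; linarith [cH_succ a n])
    simp only [ne_eq, not_true_eq_false, if_false, ← cH_succ] at i1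
    have i2 := one (n + 1) o (L - cH a (n + 1)) ho (by linarith)
    refine i1.trans ((i2.add_left _).trans (Step.of_eq ?_))
    rw [famH_succ a o (n + 1), show 2 * (n + 1) + 2 - o = 2 * (n + 1) + (2 - o) by omega, items_add,
      show 2 * n + 2 - 0 = 2 * (n + 1) by omega, sub_sub]
    abel

theorem cH_Hs {a : ℕ} (n : ℕ) : cH a n + 1 / ((a + 2 * n : ℕ) : ℝ) = 1 / (a : ℝ) + 2 * Hs (a + 2) n 2 := by
  induction n with
  | zero => simp [cH, Hs]
  | succ n ih =>
    rw [cH_succ, Hs, Finset.sum_range_succ, ← Hs, vR]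
    push_cast at ih ⊢
    rw [show (a : ℝ) + 2 * (n + 1) = a + 2 * n + 2 by ring,
      show (a : ℝ) + 2 + 2 * n = a + 2 * n + 2 by ring]
    linarith

theorem step_domV {b : ℕ} (hb : 0 < b) : Step {(1 / ((b : ℝ) + 1), vR b)} (items b 2) := by
  have b0 : (0 : ℝ) < b := by exact_mod_cast hb
  have h2 : 1 / (b : ℝ) ≤ vR b := by
    unfold vR; linarith [show 0 < 1 / ((b : ℝ) + 2) by positivity]
  refine (step_cutY (by positivity) h2).trans ?_
  rw [items_two]
  refine (step_rot _ _).add (Step.of_eq ?_)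
  simp only [item, vR]; push_cast
  congr 2; ring

theorem Hs_succ' (a k s : ℕ) : Hs a (k + 1) s = 1 / (a : ℝ) + Hs (a + s) k s := by
  rw [add_comm k 1, Hs_add]; simp [Hs]

theorem step_rowA {a : ℕ} (ha : 0 < a) (p t : ℕ) {L y : ℝ}
    (hL : Hs (a + 1) (t + 1) (2 * (p + 1)) ≤ L) (hy : cH a (p + 1) ≤ y) :
    Step {(L, y)} (items a (2 * (p + 1) * (t + 1)) + famA a (p + 1) (t + 1) y +
      gapS a (p + 1) (t + 1) t +
      ∑ l ∈ range p, ({(L - Hs (a + 2 * l + 1) (t + 1) (2 * (p + 1)), vR (a + 2 * l))} : MS) +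
      {(L - Hs (a + 2 * p + 1) (t + 1) (2 * (p + 1)), y - cH a p)}) := by
  set c := 2 * (p + 1) with hc
  let X : ℕ → ℕ → ℝ := fun i j =>
    if i = 0 then 0 else L - Hs (a + c * (i - 1) + 2 * min j p + 1) (t + 1 - (i - 1)) c
  let Y : ℕ → ℕ → ℝ := fun i j =>
    if j = p + 2 ∨ (i = 0 ∧ j = p + 1) then y else cH (a + c * (i - 1)) j
  have X1 : ∀ i j, X (i + 1) j = L - Hs (a + c * i + 2 * min j p + 1) (t + 1 - i) c := by
    intro i j; simp [X]
  have X2 : ∀ i j, i < t + 1 → X (i + 1 + 1) j - X (i + 1) j =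
      1 / (((a + c * i + 2 * min j p : ℕ) : ℝ) + 1) := by
    intro i j hi
    rw [X1, X1, show t + 1 - i = (t + 1 - (i + 1)) + 1 by omega, Hs_succ',
      show a + c * i + 2 * min j p + 1 + c = a + c * (i + 1) + 2 * min j p + 1 by ring]
    push_cast; ring
  have Y1 : ∀ i j, j ≤ p + 1 → Y (i + 1) j = cH (a + c * i) j := by
    intro i j hj; simp only [Y]; rw [if_neg (by omega)]; rfl
  have Y0 : ∀ j, j ≤ p → Y 0 j = cH a j := by
    intro j hj; simp only [Y]; rw [if_neg (by omega)]; simp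
  have Y2 : ∀ i, Y i (p + 1 + 1) = y := fun i => if_pos (Or.inl rfl)
  have Y3 : Y 0 (p + 1) = y := if_pos (Or.inr ⟨rfl, rfl⟩)
  have cm : ∀ b j, 0 < b → cH b j ≤ cH b (j + 1) := fun b j hb => by
    rw [cH_succ]; linarith [vR_pos (show 0 < b + 2 * j by omega)]
  have st := step_array X Y (t + 1) (p + 1) L y (fun j => if_pos rfl)
    (fun j => by rw [X1]; simp [Hs])
    (fun i => by simp [Y, cH]) Y2
    (fun j _ i hi => by
      rcases i with _ | i
      · rw [X1]
        have := Hs_anti (t + 1) c (show 0 < a + 1 by omega)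
          (show a + 1 ≤ a + c * 0 + 2 * min j p + 1 by omega)
        simp only [X, if_true, Nat.sub_zero]; linarith
      · have := X2 i j (by omega)
        have : 0 ≤ 1 / (((a + c * i + 2 * min j p : ℕ) : ℝ) + 1) := by positivity
        linarith)
    (fun i _ j _ => by
      rcases i with _ | i
      · exact le_rfl
      · rw [X1, X1]
        have := Hs_anti (t + 1 - i) c (show 0 < a + c * i + 2 * min j p + 1 by omega)
          (show a + c * i + 2 * min j p + 1 ≤ a + c * i + 2 * min (j + 1) p + 1 by omega)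
        linarith)
    (fun i _ j hj => by
      rcases i with _ | i
      · rcases Nat.lt_trichotomy j p with h | rfl | h
        · rw [Y0 _ (by omega), Y0 _ (by omega)]; exact cm _ _ ha
        · rw [Y3, Y0 _ le_rfl]; exact (cm _ _ ha).trans hy
        · rw [show j = p + 1 by omega, Y2, Y3]
      · rcases Nat.lt_or_ge j (p + 1) with h | h
        · rw [Y1 _ _ (by omega), Y1 _ _ (by omega)]; exact cm _ _ (by omega)
        · rw [show j = p + 1 by omega, Y2, Y1 _ _ le_rfl]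
          exact (cH_anti _ ha (by omega)).trans hy)
    (fun j hj i _ => by
      rcases Nat.lt_or_ge j (p + 1 + 1) with h | h
      · rw [Y1 _ _ (by omega)]
        rcases i with _ | i
        · rcases Nat.lt_or_ge j (p + 1) with h | h
          · rw [Y0 _ (by omega)]; simp
          · rw [show j = p + 1 by omega, Y3]; simpa using hy
        · rw [Y1 _ _ (by omega)]
          exact cH_anti _ (by omega) (by rw [Nat.mul_succ]; omega)
      · rw [show j = p + 1 + 1 by omega, Y2, Y2])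
  refine st.trans ?_
  rw [Finset.sum_range_succ' _ (t + 1), Finset.sum_range_succ' (fun i => ∑ j ∈ range (p + 1),
      ({(X (i + 1) (j + 1) - X (i + 1) j, Y i (j + 1) - Y (i + 1) (j + 1))} : MS)) t]
  have e1 : ∀ i ∈ range (t + 1), Step (∑ j ∈ range (p + 1 + 1),
      ({(X (i + 1 + 1) j - X (i + 1) j, Y (i + 1) (j + 1) - Y (i + 1) j)} : MS))
      (items (a + c * i) c + {(1 / ((a + c * i + c - 1 : ℕ) : ℝ), y - cH (a + c * i) (p + 1))}) := by
    intro i hi
    have hi := Finset.mem_range.1 hi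
    rw [Finset.sum_range_succ]
    refine Step.add ?_ (Step.of_eq ?_)
    · rw [hc, ← items_mul]
      refine Step.sum _ _ _ fun j hj => ?_
      have hj := Finset.mem_range.1 hj
      rw [X2 i j hi, Y1 _ _ (by omega), Y1 _ _ (by omega), cH_succ, add_sub_cancel_left,
        min_eq_left (by omega)]
      exact step_domV (by omega)
    · rw [X2 i _ hi, Y2, Y1 _ _ le_rfl, min_eq_right (by omega),
        show a + c * i + c - 1 = a + c * i + 2 * p + 1 by omega, Nat.cast_succ]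
  have e2 : Step (∑ j ∈ range (p + 1 + 1),
      ({(X (0 + 1) j - X 0 j, Y 0 (j + 1) - Y 0 j)} : MS))
      (∑ l ∈ range p, ({(L - Hs (a + 2 * l + 1) (t + 1) c, vR (a + 2 * l))} : MS) +
        {(L - Hs (a + 2 * p + 1) (t + 1) c, y - cH a p)}) := by
    have X0 : ∀ j, X 0 j = 0 := fun j => if_pos rfl
    rw [Finset.sum_range_succ, Finset.sum_range_succ]
    refine ((step_drop ?_).add_left _).trans (Step.of_eq ?_)
    · rw [area_single, Y2, Y3]; simp
    · rw [add_zero]
      congr 1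
      · refine Finset.sum_congr rfl fun j hj => ?_
        have hj := Finset.mem_range.1 hj
        rw [X1, X0, Y0 _ (by omega), Y0 _ (by omega), cH_succ, add_sub_cancel_left,
          min_eq_left (by omega)]
        simp
      · rw [X1, X0, Y3, Y0 _ le_rfl]; simp
  have e3 : ∀ i ∈ range t, Step (∑ j ∈ range (p + 1),
      ({(X (i + 1 + 1) (j + 1) - X (i + 1 + 1) j, Y (i + 1) (j + 1) - Y (i + 1 + 1) (j + 1))} : MS))
      (gapC (a + c * i) (p + 1) (t + 1 - (i + 1))) := by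
    intro i _
    rw [Finset.sum_range_succ]
    refine ((step_drop ?_).add_left _).trans (Step.of_eq ?_)
    · rw [area_single, X1, X1]; simp
    · rw [add_zero, gapC, Nat.add_sub_cancel]
      refine Finset.sum_congr rfl fun j hj => ?_
      have hj := Finset.mem_range.1 hj
      rw [X1, X1, Y1 _ _ (by omega), Y1 _ _ (by omega), min_eq_left (by omega),
        min_eq_left (by omega), gX, gY, ← hc,
        show a + c * i + 2 * j + c + 1 = a + c * (i + 1) + 2 * j + 1 by ring,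
        show a + c * i + 2 * j + c + 3 = a + c * (i + 1) + 2 * (j + 1) + 1 by ring,
        show a + c * i + c = a + c * (i + 1) by ring]
      congr 2; ring
  have e4 : Step (∑ j ∈ range (p + 1),
      ({(X (0 + 1) (j + 1) - X (0 + 1) j, Y 0 (j + 1) - Y (0 + 1) (j + 1))} : MS)) 0 := by
    refine step_drop ?_
    rw [area_sum]
    refine Finset.sum_eq_zero fun j hj => ?_
    have hj := Finset.mem_range.1 hj
    rw [area_single]
    rcases Nat.lt_or_ge j p with h | h
    · rw [Y0 _ (by omega), Y1 _ _ (by omega)]; simp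
    · rw [X1, X1, min_eq_right (by omega), min_eq_right h]; simp
  refine (((Step.sum _ _ _ e1).add e2).add ((Step.sum _ _ _ e3).add e4)).trans (Step.of_eq ?_)
  rw [Finset.sum_add_distrib, items_mul, famA, gapS]
  abel

end Pool.Agent.MP_f14165_co

end

section

set_option autoImplicit false

namespace Pool.Agent.MP_f14165_co
open Finset

theorem mem_fsum {ι : Type} {t : Finset ι} {f : ι → ℝ × ℝ} {s : ℝ × ℝ}
    (h : s ∈ ∑ i ∈ t, ({f i} : MS)) : ∃ i ∈ t, s = f i := by
  simpa using h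

theorem chain_fam {e d τ : ℝ} (he : 0 ≤ e) (hd : 0 ≤ d) (k : ℕ) : ∀ B s : ℕ → ℝ,
    (∀ t, t < k → s t ≤ s (t + 1) ∧ B t ≤ e ∧ B t ≤ d * (s (t + 1) - s t)) → s k ≤ τ →
    s 0 ≤ τ ∧ Chain (s 0) τ e d (∑ t ∈ range k, ({(B t, s t)} : MS)) := by
  induction k with
  | zero => intro B s _ h; exact ⟨h, by simpa using Chain.zero h he hd⟩
  | succ k ih =>
    intro B s h h1
    obtain ⟨i1, i2⟩ := ih (fun t => B (t + 1)) (fun t => s (t + 1))
      (fun t ht => h (t + 1) (by omega)) h1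
    obtain ⟨a1, a2, a3⟩ := h 0 (by omega)
    refine ⟨a1.trans i1, ?_⟩
    rw [Finset.sum_range_succ', add_comm, Multiset.singleton_add]
    exact i2.cons a1 (a1.trans i1) he hd a2 a3

theorem Chain.le {p τ e d : ℝ} {C : MS} (h : Chain p τ e d C) (he : 0 ≤ e) (hd : 0 ≤ d)
    {lo hi : ℝ} (hl : lo < hi) : lenI lo hi C ≤ e + d * (hi - lo) := by
  refine (h lo hi hl).trans ?_
  unfold tb
  split_ifs
  · have := min_le_left hi τ
    have := le_max_left lo p
    nlinarith
  · nlinarith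

structure Sm (sl su e d tot pi : ℕ) (R : MS) : Prop where
  lo : ∀ s ∈ R, (sl : ℝ) ≤ s.2 * SR
  hi : ∀ s ∈ R, s.2 * SR ≤ su
  wf : ∀ s ∈ R, s.2 ≤ s.1
  ch : ∀ lo hi, lo < hi → lenI lo hi R ≤ e / 2 ^ 36 + d * (hi - lo)
  tot : len R ≤ tot / 2 ^ 36
  pi : thin R * SR ≤ pi

theorem sm_hole {a b c d : ℕ} {L y : ℝ} (h1 : In a b L) (h2 : In c d y) (h : d ≤ a) :
    Sm c d (b / C.cS36 + 1) 0 (b / C.cS36 + 1) d {(L, y)} := by
  have h3 : (d : ℝ) ≤ a := by exact_mod_cast h
  have h4 : L ≤ ((b / C.cS36 + 1 : ℕ) : ℝ) / 2 ^ 36 := by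
    have := div_hi b C.cS36 (by norm_num [C.cS36])
    have e : SR = C.cS36 * 2 ^ 36 := by norm_num [SR, C.cS, C.cS36]
    have p : (0 : ℝ) < C.cS36 := by norm_num [C.cS36]
    have := h1.2
    rw [le_div_iff₀ (by positivity)]
    have : L * 2 ^ 36 ≤ b / C.cS36 := by rw [le_div_iff₀ p]; rw [e] at this; linarith
    push_cast; linarith
  refine ⟨by simpa using h2.1, by simpa using h2.2, ?_, fun lo hi _ => ?_, by simpa [len] using h4,
    by simpa [thin] using h2.2⟩
  · simp only [Multiset.mem_singleton, forall_eq]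
    exact le_of_mul_le_mul_right (by linarith [h1.1, h2.2]) SR_pos
  · simp only [lenI, sm_single, Nat.cast_zero, zero_mul, add_zero]
    split_ifs
    · exact h4
    · positivity

theorem sm_fam {n sl su e d pi x : ℕ} (B s : ℕ → ℝ)
    (h : ∀ t, t < n → s t ≤ s (t + 1) ∧ B t ≤ e / 2 ^ 36 ∧ B t ≤ d * (s (t + 1) - s t) ∧
      (sl : ℝ) ≤ s t * SR ∧ s t * SR ≤ su ∧ 1 / (x : ℝ) ≤ B t)
    (hx : 0 < x) (hw : su * x ≤ C.cS) (hp : (∑ t ∈ range n, s t) * SR ≤ pi) :
    Sm sl su e d (n * e) pi (∑ t ∈ range n, ({(B t, s t)} : MS)) := by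
  refine ⟨fun r hr => ?_, fun r hr => ?_, fun r hr => ?_, fun lo hi hl => ?_, ?_, ?_⟩
  · obtain ⟨t, ht, rfl⟩ := mem_fsum hr
    exact (h t (Finset.mem_range.1 ht)).2.2.2.1
  · obtain ⟨t, ht, rfl⟩ := mem_fsum hr
    exact (h t (Finset.mem_range.1 ht)).2.2.2.2.1
  · obtain ⟨t, ht, rfl⟩ := mem_fsum hr
    obtain ⟨_, _, _, _, a1, a2⟩ := h t (Finset.mem_range.1 ht)
    refine le_trans ?_ a2
    have x0 : (0 : ℝ) < x := by exact_mod_cast hx
    have : (su : ℝ) * x ≤ SR := by unfold SR; exact_mod_cast hw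
    rw [le_div_iff₀ x0]
    exact le_of_mul_le_mul_right (by nlinarith) SR_pos
  · exact (chain_fam (by positivity) (Nat.cast_nonneg d) n B s
      (fun t ht => ⟨(h t ht).1, (h t ht).2.1, (h t ht).2.2.1⟩) le_rfl).2.le (by positivity)
      (Nat.cast_nonneg d) hl
  · simp only [len, sm_sum, sm_single]
    refine (Finset.sum_le_card_nsmul _ _ ((e : ℝ) / 2 ^ 36)
      fun t ht => (h t (Finset.mem_range.1 ht)).2.1).trans (le_of_eq ?_)
    simp; ring
  · simpa only [thin, sm_sum, sm_single] using hp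

theorem e_hi (c a : ℕ) (ha : 0 < a) : (c : ℝ) / a ≤ ((c * 2 ^ 36 / a + 1 : ℕ) : ℝ) / 2 ^ 36 := by
  have := div_hi (c * 2 ^ 36) a ha
  rw [le_div_iff₀ (by positivity)]
  rw [Nat.cast_mul, Nat.cast_pow, Nat.cast_ofNat] at this
  rw [div_mul_eq_mul_div, Nat.cast_succ]; exact this

theorem pot_fam {n c yh q : ℕ} {y : ℝ} (H : ℕ → ℝ) (hy : y * SR ≤ yh)
    (h : (n : ℝ) * q / c ≤ ∑ t ∈ range n, H t) :
    (∑ t ∈ range n, (y - H t)) * SR ≤ ((n * (yh - q * C.cS / c) : ℕ) : ℝ) := by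
  have a1 := div_lo (q * C.cS) c
  have a2 := sub_hi yh (q * C.cS / c)
  have a3 := mul_le_mul_of_nonneg_right h SR_pos.le
  have n0 : (0 : ℝ) ≤ n := Nat.cast_nonneg n
  rw [Finset.sum_sub_distrib, Finset.sum_const, Finset.card_range, nsmul_eq_mul, Nat.cast_mul]
  have a4 : (n : ℝ) * q / c * SR = n * (((q * C.cS : ℕ) : ℝ) / c) := by
    unfold SR; push_cast; ring
  nlinarith

theorem sm_famH {a o t yl yh : ℕ} {y : ℝ} (ha : 0 < a) (hy : In yl yh y) (h1 : 1 / ((a : ℝ) + 1) ≤ y)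
    (hw : (yh - C.cS / (a + 2 * t + 1)) * (a + 2 * t + 2) ≤ C.cS) :
    Sm (yl - (C.cS / (a + 1) + 1)) (yh - C.cS / (a + 2 * t + 1)) (C.cZ2 / a + 1) (a + 2 * t + 2 + 3)
      ((t + 1) * (C.cZ2 / a + 1)) ((t + 1) * (yh - C.cS / (a + (t + 1)))) (famH a o (t + 1) y) := by
  have a0 : (1 : ℝ) ≤ a := by exact_mod_cast ha
  refine sm_fam _ (fun r => y - 1 / (((a + 2 * r : ℕ) : ℝ) + 1)) (fun r hr => ?_) (by omega) hw ?_
  · have r0 : (0 : ℝ) ≤ r := Nat.cast_nonneg r
    have r1 : (r : ℝ) ≤ t := by exact_mod_cast Nat.lt_succ_iff.1 hr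
    have b1 : bH a o (t + 1) r ≤ vR (a + 2 * r) := by
      unfold bH; split_ifs
      · unfold vR; linarith [show 0 < 1 / (((a + 2 * r : ℕ) : ℝ) + 2) by positivity]
      · exact le_rfl
    have b2 : 1 / ((a + 2 * r : ℕ) : ℝ) ≤ bH a o (t + 1) r := by
      unfold bH; split_ifs
      · exact le_rfl
      · unfold vR; linarith [show 0 < 1 / (((a + 2 * r : ℕ) : ℝ) + 2) by positivity]
    have i1 := inv_in (show 0 < a + 1 by omega)
    have i2 := inv_in (show 0 < a + 2 * t + 1 by omega)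
    have e1 := e_hi 2 a ha
    have m1 : 1 / ((a : ℝ) + 2 * r + 1) ≤ 1 / ((a : ℝ) + 1) :=
      one_div_le_one_div_of_le (by linarith) (by linarith)
    have m2 : 1 / ((a : ℝ) + 2 * t + 1) ≤ 1 / ((a : ℝ) + 2 * r + 1) :=
      one_div_le_one_div_of_le (by linarith) (by linarith)
    have m3 := mul_le_mul_of_nonneg_right m1 SR_pos.le
    have m4 := mul_le_mul_of_nonneg_right m2 SR_pos.le
    refine ⟨?_, b1.trans (le_trans ?_ e1), b1.trans ?_, ?_, ?_, le_trans ?_ b2⟩
    · push_cast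
      exact sub_le_sub_left (one_div_le_one_div_of_le (by linarith) (by linarith)) _
    · have := vR_anti ha (show a ≤ a + 2 * r by omega)
      have : 1 / ((a : ℝ) + 2) ≤ 1 / (a : ℝ) := one_div_le_one_div_of_le (by linarith) (by linarith)
      have e : ((2 : ℕ) : ℝ) / a = 1 / a + 1 / a := by push_cast; ring
      unfold vR at *; linarith
    · unfold vR; push_cast
      have e : y - 1 / ((a : ℝ) + 2 * (r + 1) + 1) - (y - 1 / ((a : ℝ) + 2 * r + 1)) =
          2 / ((a + 2 * r + 1) * (a + 2 * r + 3)) := by field_simp; ring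
      rw [e]
      have : (a : ℝ) + 2 * r + 5 ≤ a + 2 * t + 2 + 3 := by linarith
      refine le_trans ?_ (mul_le_mul_of_nonneg_right this (by positivity))
      obtain ⟨u, hu, e2⟩ : ∃ u : ℝ, 0 ≤ u ∧ (a : ℝ) + 2 * r = u + 1 := ⟨a + 2 * r - 1, by linarith, by ring⟩
      rw [e2, ← sub_nonneg]
      have : (u + 1 + 5) * (2 / ((u + 1 + 1) * (u + 1 + 3))) - (1 / (u + 1) + 1 / (u + 1 + 2)) =
          (4 * u ^ 2 + 14 * u + 4) / ((u + 1) * (u + 2) * (u + 3) * (u + 4)) := by
        field_simp; ring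
      rw [this]; positivity
    · push_cast at i1 ⊢
      refine sub_lo ?_ (mul_nonneg (by linarith) SR_pos.le)
      push_cast; linarith [hy.1, i1.2]
    · refine le_trans ?_ (sub_hi _ _)
      push_cast at i2 ⊢; linarith [hy.2, i2.1]
    · push_cast; exact one_div_le_one_div_of_le (by linarith) (by linarith)
  · have := pot_fam (n := t + 1) (c := a + (t + 1)) (q := 1) (fun r => 1 / (((a + 2 * r : ℕ) : ℝ) + 1))
      hy.2 (by
        have := amhm (b := a + 1) (c := ((a + (t + 1) : ℕ) : ℝ)) (N := 2) (t + 1) (by linarith)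
          (by norm_num) (by positivity) (by push_cast; linarith)
        rw [Nat.cast_one, mul_one]
        refine this.trans (le_of_eq (Finset.sum_congr rfl fun r _ => ?_))
        push_cast; ring)
    rwa [one_mul] at this

theorem cH_lo {b : ℕ} (J : ℕ) (hb : 0 < b) : 2 * (J : ℝ) / (b + J) ≤ cH b J := by
  have b0 : (0 : ℝ) < b := by exact_mod_cast hb
  have := amhm (b := b + 1) (c := (b : ℝ) + J) (N := 2) J (by linarith)
    (by norm_num) (by positivity) (by linarith)
  rw [mul_div_assoc]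
  refine (mul_le_mul_of_nonneg_left this (by norm_num)).trans ?_
  rw [Finset.mul_sum]
  refine Finset.sum_le_sum fun j _ => ?_
  unfold vR; push_cast
  have j0 : (0 : ℝ) ≤ j := Nat.cast_nonneg j
  rw [← sub_nonneg]
  have : 1 / ((b : ℝ) + 2 * j) + 1 / (b + 2 * j + 2) - 2 * (1 / (b + 1 + j * 2)) =
      2 / ((b + 2 * j) * (b + 2 * j + 2) * (b + 1 + j * 2)) := by field_simp; ring
  rw [this]; positivity

theorem vR_diff {b : ℕ} (j : ℕ) (hb : 0 < b) : vR b - vR (b + j) =
    j / ((b : ℝ) * (b + j)) + j / (((b : ℝ) + 2) * (b + 2 + j)) := by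
  have b0 : (0 : ℝ) < b := by exact_mod_cast hb
  unfold vR; push_cast; field_simp; ring

theorem gY_eq (b j l : ℕ) : gY b j l = ∑ r ∈ range l, (vR (b + 2 * r) - vR (b + 2 * r + j)) := by
  unfold gY cH
  rw [← Finset.sum_sub_distrib]
  exact Finset.sum_congr rfl fun r _ => by rw [add_right_comm]

theorem gY_lo {b : ℕ} (j l : ℕ) (hb : 0 < b) :
    l * (2 * j / (((b : ℝ) + 2 * l) * (b + 2 * l + j))) ≤ gY b j l := by
  have b0 : (0 : ℝ) < b := by exact_mod_cast hb
  have j0 : (0 : ℝ) ≤ j := Nat.cast_nonneg j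
  rw [gY_eq]
  refine le_trans (le_of_eq (by simp)) (Finset.card_nsmul_le_sum _ _
    (2 * j / (((b : ℝ) + 2 * l) * (b + 2 * l + j))) fun r hr => ?_)
  have r1 : (r : ℝ) + 1 ≤ l := by exact_mod_cast Finset.mem_range.1 hr
  have r0 : (0 : ℝ) ≤ r := Nat.cast_nonneg r
  rw [vR_diff j (by omega)]
  push_cast
  have a1 : j / (((b : ℝ) + 2 * l) * (b + 2 * l + j)) ≤ j / (((b : ℝ) + 2 * r) * (b + 2 * r + j)) :=
    div_le_div_of_nonneg_left j0 (by positivity)
      (mul_le_mul (by linarith) (by linarith) (by positivity) (by positivity))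
  have a2 : j / (((b : ℝ) + 2 * l) * (b + 2 * l + j)) ≤ j / (((b : ℝ) + 2 * r + 2) * (b + 2 * r + 2 + j)) :=
    div_le_div_of_nonneg_left j0 (by positivity)
      (mul_le_mul (by linarith) (by linarith) (by positivity) (by positivity))
  rw [two_mul (j : ℝ), add_div]; linarith

theorem gY_hi {a b : ℕ} (j l : ℕ) (ha : 0 < a) (hb : a ≤ b) :
    gY b j l ≤ l * (2 * j / (a : ℝ) ^ 2) := by
  have a0 : (0 : ℝ) < a := by exact_mod_cast ha
  have b0 : (a : ℝ) ≤ b := by exact_mod_cast hb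
  have j0 : (0 : ℝ) ≤ j := Nat.cast_nonneg j
  rw [gY_eq]
  refine (Finset.sum_le_card_nsmul _ _ (2 * j / (a : ℝ) ^ 2) fun r _ => ?_).trans (le_of_eq (by simp))
  have r0 : (0 : ℝ) ≤ r := Nat.cast_nonneg r
  rw [vR_diff j (by omega)]
  push_cast
  have a1 : j / (((b : ℝ) + 2 * r) * (b + 2 * r + j)) ≤ j / (a : ℝ) ^ 2 :=
    div_le_div_of_nonneg_left j0 (by positivity) (by nlinarith)
  have a2 : j / (((b : ℝ) + 2 * r + 2) * (b + 2 * r + 2 + j)) ≤ j / (a : ℝ) ^ 2 :=
    div_le_div_of_nonneg_left j0 (by positivity) (by nlinarith)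
  rw [two_mul (j : ℝ), add_div]; linarith

theorem sm_famA {a J t yl yh : ℕ} {y : ℝ} (ha : 0 < a) (hJ : 0 < J) (hJ8 : J ≤ 8) (hy : In yl yh y)
    (h1 : cH a J ≤ y)
    (hw : (yh - C.cv J (a + 2 * J * t)) * (a + 2 * J * (t + 1)) ≤ C.cS) :
    Sm (yl - (C.cv J a + 16)) (yh - C.cv J (a + 2 * J * t)) (C.cZ / a + 1)
      ((a + 2 * J * (t + 1) + 2 * J + 3) / (2 * J) ^ 2 + 1)
      ((t + 1) * (C.cZ / a + 1)) ((t + 1) * (yh - 2 * J * C.cS / (a + J * (t + 1))))
      (famA a J (t + 1) y) := by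
  have a0 : (1 : ℝ) ≤ a := by exact_mod_cast ha
  have J0 : (1 : ℝ) ≤ J := by exact_mod_cast hJ
  have J8 : (J : ℝ) ≤ 8 := by exact_mod_cast hJ8
  refine sm_fam _ (fun r => y - cH (a + 2 * J * r) J) (fun r hr => ?_) (by omega) hw ?_
  · have r1 : 2 * J * r ≤ 2 * J * t := Nat.mul_le_mul_left _ (Nat.lt_succ_iff.1 hr)
    have i1 := cv_in J a ha
    have i2 := cv_in J (a + 2 * J * t) (by omega)
    have e1 := e_hi 1 a ha
    have m1 := cH_anti J ha (show a ≤ a + 2 * J * r by omega)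
    have m2 := cH_anti J (show 0 < a + 2 * J * r by omega) (show _ ≤ a + 2 * J * t by omega)
    have m3 := mul_le_mul_of_nonneg_right m1 SR_pos.le
    have m4 := mul_le_mul_of_nonneg_right m2 SR_pos.le
    have ec : ((a + 2 * J * r + 2 * J - 1 : ℕ) : ℝ) = ((a + 2 * J * r : ℕ) : ℝ) + 2 * J - 1 := by
      rw [Nat.cast_sub (by omega)]; push_cast; ring
    have b0 : (a : ℝ) ≤ ((a + 2 * J * r : ℕ) : ℝ) := by exact_mod_cast Nat.le_add_right _ _
    have b1 : ((a + 2 * J * r : ℕ) : ℝ) + 2 * J ≤ ((a + 2 * J * (t + 1) : ℕ) : ℝ) := by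
      exact_mod_cast (by rw [Nat.mul_succ]; omega : a + 2 * J * r + 2 * J ≤ a + 2 * J * (t + 1))
    refine ⟨?_, le_trans ?_ e1, ?_, ?_, ?_, ?_⟩
    · exact sub_le_sub_left (cH_anti J (by omega) (by rw [Nat.mul_succ]; omega)) _
    · rw [ec, Nat.cast_one]; exact one_div_le_one_div_of_le (by linarith) (by linarith)
    · have g := gY_lo (2 * J) J (show 0 < a + 2 * J * r by omega)
      have e : y - cH (a + 2 * J * (r + 1)) J - (y - cH (a + 2 * J * r) J) =
          gY (a + 2 * J * r) (2 * J) J := by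
        rw [gY, Nat.mul_succ, add_assoc]; ring
      have d1 := div_hi (a + 2 * J * (t + 1) + 2 * J + 3) ((2 * J) ^ 2) (by positivity)
      rw [e, ec, Nat.cast_succ]
      rw [Nat.cast_add, Nat.cast_add] at d1
      generalize ((a + 2 * J * r : ℕ) : ℝ) = b at *
      generalize ((a + 2 * J * (t + 1) : ℕ) : ℝ) = x at *
      generalize (((a + 2 * J * (t + 1) + 2 * J + 3) / (2 * J) ^ 2 : ℕ) : ℝ) = d at *
      push_cast at d1 g
      have d2 : (b + 4 * J + 3) / (2 * J) ^ 2 ≤ d + 1 :=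
        (div_le_div_of_nonneg_right (by linarith) (by positivity)).trans d1
      have p1 : 0 < b + 2 * J - 1 := by linarith
      have p2 : 0 < b := by linarith
      refine le_trans ?_ (mul_le_mul d2 g (by positivity) (le_trans (by positivity) d2))
      have : (b + 4 * J + 3) / (2 * J) ^ 2 * (J * (2 * (2 * J) / ((b + 2 * J) * (b + 2 * J + 2 * J)))) =
          (b + 4 * J + 3) / ((b + 2 * J) * (b + 4 * J)) := by
        field_simp; ring
      rw [this, div_le_div_iff₀ p1 (by positivity)]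
      nlinarith
    · refine sub_lo ?_ (mul_nonneg (by linarith) SR_pos.le)
      push_cast; linarith [hy.1, i1.2]
    · refine le_trans ?_ (sub_hi _ _)
      linarith [hy.2, i2.1]
    · rw [ec]; exact one_div_le_one_div_of_le (by linarith) (by linarith)
  · refine pot_fam (n := t + 1) (c := a + J * (t + 1)) (q := 2 * J) (fun r => cH (a + 2 * J * r) J)
      hy.2 ?_
    have := amhm (b := a + J) (c := ((a + J * (t + 1) : ℕ) : ℝ)) (N := 2 * J) (t + 1) (by linarith)
      (by linarith) (by positivity) (by push_cast; linarith)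
    rw [mul_comm, mul_div_assoc]
    refine (mul_le_mul_of_nonneg_left this (Nat.cast_nonneg _)).trans ?_
    rw [Finset.mul_sum]
    refine Finset.sum_le_sum fun r _ => le_trans (le_of_eq ?_) (cH_lo J (by omega))
    push_cast; rw [mul_one_div]; congr 1; ring

def PcOK (Pc : MS) : Prop := ∀ s ∈ Pc, 0 < s.2 ∧ s.2 ≤ s.1 ∧ 99 / 100 * s.2 < wq 5800 ∧
  Bookable wq capq (99 / 100) (39 / 250) s.1 s.2

theorem gX_eq (b j n : ℕ) : gX b j n = ∑ r ∈ range n,
    2 / (((b : ℝ) + j + 1 + j * r) * (b + j + 3 + j * r)) := by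
  unfold gX Hs
  rw [← Finset.sum_sub_distrib]
  refine Finset.sum_congr rfl fun r _ => ?_
  push_cast; field_simp; ring

theorem gX_nonneg (b j n : ℕ) : 0 ≤ gX b j n := by
  rw [gX_eq]; exact Finset.sum_nonneg fun r _ => by positivity

theorem gY_nonneg {b : ℕ} (j l : ℕ) (hb : 0 < b) : 0 ≤ gY b j l :=
  le_trans (by positivity) (gY_lo j l hb)

theorem close_gaps {a J K i : ℕ} (ha : 0 < a) (hi : i < K)
    (h1 : (2 * K + (2 * J) ^ 2) ^ 3 * (a + 2 * J * K) ^ 2 * 950000000000 ≤ a ^ 6)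
    (h2 : (2 * J) ^ 2 * 195112000000 ≤ 4100 * a ^ 2) :
    ∃ Pc, Step (gapS a J K i) Pc ∧ PcOK Pc ∧ (2 * len Pc + thin Pc) * SR ≤
      3 * ((2 * J * K * (2 * K + (2 * J) ^ 2) * C.cS / (3 * a ^ 2) + 1 : ℕ) : ℝ) := by
  have a0 : (0 : ℝ) < a := by exact_mod_cast ha
  set Z : ℝ := 2 * K + (2 * J) ^ 2 with hZ
  set m : ℝ := a + 2 * J * K with hm
  have h1' : Z ^ 3 * m ^ 2 * 950000000000 ≤ (a : ℝ) ^ 6 := by rw [hZ, hm]; exact_mod_cast h1
  have h2' : (2 * (J : ℝ)) ^ 2 * 195112000000 ≤ 4100 * (a : ℝ) ^ 2 := by exact_mod_cast h2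
  have m0 : 0 < m := by positivity
  let x : ℕ → ℕ → ℝ := fun r l => gX (a + 2 * J * r + 2 * l) (2 * J) (K - (r + 1))
  let y : ℕ → ℕ → ℝ := fun r l => gY (a + 2 * J * r) (2 * J) (l + 1)
  have key : ∀ r, r < i → ∀ l, l < J - 1 → 2 / m ^ 2 ≤ x r l ∧ 2 / m ^ 2 ≤ y r l ∧
      x r l ≤ 2 * K / (a : ℝ) ^ 2 ∧ y r l ≤ (2 * J) ^ 2 / (a : ℝ) ^ 2 := by
    intro r hr l hl
    have r0 : (0 : ℝ) ≤ r := Nat.cast_nonneg r
    have l0 : (0 : ℝ) ≤ l := Nat.cast_nonneg l
    have r1 : (r : ℝ) + 2 ≤ K := by exact_mod_cast (by omega : r + 2 ≤ K)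
    have l1 : (l : ℝ) + 2 ≤ J := by exact_mod_cast (by omega : l + 2 ≤ J)
    have q1 : 2 * (J : ℝ) * (r + 2) ≤ 2 * J * K := mul_le_mul_of_nonneg_left r1 (by linarith)
    have q2 : 0 ≤ 2 * (J : ℝ) * r := by positivity
    refine ⟨?_, ?_, ?_, ?_⟩
    · simp only [x]
      rw [gX_eq, show K - (r + 1) = (K - (r + 2)) + 1 by omega, Finset.sum_range_succ']
      refine le_add_of_nonneg_of_le (Finset.sum_nonneg fun _ _ => by positivity) ?_
      push_cast
      refine div_le_div_of_nonneg_left (by norm_num) (by positivity) ?_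
      rw [sq]
      exact mul_le_mul (by linarith) (by linarith) (by positivity) m0.le
    · refine le_trans ?_ (gY_lo (2 * J) (l + 1) (by omega))
      push_cast
      rw [← mul_div_assoc]
      refine div_le_div₀ (by positivity) (by nlinarith) (by positivity) ?_
      rw [sq]
      exact mul_le_mul (by linarith) (by linarith) (by positivity) m0.le
    · simp only [x]
      rw [gX_eq]
      refine (Finset.sum_le_card_nsmul _ _ (2 / (a : ℝ) ^ 2) fun u _ => ?_).trans ?_
      · have : (0 : ℝ) ≤ ((2 * J : ℕ) : ℝ) * u := by positivity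
        push_cast at this ⊢
        refine div_le_div_of_nonneg_left (by norm_num) (by positivity) ?_
        rw [sq]
        exact mul_le_mul (by linarith) (by linarith) a0.le (by positivity)
      · rw [Finset.card_range, nsmul_eq_mul, ← mul_div_assoc]
        have : ((K - (r + 1) : ℕ) : ℝ) ≤ K := by exact_mod_cast Nat.sub_le _ _
        exact div_le_div_of_nonneg_right (by linarith) (by positivity)
    · refine (gY_hi (2 * J) (l + 1) ha (by omega)).trans ?_
      push_cast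
      rw [← mul_div_assoc]
      exact div_le_div_of_nonneg_right (by nlinarith) (by positivity)
  have z1 : 2 * K / (a : ℝ) ^ 2 + (2 * J) ^ 2 / (a : ℝ) ^ 2 = Z / (a : ℝ) ^ 2 := by rw [hZ]; ring
  have p0 : 0 < 2 / m ^ 2 := by positivity
  refine ⟨∑ r ∈ range i, ∑ l ∈ range (J - 1), {(max (x r l) (y r l), min (x r l) (y r l))},
    Step.sum _ _ _ fun r _ => Step.sum _ _ _ fun l _ => ?_, fun s hs => ?_, ?_⟩
  · change Step {(x r l, y r l)} _
    rcases le_total (x r l) (y r l) with h | h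
    · rw [max_eq_right h, min_eq_left h]; exact step_rot _ _
    · rw [max_eq_left h, min_eq_right h]; exact Step.refl _
  · obtain ⟨r, hr, hs⟩ := Multiset.mem_sum.1 hs
    obtain ⟨l, hl, rfl⟩ := mem_fsum hs
    obtain ⟨k1, k2, k3, k4⟩ := key r (Finset.mem_range.1 hr) l (Finset.mem_range.1 hl)
    have c1 : 2 / m ^ 2 ≤ min (x r l) (y r l) := le_min k1 k2
    have c2 : min (x r l) (y r l) ≤ wq 5800 := by
      refine (min_le_right _ _).trans (k4.trans ?_)
      rw [wq_pos' (by norm_num), div_le_div_iff₀ (by positivity) (by positivity)]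
      norm_num; linarith
    have c3 : max (x r l) (y r l) ≤ Z / (a : ℝ) ^ 2 := max_le (by linarith) (by linarith)
    have c4 : 0 < max (x r l) (y r l) := by linarith [le_max_left (x r l) (y r l)]
    refine ⟨by linarith, min_le_max, by linarith, fun h b1 b2 => ?_⟩
    refine bookable_of c4 (by linarith) ?_
      (win_ge b1 (c2.trans (wq_anti.antitone (by norm_num)))) b2
    refine le_trans ?_ c1
    have := pow_le_pow_left₀ c4.le c3 3
    refine (mul_le_mul_of_nonneg_right this (by norm_num)).trans ?_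
    rw [div_pow, div_mul_eq_mul_div, div_le_div_iff₀ (by positivity) (by positivity)]
    linarith [show ((a : ℝ) ^ 2) ^ 3 = a ^ 6 by ring]
  · have d1 := div_hi (2 * J * K * (2 * K + (2 * J) ^ 2) * C.cS) (3 * a ^ 2) (by positivity)
    rw [Nat.cast_succ]
    refine le_trans ?_ (mul_le_mul_of_nonneg_left d1 (by norm_num))
    simp only [len, thin, sm_sum, sm_single, Finset.mul_sum, ← Finset.sum_add_distrib]
    have : ∑ r ∈ range i, ∑ l ∈ range (J - 1), (2 * max (x r l) (y r l) + min (x r l) (y r l)) ≤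
        K * (J * (2 * (Z / (a : ℝ) ^ 2))) := by
      refine (Finset.sum_le_card_nsmul _ _ (J * (2 * (Z / (a : ℝ) ^ 2))) fun r hr => ?_).trans ?_
      · refine (Finset.sum_le_card_nsmul _ _ (2 * (Z / (a : ℝ) ^ 2)) fun l hl => ?_).trans ?_
        · obtain ⟨k1, k2, k3, k4⟩ := key r (Finset.mem_range.1 hr) l (Finset.mem_range.1 hl)
          have := max_add_min (x r l) (y r l)
          have := le_min k1 k2
          linarith
        · rw [Finset.card_range, nsmul_eq_mul]
          exact mul_le_mul_of_nonneg_right (by exact_mod_cast Nat.sub_le _ _) (by positivity)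
      · rw [Finset.card_range, nsmul_eq_mul]
        exact mul_le_mul_of_nonneg_right (by exact_mod_cast hi.le) (by positivity)
    refine (mul_le_mul_of_nonneg_right this SR_pos.le).trans (le_of_eq ?_)
    unfold SR; push_cast; rw [hZ]; field_simp

end Pool.Agent.MP_f14165_co

end
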